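import Pool.Agent.GRZ.Mod9

set_option autoImplicit false

namespace Pool.Agent.GRZ

open Finset

variable {V D E : Type} [Fintype V] [DecidableEq V] [Fintype D] [DecidableEq D] [Fintype E] [DecidableEq E]

/-- primitive cube root of unity -/
noncomputable def om : ℂ := ⟨-1 / 2, Real.sqrt 3 / 2⟩

theorem sqrt3 : Real.sqrt 3 * Real.sqrt 3 = 3 := Real.mul_self_sqrt (by norm_num)

theorem om_sq : om * om = ⟨-1 / 2, -(Real.sqrt 3 / 2)⟩ := by
  apply Complex.ext
  · simp only [om, Complex.mul_re]
    have := sqrt3
    nlinarith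
  · simp only [om, Complex.mul_im]
    ring

theorem om_cube : om * om * om = 1 := by
  rw [om_sq]
  apply Complex.ext
  · simp only [om, Complex.mul_re, Complex.one_re]
    have := sqrt3
    nlinarith
  · simp only [om, Complex.mul_im, Complex.one_im]
    ring

theorem om_sum : 1 + om + om * om = 0 := by
  rw [om_sq]
  apply Complex.ext
  · simp only [om, Complex.add_re, Complex.one_re, Complex.zero_re]
    norm_num
  · simp only [om, Complex.add_im, Complex.one_im, Complex.zero_im]
    ring

theorem om_indep (a b c : ℕ) (h : (a : ℂ) + b * om + c * (om * om) = 0) : a = b ∧ b = c := by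
  rw [om_sq] at h
  have hre := congrArg Complex.re h
  have him := congrArg Complex.im h
  simp [om, Complex.add_re, Complex.mul_re, Complex.add_im, Complex.mul_im] at hre him
  have hs : (0 : ℝ) < Real.sqrt 3 := Real.sqrt_pos.2 (by norm_num)
  have h1 : (b : ℝ) = c := by
    have : (Real.sqrt 3 / 2) * ((b : ℝ) - c) = 0 := by linarith
    rcases mul_eq_zero.1 this with h | h
    · exfalso; linarith
    · linarith
  have h2 : (a : ℝ) = b := by
    rw [← h1] at hre; linarith
  exact ⟨by exact_mod_cast h2, by exact_mod_cast h1⟩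

/-- the character -/
noncomputable def chi (a : Fin 3) : ℂ := if a = 0 then 1 else if a = 1 then om else om * om

theorem chi_add (a b : Fin 3) : chi (a + b) = chi a * chi b := by
  have h3 := om_cube
  fin_cases a <;> fin_cases b <;> simp [chi]
  · rw [← h3]; ring
  · exact h3.symm
  · have : om * om * (om * om) = (om * om * om) * om := by ring
    rw [this, h3, one_mul]

theorem chi_zero : chi 0 = 1 := by simp [chi]

theorem chi_ne (a : Fin 3) : chi a ≠ 0 := by
  intro h
  have : chi (a + -a) = 1 := by rw [add_neg_cancel, chi_zero]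
  rw [chi_add, h, zero_mul] at this
  exact zero_ne_one this

theorem chi_sum (a : Fin 3) : ∑ x : Fin 3, chi (a * x) = if a = 0 then 3 else 0 := by
  have h := om_sum
  fin_cases a
  · simp [chi]
  · simp [Fin.sum_univ_three, chi]
    exact h
  · have h2 : (2 : Fin 3) * 2 = 1 := by decide
    simp only [Fin.sum_univ_three, Fin.reduceFinMk, mul_zero, mul_one, h2]
    simp [chi]
    rw [← h]; ring

theorem chi_prod {ι : Type} (s : Finset ι) (f : ι → Fin 3) : ∏ i ∈ s, chi (f i) = chi (∑ i ∈ s, f i) := by
  classical
  induction s using Finset.induction_on with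
  | empty => simp [chi_zero]
  | insert i s hi ih => rw [prod_insert hi, sum_insert hi, ih, chi_add]

/-- the two tables -/
noncomputable def U1 : Fin 3 → Fin 3 → ℂ := fun x a => (1 / 3) * chi (x * a)
noncomputable def U2 : Fin 3 → Fin 3 → ℂ := fun x a => chi (-(x * a))

theorem U12 (a b : Fin 3) : ∑ x, U1 x a * U2 x b = if a = b then 1 else 0 := by
  have h : ∀ x : Fin 3, U1 x a * U2 x b = (1 / 3) * chi ((a - b) * x) := by
    intro x
    unfold U1 U2
    have : ∀ a b x : Fin 3, (a - b) * x = x * a + -(x * b) := by decide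
    have := this a b x
    rw [this, chi_add]
    ring
  simp only [h]
  rw [← mul_sum, chi_sum]
  by_cases hab : a = b
  · rw [if_pos hab, if_pos (sub_eq_zero.2 hab)]; norm_num
  · rw [if_neg hab, if_neg (fun h => hab (sub_eq_zero.1 h))]; norm_num

theorem det3_mul (A B : Fin 3 → Fin 3 → ℂ) (h : ∀ a b, ∑ x, A x a * B x b = if a = b then 1 else 0) :
    det3 A * det3 B = 1 := by
  have h00 := h 0 0
  have h01 := h 0 1
  have h02 := h 0 2
  have h10 := h 1 0
  have h11 := h 1 1
  have h12 := h 1 2
  have h20 := h 2 0
  have h21 := h 2 1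
  have h22 := h 2 2
  simp only [Fin.sum_univ_three, Fin.isValue, if_true] at h00 h01 h02 h10 h11 h12 h20 h21 h22
  have e01 : (0 : Fin 3) ≠ 1 := by decide
  have e02 : (0 : Fin 3) ≠ 2 := by decide
  have e12 : (1 : Fin 3) ≠ 2 := by decide
  rw [if_neg e01] at h01
  rw [if_neg e02] at h02
  rw [if_neg e01.symm] at h10
  rw [if_neg e12] at h12
  rw [if_neg e02.symm] at h20
  rw [if_neg e12.symm] at h21
  have : det3 A * det3 B = det3 (fun a b => A 0 a * B 0 b + A 1 a * B 1 b + A 2 a * B 2 b) := by
    unfold det3; ring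
  rw [this]
  unfold det3
  simp only [h00, h01, h02, h10, h11, h12, h20, h21, h22]
  norm_num

theorem det_U : det3 U1 ≠ 0 ∧ det3 U2 ≠ 0 := by
  have h := det3_mul U1 U2 U12
  constructor
  · intro h0; rw [h0, zero_mul] at h; exact zero_ne_one h
  · intro h0; rw [h0, mul_zero] at h; exact zero_ne_one h

/-- the degree-2 computation -/
theorem two_loc1 (y z ξ : Fin 3) : ∑ a, ∑ b, (if b = a + ξ then (1 : ℂ) else 0) * (U1 y a * U2 z b)
    = if y = z then chi (-(y * ξ)) else 0 := by
  have h1 : ∀ a : Fin 3, ∑ b, (if b = a + ξ then (1 : ℂ) else 0) * (U1 y a * U2 z b)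
      = (1 / 3) * chi (-(z * ξ)) * chi ((y - z) * a) := by
    intro a
    simp only [ite_mul, one_mul, zero_mul]
    rw [sum_ite_eq']
    simp only [mem_univ, if_true]
    unfold U1 U2
    have : ∀ y z a ξ : Fin 3, chi (y * a) * chi (-(z * (a + ξ))) = chi (-(z * ξ)) * chi ((y - z) * a) := by
      intro y z a ξ
      rw [← chi_add, ← chi_add]
      congr 1
      revert y z a ξ
      decide
    have h := this y z a ξ
    linear_combination (1 / 3) * h
  simp only [h1]
  rw [← mul_sum, chi_sum]
  by_cases hyz : y = z
  · subst hyz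
    simp
    ring
  · rw [if_neg (fun h => hyz (sub_eq_zero.1 h)), if_neg hyz, mul_zero]

theorem two_loc2 (y z ξ : Fin 3) : ∑ a, ∑ b, (if b = a + ξ then (1 : ℂ) else 0) * (U2 y a * U1 z b)
    = if y = z then chi (y * ξ) else 0 := by
  have h1 : ∀ a : Fin 3, ∑ b, (if b = a + ξ then (1 : ℂ) else 0) * (U2 y a * U1 z b)
      = (1 / 3) * chi (z * ξ) * chi ((z - y) * a) := by
    intro a
    simp only [ite_mul, one_mul, zero_mul]
    rw [sum_ite_eq']
    simp only [mem_univ, if_true]
    unfold U1 U2
    have : ∀ y z a ξ : Fin 3, chi (-(y * a)) * chi (z * (a + ξ)) = chi (z * ξ) * chi ((z - y) * a) := by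
      intro y z a ξ
      rw [← chi_add, ← chi_add]
      congr 1
      revert y z a ξ
      decide
    have h := this y z a ξ
    linear_combination (1 / 3) * h
  simp only [h1]
  rw [← mul_sum, chi_sum]
  by_cases hyz : y = z
  · subst hyz
    simp
    ring
  · rw [if_neg (fun h => hyz (sub_eq_zero.1 h).symm), if_neg hyz, mul_zero]

/-- **The Fourier identity for bipartite skeletons.** -/
theorem bip_sum (X : DG V D E) (hX : X.Sub) [DecidablePred X.Tait] (o : D → Bool)
    (hinv : ∀ d, o (X.inv d) = !(o d))
    (h3 : ∀ v, X.deg v = 3 → o (X.b1 v) = o (X.base v) ∧ o (X.b2 v) = o (X.base v))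
    (h2 : ∀ v, X.deg v = 2 → o (X.b1 v) = !(o (X.base v)))
    (η : V → Fin 3) (hη : ∀ v, X.deg v = 2 → η v ≠ 0)
    (hno : ∀ c, ¬ X.Good (fun _ => False) c) :
    ∑ x ∈ univ.filter (fun x : E → Fin 3 => X.Tait x),
      ((X.sgn x : ℤ) : ℂ) * X.wt (fun v a => chi (a * η v)) x = 0 := by
  classical
  let g : D → Fin 3 → Fin 3 → ℂ := fun d => if o d then U1 else U2
  let ξ : V → Fin 3 := fun v => if X.deg v = 2 then (if o (X.base v) then -(η v) else η v) else 1
  have hξ : ∀ v, ξ v ≠ 0 := by
    intro v
    show (if X.deg v = 2 then (if o (X.base v) then -(η v) else η v) else 1) ≠ 0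
    by_cases hv : X.deg v = 2
    · rw [if_pos hv]
      have := hη v hv
      by_cases ho : o (X.base v)
      · rw [if_pos ho]; simpa using this
      · rw [if_neg ho]; exact this
    · rw [if_neg hv]; decide
  have hnet := net X hX (fun _ a b c => ((eps a b c : ℤ) : ℂ))
    (fun v a b => if b = a + ξ v then (1 : ℂ) else 0) g (fun _ _ => 1)
  have hR : ∑ c : D → Fin 3, (∏ v, X.tau (fun _ a b c => ((eps a b c : ℤ) : ℂ))
      (fun v a b => if b = a + ξ v then (1 : ℂ) else 0) c v) *
        ∏ e, ∑ x, (1 : ℂ) * (g (X.pe e) x (c (X.pe e)) * g (X.inv (X.pe e)) x (c (X.inv (X.pe e)))) = 0 := by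
    apply sum_eq_zero
    intro c _
    have := term_zero X (R := ℂ) (fun _ => False) (fun v a b => if b = a + ξ v then (1 : ℂ) else 0)
      (by
        intro v a
        rw [if_neg]
        intro h
        apply hξ v
        have h' : a + 0 = a + ξ v := by rw [add_zero]; exact h
        exact (add_left_cancel h').symm)
      (fun e a b => ∑ x, (1 : ℂ) * (g (X.pe e) x a * g (X.inv (X.pe e)) x b))
      (by
        intro e _ a b hab
        simp only [one_mul]
        by_cases ho : o (X.pe e)
        · have ho' : o (X.inv (X.pe e)) = false := by rw [hinv, ho]; rfl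
          have e1 : g (X.pe e) = U1 := by show (if o (X.pe e) then U1 else U2) = U1; rw [if_pos ho]
          have e2 : g (X.inv (X.pe e)) = U2 := by
            show (if o (X.inv (X.pe e)) then U1 else U2) = U2
            rw [ho']; rfl
          rw [e1, e2, U12, if_neg hab]
        · have ho1 : o (X.pe e) = false := by simpa using ho
          have ho' : o (X.inv (X.pe e)) = true := by rw [hinv, ho1]; rfl
          have e1 : g (X.pe e) = U2 := by show (if o (X.pe e) then U1 else U2) = U2; rw [if_neg ho]
          have e2 : g (X.inv (X.pe e)) = U1 := by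
            show (if o (X.inv (X.pe e)) then U1 else U2) = U1
            rw [ho']; rfl
          rw [e1, e2]
          have : ∑ x, U2 x a * U1 x b = ∑ x, U1 x b * U2 x a := by
            apply sum_congr rfl
            intro x _
            ring
          rw [this, U12, if_neg (Ne.symm hab)]) c (hno c)
    exact this
  rw [hR] at hnet
  have hL := sum_tait X hX (R := ℂ) (fun _ => False) (fun _ => 0) (fun v a => chi (a * η v))
    (fun v => if o (X.base v) then det3 U1 else det3 U2) (fun _ => 1)
  have heq : ∀ x : E → Fin 3, ∀ v, (if X.deg v = 3 then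
      ∑ a, ∑ b, ∑ c, ((eps a b c : ℤ) : ℂ) * (g (X.base v) (x (X.ed (X.base v))) a *
        g (X.b1 v) (x (X.ed (X.b1 v))) b * g (X.b2 v) (x (X.ed (X.b2 v))) c)
      else ∑ a, ∑ b, (if b = a + ξ v then (1 : ℂ) else 0) * (g (X.base v) (x (X.ed (X.base v))) a *
        g (X.b1 v) (x (X.ed (X.b1 v))) b))
      = (if X.deg v = 3 then (if o (X.base v) then det3 U1 else det3 U2) *
          ((eps (x (X.ed (X.base v))) (x (X.ed (X.b1 v))) (x (X.ed (X.b2 v))) : ℤ) : ℂ)
        else if x (X.ed (X.base v)) = x (X.ed (X.b1 v)) then chi (x (X.ed (X.base v)) * η v) else 0) := by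
    intro x v
    rcases hX v with hv | hv
    · have hv3 : ¬ X.deg v = 3 := by omega
      simp only [hv3, if_false]
      have hb := h2 v hv
      by_cases ho : o (X.base v)
      · have hb' : o (X.b1 v) = false := by rw [hb, ho]; rfl
        have e1 : g (X.base v) = U1 := by show (if o (X.base v) then U1 else U2) = U1; rw [if_pos ho]
        have e2 : g (X.b1 v) = U2 := by show (if o (X.b1 v) then U1 else U2) = U2; rw [hb']; rfl
        have e3 : ξ v = -(η v) := by
          show (if X.deg v = 2 then (if o (X.base v) then -(η v) else η v) else 1) = _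
          rw [if_pos hv, if_pos ho]
        rw [e1, e2, e3, two_loc1]
        have : ∀ y n : Fin 3, -(y * -n) = y * n := by decide
        rw [this]
      · have ho1 : o (X.base v) = false := by simpa using ho
        have hb' : o (X.b1 v) = true := by rw [hb, ho1]; rfl
        have e1 : g (X.base v) = U2 := by show (if o (X.base v) then U1 else U2) = U2; rw [if_neg ho]
        have e2 : g (X.b1 v) = U1 := by show (if o (X.b1 v) then U1 else U2) = U1; rw [hb']; rfl
        have e3 : ξ v = η v := by
          show (if X.deg v = 2 then (if o (X.base v) then -(η v) else η v) else 1) = _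
          rw [if_pos hv, if_neg ho]
        rw [e1, e2, e3, two_loc2]
    · simp only [hv, if_true]
      obtain ⟨q1, q2⟩ := h3 v hv
      by_cases ho : o (X.base v)
      · have e0 : g (X.base v) = U1 := by show (if o (X.base v) then U1 else U2) = U1; rw [if_pos ho]
        have e1 : g (X.b1 v) = U1 := by show (if o (X.b1 v) then U1 else U2) = U1; rw [q1, if_pos ho]
        have e2 : g (X.b2 v) = U1 := by show (if o (X.b2 v) then U1 else U2) = U1; rw [q2, if_pos ho]
        rw [e0, e1, e2, eps_sum, if_pos ho]
      · have e0 : g (X.base v) = U2 := by show (if o (X.base v) then U1 else U2) = U2; rw [if_neg ho]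
        have e1 : g (X.b1 v) = U2 := by show (if o (X.b1 v) then U1 else U2) = U2; rw [q1, if_neg ho]
        have e2 : g (X.b2 v) = U2 := by show (if o (X.b2 v) then U1 else U2) = U2; rw [q2, if_neg ho]
        rw [e0, e1, e2, eps_sum, if_neg ho]
  simp only [if_false] at hL
  simp only [prod_const_one, one_mul, heq] at hnet
  simp only [prod_const_one, one_mul] at hL
  rw [hnet] at hL
  have hfil : univ.filter (fun x : E → Fin 3 => X.Tait x ∧ ∀ e, False → x e = 0)
      = univ.filter (fun x : E → Fin 3 => X.Tait x) := by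
    apply filter_congr
    intro x _
    simp
  rw [hfil] at hL
  rcases mul_eq_zero.1 hL.symm with h | h
  · exfalso
    rw [prod_eq_zero_iff] at h
    obtain ⟨v, _, hv⟩ := h
    by_cases hv3 : X.deg v = 3
    · rw [if_pos hv3] at hv
      by_cases ho : o (X.base v)
      · rw [if_pos ho] at hv; exact det_U.1 hv
      · rw [if_neg ho] at hv; exact det_U.2 hv
    · rw [if_neg hv3] at hv; exact one_ne_zero hv
  · exact h

end Pool.Agent.GRZ
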