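import Pool.Agent.GRZ.Bip

set_option autoImplicit false

namespace Pool.Agent.GRZ

open Finset

variable {V D E : Type} [Fintype V] [DecidableEq V] [Fintype D] [DecidableEq D] [Fintype E] [DecidableEq E]

/-- nonzero residues mod 3 with sum zero -/
theorem exists_eta (S : Finset V) (hS : S.card ≠ 1) :
    ∃ η : V → Fin 3, (∀ v, η v ≠ 0) ∧ ∑ v ∈ S, η v = 0 := by
  obtain ⟨m, hm, hmod⟩ : ∃ m, m ≤ S.card ∧ (S.card + m) % 3 = 0 := by
    rcases Nat.lt_or_ge 1 S.card with h | h
    · have : S.card % 3 = 0 ∨ S.card % 3 = 1 ∨ S.card % 3 = 2 := by omega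
      rcases this with h | h | h
      · exact ⟨0, by omega, by omega⟩
      · exact ⟨2, by omega, by omega⟩
      · exact ⟨1, by omega, by omega⟩
    · exact ⟨0, by omega, by omega⟩
  obtain ⟨T, hT, hTc⟩ := Finset.exists_subset_card_eq hm
  refine ⟨fun v => if v ∈ T then 2 else 1, ?_, ?_⟩
  · intro v
    by_cases h : v ∈ T
    · simp only [h, if_true]; decide
    · simp only [h, if_false]; decide
  · have h1 : ∑ v ∈ S, (if v ∈ T then (2 : Fin 3) else 1)
        = ∑ v ∈ S, (1 : Fin 3) + ∑ v ∈ S, (if v ∈ T then (1 : Fin 3) else 0) := by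
      rw [← sum_add_distrib]
      apply sum_congr rfl
      intro v _
      by_cases h : v ∈ T
      · simp only [h, if_true]; decide
      · simp only [h, if_false]; decide
    have h2 : ∑ v ∈ S, (if v ∈ T then (1 : Fin 3) else 0) = ∑ v ∈ T, (1 : Fin 3) := by
      rw [← sum_filter]
      congr 1
      ext v
      simp only [mem_filter]
      exact ⟨fun h => h.2, fun h => ⟨hT h, h⟩⟩
    have h3 : ∀ n : ℕ, n • (1 : Fin 3) = Fin.ofNat 3 n := by
      intro n
      induction n with
      | zero => rfl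
      | succ n ih =>
        rw [succ_nsmul, ih]
        apply Fin.ext
        simp [Fin.val_add, Fin.ofNat]
    rw [h1, h2]
    simp only [sum_const]
    rw [← add_nsmul, hTc, h3]
    apply Fin.ext
    simp [Fin.ofNat, hmod]

theorem mul_add3 (a b c : Fin 3) : (a + b) * c = a * c + b * c := by revert a b c; decide

theorem sum_mul3 {ι : Type} (s : Finset ι) (j : Fin 3) (f : ι → Fin 3) :
    ∑ i ∈ s, j * f i = j * ∑ i ∈ s, f i := by
  classical
  induction s using Finset.induction_on with
  | empty => simp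
  | insert i s hi ih =>
    rw [sum_insert hi, sum_insert hi, ih]
    have : ∀ a b c : Fin 3, a * b + a * c = a * (b + c) := by decide
    exact this _ _ _

theorem bip_main (X : DG V D E) (hX : X.Sub) (hE : X.Euler) (hC : X.Conn) [DecidablePred X.Tait]
    (o : D → Bool) (hinv : ∀ d, o (X.inv d) = !(o d))
    (h3 : ∀ v, X.deg v = 3 → o (X.b1 v) = o (X.base v) ∧ o (X.b2 v) = o (X.base v))
    (h2 : ∀ v, X.deg v = 2 → o (X.b1 v) = !(o (X.base v))) (e0 : E)
    (h9 : ¬ 9 ∣ (univ.filter (fun x : E → Fin 3 => X.Tait x)).card) (hk : X.k2 ≠ 1) :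
    ∃ c, X.Good (fun _ => False) c := by
  classical
  by_contra hno
  push Not at hno
  obtain ⟨η, hη, hsum⟩ := exists_eta (univ.filter (fun v => X.deg v = 2)) hk
  have hS := bip_sum X hX o hinv h3 h2 η (fun v _ => hη v) hno
  let L : (E → Fin 3) → Fin 3 := fun x => ∑ v ∈ univ.filter (fun v => X.deg v = 2),
    x (X.ed (X.base v)) * η v
  have hwt : ∀ x, X.wt (fun v a => chi (a * η v)) x = chi (L x) := by
    intro x
    show _ = chi (∑ v ∈ univ.filter (fun v => X.deg v = 2), x (X.ed (X.base v)) * η v)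
    rw [← chi_prod, prod_filter]
    rfl
  have hL : ∀ x j, L (fun e => x e + j) = L x := by
    intro x j
    show ∑ v ∈ univ.filter (fun v => X.deg v = 2), (x (X.ed (X.base v)) + j) * η v
      = ∑ v ∈ univ.filter (fun v => X.deg v = 2), x (X.ed (X.base v)) * η v
    simp only [mul_add3, sum_add_distrib]
    rw [sum_mul3, hsum]
    simp
  let T := univ.filter (fun x : E → Fin 3 => X.Tait x)
  let T0 := univ.filter (fun x : E → Fin 3 => X.Tait x ∧ x e0 = 0)
  have hTne : T.Nonempty := by
    by_contra h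
    rw [not_nonempty_iff_eq_empty] at h
    apply h9
    show 9 ∣ T.card
    rw [h, card_empty]
    exact dvd_zero _
  obtain ⟨z0, hz0⟩ := hTne
  have hz0' : X.Tait z0 := (mem_filter.1 hz0).2
  have hs : ∑ z ∈ T, ((X.sgn z : ℤ) : ℂ) * X.wt (fun v a => chi (a * η v)) z
      = ((X.sgn z0 : ℤ) : ℂ) * ∑ z ∈ T, chi (L z) := by
    rw [mul_sum]
    apply sum_congr rfl
    intro z hz
    rw [sgn_const X hX hE hC z z0 (mem_filter.1 hz).2 hz0', hwt]
  have hS' : ∑ z ∈ T, ((X.sgn z : ℤ) : ℂ) * X.wt (fun v a => chi (a * η v)) z = 0 := hS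
  rw [hs] at hS'
  have hsg : ((X.sgn z0 : ℤ) : ℂ) ≠ 0 := by
    have h2 : X.sgn z0 = 1 ∨ X.sgn z0 = -1 := prod_pm univ _ (fun v _ => sgn_pm X z0 hz0' v)
    rcases h2 with h2 | h2 <;> rw [h2] <;> norm_num
  have hF : ∑ z ∈ T, chi (L z) = 0 := (mul_eq_zero.1 hS').resolve_left hsg
  have hF0 : ∑ z ∈ T0, chi (L z) = 0 := by
    have h := sum_shift X e0 (fun z => chi (L z))
    have h' : ∑ z ∈ T, chi (L z) = ∑ z ∈ T0, ∑ j : Fin 3, chi (L (fun e => z e + j)) := h
    rw [hF] at h'
    simp only [hL, sum_const, card_univ, Fintype.card_fin] at h'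
    rw [← smul_sum] at h'
    have h3 : (3 : ℂ) * ∑ z ∈ T0, chi (L z) = 0 := by
      rw [nsmul_eq_mul] at h'
      exact_mod_cast h'.symm
    rcases mul_eq_zero.1 h3 with h | h
    · norm_num at h
    · exact h
  have hcount : ∑ z ∈ T0, chi (L z) = ((T0.filter (fun z => L z = 0)).card : ℂ)
      + ((T0.filter (fun z => L z = 1)).card : ℂ) * om
      + ((T0.filter (fun z => L z = 2)).card : ℂ) * (om * om) := by
    have hf : ∀ z : E → Fin 3, chi (L z) = (if L z = 0 then 1 else 0) + (if L z = 1 then 1 else 0) * om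
        + (if L z = 2 then 1 else 0) * (om * om) := by
      intro z
      have : ∀ a : Fin 3, a = 0 ∨ a = 1 ∨ a = 2 := by decide
      rcases this (L z) with h | h | h <;> rw [h] <;> simp [chi]
    simp only [hf, sum_add_distrib, ← sum_mul, card_filter]
    push_cast
    rfl
  rw [hF0] at hcount
  obtain ⟨q1, q2⟩ := om_indep _ _ _ hcount.symm
  have hcard : T0.card = (T0.filter (fun z => L z = 0)).card + (T0.filter (fun z => L z = 1)).card
      + (T0.filter (fun z => L z = 2)).card := by
    simp only [card_filter]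
    rw [← sum_add_distrib, ← sum_add_distrib, card_eq_sum_ones]
    apply sum_congr rfl
    intro z _
    have : ∀ a : Fin 3, 1 = (if a = 0 then 1 else 0) + (if a = 1 then 1 else 0) + (if a = 2 then 1 else 0) := by
      decide
    exact this _
  apply h9
  rw [tait_card X e0]
  show 9 ∣ 3 * T0.card
  rw [hcard, ← q2, ← q1]
  exact ⟨(T0.filter (fun z => L z = 0)).card, by ring⟩

end Pool.Agent.GRZ
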