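import Pool.Agent.GRZ.Ident

set_option autoImplicit false

namespace Pool.Agent.GRZ

open Finset

variable {V D E : Type} [Fintype V] [DecidableEq V] [Fintype D] [DecidableEq D] [Fintype E] [DecidableEq E]

theorem quad_sum (O : Fin 3 → Fin 3 → ℝ)
    (hrow : ∀ x y, ∑ a, O x a * O y a = if x = y then 1 else 0) (t : Fin 3 → ℝ) (y z : Fin 3) :
    ∑ a, ∑ b, (∑ x, t x * (O x a * O x b)) * (O y a * O z b) = if y = z then t y else 0 := by
  have h1 : ∑ a, ∑ b, (∑ x, t x * (O x a * O x b)) * (O y a * O z b)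
      = ∑ x, t x * ((∑ a, O x a * O y a) * (∑ b, O x b * O z b)) := by
    simp only [Fin.sum_univ_three]
    ring
  rw [h1]
  simp only [hrow]
  by_cases h : y = z
  · subst h
    rw [if_pos rfl, sum_eq_single y]
    · simp
    · intro b _ hb; simp [hb]
    · simp
  · rw [if_neg h]
    apply sum_eq_zero
    intro x _
    by_cases h1 : x = y
    · have : ¬ x = z := fun h2 => h (h1.symm.trans h2)
      simp [this]
    · simp [h1]

/-- **The identity** for an orthogonal table `O` and eigenvalues `t`. -/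
theorem identity (X : DG V D E) (hX : X.Sub) (O : Fin 3 → Fin 3 → ℝ)
    (hrow : ∀ x y, ∑ a, O x a * O y a = if x = y then 1 else 0)
    (t : Fin 3 → ℝ) (M : E → Prop) [DecidablePred M] (φ : E → Fin 3) [DecidablePred X.Tait] :
    (∏ v, if X.deg v = 3 then det3 O else 1) *
      ∑ x ∈ univ.filter (fun x : E → Fin 3 => X.Tait x ∧ ∀ e, M e → x e = φ e),
        ((X.sgn x : ℤ) : ℝ) * X.wt (fun _ => t) x
    = ∑ c : D → Fin 3, (∏ v, X.tau (fun _ a b c => ((eps a b c : ℤ) : ℝ))
        (fun _ a b => ∑ x, t x * (O x a * O x b)) c v) *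
        ∏ e, ∑ x, (if M e then (if x = φ e then 1 else 0) else 1) *
          (O x (c (X.pe e)) * O x (c (X.inv (X.pe e)))) := by
  have h1 := net X hX (fun _ a b c => ((eps a b c : ℤ) : ℝ)) (fun _ a b => ∑ x, t x * (O x a * O x b))
    (fun _ => O) (fun e x => if M e then (if x = φ e then 1 else 0) else 1)
  rw [← h1]
  have h2 := sum_tait X hX M φ (fun _ => t) (fun _ => det3 O) (fun _ => (1 : ℝ))
  simp only [ite_self, prod_const_one, one_mul] at h2
  rw [← h2]
  apply sum_congr rfl
  intro x _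
  congr 1
  apply prod_congr rfl
  intro v _
  rcases hX v with h | h
  · have h3 : ¬ X.deg v = 3 := by omega
    simp only [h3, if_false]
    rw [quad_sum O hrow]
  · simp only [h, if_true]
    rw [eps_sum]

theorem core_real (X : DG V D E) (hX : X.Sub) (O : Fin 3 → Fin 3 → ℝ)
    (hcol : ∀ a b, ∑ x, O x a * O x b = if a = b then 1 else 0)
    (hrow : ∀ x y, ∑ a, O x a * O y a = if x = y then 1 else 0)
    (hdet : det3 O ≠ 0) (t : Fin 3 → ℝ) (hT : ∀ a, ∑ x, t x * (O x a * O x a) = 0)
    (M : E → Prop) [DecidablePred M] (φ : E → Fin 3) [DecidablePred X.Tait]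
    (hne : ∑ x ∈ univ.filter (fun x : E → Fin 3 => X.Tait x ∧ ∀ e, M e → x e = φ e),
      ((X.sgn x : ℤ) : ℝ) * X.wt (fun _ => t) x ≠ 0) :
    ∃ c, X.Good M c := by
  by_contra hno
  push Not at hno
  have h := identity X hX O hrow t M φ
  have h0 : ∑ c : D → Fin 3, (∏ v, X.tau (fun _ a b c => ((eps a b c : ℤ) : ℝ))
        (fun _ a b => ∑ x, t x * (O x a * O x b)) c v) *
        ∏ e, ∑ x, (if M e then (if x = φ e then 1 else 0) else 1) *
          (O x (c (X.pe e)) * O x (c (X.inv (X.pe e)))) = 0 := by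
    apply sum_eq_zero
    intro c _
    exact term_zero X M (fun _ a b => ∑ x, t x * (O x a * O x b)) (fun _ a => hT a)
      (fun e a b => ∑ x, (if M e then (if x = φ e then 1 else 0) else 1) * (O x a * O x b))
      (by
        intro e he a b hab
        simp only [if_neg he, one_mul]
        rw [hcol, if_neg hab]) c (hno c)
  rw [h0] at h
  rcases mul_eq_zero.1 h with h2 | h2
  · rw [prod_eq_zero_iff] at h2
    obtain ⟨v, _, hv⟩ := h2
    by_cases h3 : X.deg v = 3
    · rw [if_pos h3] at hv; exact hdet hv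
    · rw [if_neg h3] at hv; exact one_ne_zero hv
  · exact hne h2

end Pool.Agent.GRZ
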