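import Mathlib

set_option autoImplicit false

namespace Pool.Agent.GRZ

open Finset

/-- A finite graph given by its darts: `src` is the tail of a dart, `ed` its edge, `inv` the opposite
dart, `rot` a rotation at every vertex (a cyclic order of the darts with the same tail); `pe` picks a dart
of every edge and `base` a dart at every vertex. -/
structure DG (V D E : Type) where
  src : D → V
  ed : D → E
  inv : D → D
  rot : Equiv.Perm D
  pe : E → D
  base : V → D
  inv_inv : ∀ d, inv (inv d) = d
  inv_ne : ∀ d, inv d ≠ d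
  ed_eq : ∀ d d', ed d = ed d' ↔ (d' = d ∨ d' = inv d)
  ed_pe : ∀ e, ed (pe e) = e
  src_base : ∀ v, src (base v) = v
  src_rot : ∀ d, src (rot d) = src d
  rot_trans : ∀ d d', src d = src d' → rot.SameCycle d d'

variable {V D E : Type}

/-- The number of darts at `v`. -/
def DG.deg (X : DG V D E) [Fintype D] [DecidableEq V] (v : V) : ℕ :=
  (univ.filter (fun d => X.src d = v)).card

/-- second and third dart at a vertex -/
def DG.b1 (X : DG V D E) (v : V) : D := X.rot (X.base v)
def DG.b2 (X : DG V D E) (v : V) : D := X.rot (X.rot (X.base v))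

/-- The sign of a triple of colours: `1` for the even permutations of the three colours, `-1` for the odd
ones, `0` otherwise. -/
def eps (a b c : Fin 3) : ℤ :=
  if a = b ∨ b = c ∨ a = c then 0 else if b = a + 1 then 1 else -1

/-- straight colourings: three colours at a vertex of degree 3, one colour at a vertex of degree 2 -/
def DG.Tait (X : DG V D E) [Fintype D] [DecidableEq V] (h : E → Fin 3) : Prop :=
  (∀ v, X.deg v = 3 → eps (h (X.ed (X.base v))) (h (X.ed (X.b1 v))) (h (X.ed (X.b2 v))) ≠ 0) ∧
  (∀ v, X.deg v = 2 → h (X.ed (X.base v)) = h (X.ed (X.b1 v)))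

/-- the sign of a colouring -/
noncomputable def DG.sgn (X : DG V D E) [Fintype V] [Fintype D] [DecidableEq V] (h : E → Fin 3) : ℤ :=
  ∏ v, if X.deg v = 3 then eps (h (X.ed (X.base v))) (h (X.ed (X.b1 v))) (h (X.ed (X.b2 v))) else 1

/-- the face permutation -/
def DG.face (X : DG V D E) : Equiv.Perm D :=
  (Function.Involutive.toPerm X.inv X.inv_inv).trans X.rot

/-- Euler's formula for the sphere -/
def DG.Euler (X : DG V D E) [Fintype V] [Fintype E] : Prop :=
  Fintype.card V + Nat.card (Quotient (Equiv.Perm.SameCycle.setoid X.face)) = Fintype.card E + 2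

/-- connectedness: a function on darts that is invariant under `rot` and `inv` is constant -/
def DG.Conn (X : DG V D E) : Prop :=
  ∀ f : D → ZMod 2, (∀ d, f (X.rot d) = f d) → (∀ d, f (X.inv d) = f d) → ∀ d d', f d = f d'

/-- all degrees are 2 or 3 -/
def DG.Sub (X : DG V D E) [Fintype D] [DecidableEq V] : Prop :=
  ∀ v, X.deg v = 2 ∨ X.deg v = 3

/-- a colouring of the darts that is a proper edge colouring after deleting the edges of `M` -/
def DG.Good (X : DG V D E) [Fintype D] [DecidableEq V] (M : E → Prop) (c : D → Fin 3) : Prop :=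
  (∀ e, ¬ M e → c (X.pe e) = c (X.inv (X.pe e))) ∧
  (∀ v, X.deg v = 3 → eps (c (X.base v)) (c (X.b1 v)) (c (X.b2 v)) ≠ 0) ∧
  (∀ v, X.deg v = 2 → c (X.base v) ≠ c (X.b1 v))

end Pool.Agent.GRZ
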