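import Pool.Agent.GRZ.Net

set_option autoImplicit false

namespace Pool.Agent.GRZ

open Finset

variable {R : Type} [CommRing R]

/-- the determinant of a 3 by 3 table -/
def det3 (O : Fin 3 → Fin 3 → R) : R :=
  O 0 0 * (O 1 1 * O 2 2 - O 1 2 * O 2 1) - O 0 1 * (O 1 0 * O 2 2 - O 1 2 * O 2 0)
    + O 0 2 * (O 1 0 * O 2 1 - O 1 1 * O 2 0)

theorem eps_sum (O : Fin 3 → Fin 3 → R) (x y z : Fin 3) :
    ∑ a, ∑ b, ∑ c, ((eps a b c : ℤ) : R) * (O x a * O y b * O z c) = det3 O * ((eps x y z : ℤ) : R) := by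
  have h : ∀ a b c : Fin 3, eps a b c = if a = b ∨ b = c ∨ a = c then 0 else if b = a + 1 then 1 else -1 :=
    fun _ _ _ => rfl
  have e : ∀ F : Fin 3 → Fin 3 → Fin 3 → R, ∑ a, ∑ b, ∑ c, ((eps a b c : ℤ) : R) * F a b c =
      F 0 1 2 - F 0 2 1 + F 1 2 0 - F 1 0 2 + F 2 0 1 - F 2 1 0 := by
    intro F
    simp [Fin.sum_univ_three, eps]
    ring
  rw [e]
  unfold det3
  fin_cases x <;> fin_cases y <;> fin_cases z <;> simp [eps] <;> ring

theorem eps_cyc (a b c : Fin 3) : eps a b c = eps b c a := by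
  revert a b c; decide

theorem eps_ne (a b c : Fin 3) : eps a b c ≠ 0 ↔ a ≠ b ∧ b ≠ c ∧ a ≠ c := by
  revert a b c; decide

theorem eps_shift (a b c j : Fin 3) : eps (a + j) (b + j) (c + j) = eps a b c := by
  revert a b c j; decide

theorem eps_neg (a b c : Fin 3) : eps (-a) (-b) (-c) = - eps a b c := by
  revert a b c; decide

theorem eps_sq (a b c : Fin 3) (h : eps a b c ≠ 0) : eps a b c * eps a b c = 1 := by
  revert a b c; decide

theorem eps_pm (a b c : Fin 3) (h : eps a b c ≠ 0) : eps a b c = 1 ∨ eps a b c = -1 := by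
  revert a b c; decide

end Pool.Agent.GRZ
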