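import Pool.Agent.GRZ.Graph

set_option autoImplicit false

namespace Pool.Agent.GRZ

open Finset

variable {V : Type} [Fintype V] [DecidableEq V] (G : SimpleGraph V) [DecidableRel G.Adj]
variable (hdeg : ∀ v, G.degree v = 2 ∨ G.degree v = 3) (rot : Equiv.Perm G.Dart)

section

variable (hrot : IsRot G rot)

theorem colCount_eq (h : G.edgeSet → Fin 3) (hs : Straight G h) (i : Fin 3) :
    colCount G h i = (univ.filter (fun v : V => G.degree v = 2 ∧
      h ((mkDG G hdeg rot hrot).ed ((mkDG G hdeg rot hrot).base v)) = i)).card := by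
  unfold colCount
  congr 1
  apply filter_congr
  intro v _
  have s0 := (mkDG G hdeg rot hrot).src_base v
  constructor
  · rintro ⟨h2, h3⟩
    exact ⟨h2, h3 _ ((mem_edge_iff G hdeg rot hrot v _).2 ⟨_, s0, rfl⟩)⟩
  · rintro ⟨h2, h3⟩
    refine ⟨h2, fun e he => ?_⟩
    rw [← h3]
    exact (hs v _ _ he ((mem_edge_iff G hdeg rot hrot v _).2 ⟨_, s0, rfl⟩)).1 h2

theorem wt_eq {R : Type} [CommRing R] (t : Fin 3 → R) (h : G.edgeSet → Fin 3) (hs : Straight G h) :
    (mkDG G hdeg rot hrot).wt (fun _ => t) h = ∏ i, t i ^ colCount G h i := by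
  simp only [colCount_eq G hdeg rot hrot h hs]
  simp only [← prod_const, prod_filter]
  rw [prod_comm]
  unfold DG.wt
  apply prod_congr rfl
  intro v _
  rw [deg_mk]
  by_cases h2 : G.degree v = 2
  · simp only [h2, true_and, if_true]
    rw [Finset.prod_ite_eq]
    simp
  · simp [h2]

theorem numTwo_eq : (mkDG G hdeg rot hrot).k2 = numTwo G := by
  unfold DG.k2 numTwo
  simp only [deg_mk]

end

variable (hrot : IsPlane G rot)

include hdeg hrot in
theorem main_ring (hc : G.Connected) (M : Set (Sym2 V)) (φ : G.edgeSet → Fin 3)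
    {R : Type} [CommRing R] (t : Fin 3 → R) (ht : t 0 + t 1 + t 2 = 0)
    (hne : ∑ h ∈ straightOn G M φ, ∏ i, t i ^ colCount G h i ≠ 0) : Col3 (G.deleteEdges M) := by
  classical
  let X := mkDG G hdeg rot hrot.isRot
  obtain ⟨c, hcg⟩ := planar_ring X (sub_mk G hdeg rot hrot.isRot) (euler_mk G hdeg rot hrot)
    (conn_mk G hdeg rot hrot.isRot hc) (fun e => (e : Sym2 V) ∈ M) φ t ht (by
      intro h0
      apply hne
      rw [← h0]
      unfold straightOn
      refine Finset.sum_congr ?_ ?_
      · apply Finset.filter_congr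
        intro h _
        rw [straight_iff G hdeg rot hrot.isRot]
      · intro h hh
        rw [mem_filter] at hh
        exact (wt_eq G hdeg rot hrot.isRot t h ((straight_iff G hdeg rot hrot.isRot h).2 hh.2.1)).symm)
  exact col_of_good G hdeg rot hrot.isRot M c hcg

include hdeg hrot in
theorem main_mod9 (hc : G.Connected) (h9 : ¬ 9 ∣ (straight G).card) (hk : numTwo G % 3 ≠ 1) : Col3 G := by
  classical
  let X := mkDG G hdeg rot hrot.isRot
  obtain ⟨v⟩ := hc.nonempty
  have hcard : (straight G).card = (univ.filter (fun x : G.edgeSet → Fin 3 => X.Tait x)).card := by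
    unfold straight
    congr 1
    apply filter_congr
    intro h _
    exact straight_iff G hdeg rot hrot.isRot h
  obtain ⟨c, hcg⟩ := mod9 X (sub_mk G hdeg rot hrot.isRot) (euler_mk G hdeg rot hrot)
    (conn_mk G hdeg rot hrot.isRot hc) (X.ed (X.base v)) (by rw [← hcard]; exact h9)
    (by rw [numTwo_eq]; exact hk)
  have h1 := col_of_good G hdeg rot hrot.isRot ∅ c (by simpa using hcg)
  rwa [SimpleGraph.deleteEdges_empty] at h1

include hdeg hrot in
theorem main_del (hc : G.Connected) (h9 : ¬ 9 ∣ (straight G).card) (e : Sym2 V) (he : e ∈ G.edgeSet) :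
    Col3 (G.deleteEdges {e}) := by
  classical
  let X := mkDG G hdeg rot hrot.isRot
  have hcard : (straight G).card = (univ.filter (fun x : G.edgeSet → Fin 3 => X.Tait x)).card := by
    unfold straight
    congr 1
    apply filter_congr
    intro h _
    exact straight_iff G hdeg rot hrot.isRot h
  obtain ⟨c, hcg⟩ := del_edge X (sub_mk G hdeg rot hrot.isRot) (euler_mk G hdeg rot hrot)
    (conn_mk G hdeg rot hrot.isRot hc) (by rw [← hcard]; exact h9) ⟨e, he⟩
  apply col_of_good G hdeg rot hrot.isRot {e} c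
  have : (fun e' : G.edgeSet => (e' : Sym2 V) ∈ ({e} : Set (Sym2 V))) = (fun e' => e' = ⟨e, he⟩) := by
    funext e'
    simp [Subtype.ext_iff]
  rw [this]
  exact hcg

end Pool.Agent.GRZ
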