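import Pool.Agent.GRZ.Final
import Pool.Agent.GRZ.BipMain

set_option autoImplicit false

namespace Pool.Agent.GRZ

open Finset

variable {V : Type} [Fintype V] [DecidableEq V] (G : SimpleGraph V) [DecidableRel G.Adj]
variable (hdeg : ∀ v, G.degree v = 2 ∨ G.degree v = 3) (rot : Equiv.Perm G.Dart) (hrot : IsPlane G rot)

include hdeg hrot in
theorem main_bip (hc : G.Connected) (hb : BipartiteSkeleton G) (h9 : ¬ 9 ∣ (straight G).card)
    (hk : numTwo G ≠ 1) : Col3 G := by
  classical
  let X := mkDG G hdeg rot hrot.isRot
  obtain ⟨o, hinv, ho⟩ := hb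
  obtain ⟨v⟩ := hc.nonempty
  have hcard : (straight G).card = (univ.filter (fun x : G.edgeSet → Fin 3 => X.Tait x)).card := by
    unfold straight
    congr 1
    apply filter_congr
    intro h _
    exact straight_iff G hdeg rot hrot.isRot h
  obtain ⟨c, hcg⟩ := bip_main X (sub_mk G hdeg rot hrot.isRot) (euler_mk G hdeg rot hrot)
    (conn_mk G hdeg rot hrot.isRot hc) o hinv (by
      intro v hv
      obtain ⟨n1, n2, n3⟩ := deg3_ne X v hv
      have s0 := X.src_base v
      have s1 := src_b1 X v
      have s2 := src_b2 X v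
      have hv' : G.degree v = 3 := by rw [← deg_mk G hdeg rot hrot.isRot]; exact hv
      have hv0 : G.degree (X.base v).fst = 3 := by
        have : (X.base v).fst = v := s0
        rw [this]; exact hv'
      exact ⟨((ho (X.base v) (X.b1 v) (s0.trans s1.symm) n1).1 hv0).symm,
        ((ho (X.base v) (X.b2 v) (s0.trans s2.symm) n2).1 hv0).symm⟩) (by
      intro v hv
      have n1 := deg2_ne X v hv
      have s0 := X.src_base v
      have s1 := src_b1 X v
      have hv' : G.degree v = 2 := by rw [← deg_mk G hdeg rot hrot.isRot]; exact hv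
      have hv0 : G.degree (X.base v).fst = 2 := by
        have : (X.base v).fst = v := s0
        rw [this]; exact hv'
      have := (ho (X.base v) (X.b1 v) (s0.trans s1.symm) n1).2 hv0
      cases h1 : o (X.base v) <;> cases h2 : o (X.b1 v) <;> simp_all) (X.ed (X.base v))
    (by rw [← hcard]; exact h9) (by rw [numTwo_eq]; exact hk)
  have h1 := col_of_good G hdeg rot hrot.isRot ∅ c (by simpa using hcg)
  rwa [SimpleGraph.deleteEdges_empty] at h1

end Pool.Agent.GRZ
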