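import Pool.Agent.GRZ.HamE

set_option autoImplicit false

namespace Pool.Agent.GRZ

open Finset

variable {V D E : Type} [Fintype V] [DecidableEq V] [Fintype D] [DecidableEq D] [Fintype E] [DecidableEq E]

/-- proper colourings of the edges -/
def DG.Prp (X : DG V D E) (x : E → Fin 3) : Prop :=
  (∀ v, X.deg v = 3 → eps (x (X.ed (X.base v))) (x (X.ed (X.b1 v))) (x (X.ed (X.b2 v))) ≠ 0) ∧
  (∀ v, X.deg v = 2 → x (X.ed (X.base v)) ≠ x (X.ed (X.b1 v)))

open scoped Classical in
theorem lhs_eq (X : DG V D E) (hX : X.Sub) :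
    ∑ x : E → Fin 3, (∏ v, (if X.deg v = 3 then
        eps (x (X.ed (X.base v))) (x (X.ed (X.b1 v))) (x (X.ed (X.b2 v)))
      else if x (X.ed (X.base v)) = x (X.ed (X.b1 v)) then jz (x (X.ed (X.base v))) else 0))
    = ∑ x ∈ univ.filter (fun x : E → Fin 3 => X.Tait x),
      X.sgn x * (∏ v ∈ univ.filter (fun v => X.deg v = 2), jz (x (X.ed (X.base v)))) := by
  rw [sum_filter]
  apply sum_congr rfl
  intro x _
  by_cases hx : X.Tait x
  · rw [if_pos hx, prod_filter]
    unfold DG.sgn
    rw [← prod_mul_distrib]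
    apply prod_congr rfl
    intro v _
    rcases hX v with h | h
    · have h3 : ¬ X.deg v = 3 := by omega
      rw [if_neg h3, if_neg h3, if_pos (hx.2 v h), if_pos h, one_mul]
    · have h3 : ¬ X.deg v = 2 := by omega
      rw [if_pos h, if_pos h, if_neg h3, mul_one]
  · rw [if_neg hx]
    by_contra hne
    apply hx
    refine ⟨?_, ?_⟩
    · intro v hv h
      apply hne
      apply prod_eq_zero (mem_univ v)
      rw [if_pos hv, h]
    · intro v hv
      by_contra h
      apply hne
      apply prod_eq_zero (mem_univ v)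
      rw [if_neg (by omega), if_neg h]

open scoped Classical in
theorem rhs_eq (X : DG V D E) (hX : X.Sub) :
    ∑ x : E → Fin 3, (∏ v, (if X.deg v = 3 then
        eps (x (X.ed (X.base v))) (x (X.ed (X.b1 v))) (x (X.ed (X.b2 v)))
      else if x (X.ed (X.base v)) = x (X.ed (X.b1 v)) then 0 else 1))
    = ∑ x ∈ univ.filter (fun x : E → Fin 3 => X.Prp x), X.sgn x := by
  rw [sum_filter]
  apply sum_congr rfl
  intro x _
  by_cases hx : X.Prp x
  · rw [if_pos hx]
    unfold DG.sgn
    apply prod_congr rfl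
    intro v _
    rcases hX v with h | h
    · have h3 : ¬ X.deg v = 3 := by omega
      rw [if_neg h3, if_neg h3, if_neg (hx.2 v h)]
    · rw [if_pos h, if_pos h]
  · rw [if_neg hx]
    by_contra hne
    apply hx
    refine ⟨?_, ?_⟩
    · intro v hv h
      apply hne
      apply prod_eq_zero (mem_univ v)
      rw [if_pos hv, h]
    · intro v hv h
      apply hne
      apply prod_eq_zero (mem_univ v)
      rw [if_neg (by omega), if_pos h]

theorem sgn_neg' (X : DG V D E) (hX : X.Sub) (x : E → Fin 3) : X.sgn (-x) = X.sgn x := by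
  unfold DG.sgn
  have h1 : ∀ v, (if X.deg v = 3 then eps ((-x) (X.ed (X.base v))) ((-x) (X.ed (X.b1 v)))
      ((-x) (X.ed (X.b2 v))) else 1)
      = (if X.deg v = 3 then (-1 : ℤ) else 1) * (if X.deg v = 3 then eps (x (X.ed (X.base v)))
        (x (X.ed (X.b1 v))) (x (X.ed (X.b2 v))) else 1) := by
    intro v
    by_cases hv : X.deg v = 3
    · simp only [if_pos hv, Pi.neg_apply]
      rw [eps_neg]; ring
    · simp only [if_neg hv, one_mul]
  simp only [h1, prod_mul_distrib]
  rw [← prod_filter, prod_const, (even_cubic X hX).neg_one_pow, one_mul]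

theorem prp_unit (X : DG V D E) (x : E → Fin 3) (hx : X.Prp x) : X.sgn x = 1 ∨ X.sgn x = -1 := by
  unfold DG.sgn
  apply prod_pm
  intro v _
  by_cases hv : X.deg v = 3
  · rw [if_pos hv]; exact eps_pm _ _ _ (hx.1 v hv)
  · rw [if_neg hv]; left; rfl

open scoped Classical in
theorem prp_mod4 (X : DG V D E) (hX : X.Sub) [Nonempty V] :
    (4 : ℤ) ∣ ∑ x ∈ univ.filter (fun x : E → Fin 3 => X.Prp x), X.sgn x
      - ((univ.filter (fun x : E → Fin 3 => X.Prp x)).card : ℤ) := by
  have h1 : ∑ x ∈ univ.filter (fun x : E → Fin 3 => X.Prp x), X.sgn x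
      - ((univ.filter (fun x : E → Fin 3 => X.Prp x)).card : ℤ)
      = ∑ x ∈ univ.filter (fun x : E → Fin 3 => X.Prp x), (if X.sgn x = -1 then -2 else 0) := by
    rw [card_eq_sum_ones]
    push_cast
    rw [← sum_sub_distrib]
    apply sum_congr rfl
    intro x hx
    rw [mem_filter] at hx
    rcases prp_unit X x hx.2 with h | h <;> rw [h] <;> norm_num
  rw [h1, ← sum_filter, filter_filter, sum_const]
  have h2 : Even (univ.filter (fun x : E → Fin 3 => X.Prp x ∧ X.sgn x = -1)).card := by
    apply even_card_of_inv _ (fun x => -x)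
    · intro x hx
      rw [mem_filter] at hx ⊢
      obtain ⟨_, hp, hs⟩ := hx
      refine ⟨mem_univ _, ⟨?_, ?_⟩, ?_⟩
      · intro v hv
        simp only [Pi.neg_apply]
        rw [eps_neg]
        exact neg_ne_zero.2 (hp.1 v hv)
      · intro v hv h
        simp only [Pi.neg_apply] at h
        exact hp.2 v hv (neg_injective h)
      · rw [sgn_neg' X hX]; exact hs
    · intro x _; exact neg_neg x
    · intro x hx hn
      rw [mem_filter] at hx
      obtain ⟨_, hp, _⟩ := hx
      have h0 : ∀ e, x e = 0 := by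
        intro e
        by_contra h
        exact neg_ne_self3 _ h (congrFun hn e)
      obtain ⟨v⟩ := (inferInstance : Nonempty V)
      rcases hX v with h | h
      · exact hp.2 v h (by rw [h0, h0])
      · have := hp.1 v h
        rw [h0, h0, h0] at this
        exact absurd rfl this
  obtain ⟨m, hm⟩ := h2
  rw [hm]
  exact ⟨-m, by simp; ring⟩

open scoped Classical in
/-- **The congruence**: the number of proper 3-edge-colourings is congruent modulo 4 to twice the number
of Hamiltonian cycles. -/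
theorem count_mod4 (X : DG V D E) (hX : X.Sub) (hloop : ∀ d, X.src (X.inv d) ≠ X.src d) [Nonempty V] :
    (4 : ℤ) ∣ ((univ.filter (fun x : E → Fin 3 => X.Prp x)).card : ℤ)
      - 2 * ((univ.filter (fun F : Finset E => X.HamF F)).card : ℤ) := by
  have hid := full_identity X hX
  rw [lhs_eq X hX, rhs_eq X hX] at hid
  have hd : (4 : ℤ) ∣ ∑ x ∈ univ.filter (fun x : E → Fin 3 => X.Tait x),
      (X.sgn x * (∏ v ∈ univ.filter (fun v => X.deg v = 2), jz (x (X.ed (X.base v)))) -
      ((if X.k0 x = 0 then (-1) ^ X.k2 * X.sgn x else 0) + (if X.k0 x = 1 then 2 else 0))) := by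
    apply dvd_sum
    intro x hx
    rw [mem_filter] at hx
    exact term_mod X x hx.2
  rw [sum_sub_distrib, hid, sum_add_distrib, ← sum_filter, ← sum_filter,
    filter_filter, filter_filter, ← mul_sum] at hd
  have hY1 := even_Y1 X hX hloop
  have hY0 := sum_Y0 X hX
  have hP := prp_mod4 X hX
  obtain ⟨m, hm⟩ := hY1
  rw [sum_const, hm] at hd
  generalize ∑ x ∈ univ.filter (fun x : E → Fin 3 => X.Prp x), X.sgn x = A at *
  generalize ∑ x ∈ univ.filter (fun x : E → Fin 3 => X.Tait x ∧ X.k0 x = 0), X.sgn x = B at *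
  generalize ((univ.filter (fun x : E → Fin 3 => X.Prp x)).card : ℤ) = P at *
  generalize ((univ.filter (fun F : Finset E => X.HamF F)).card : ℤ) = H at *
  have h3 : (m + m) • (2 : ℤ) = 4 * m := by simp; ring
  rw [h3] at hd
  obtain ⟨a, ha⟩ := hd
  obtain ⟨b, hb⟩ := hY0
  obtain ⟨c, hc⟩ := hP
  rcases neg_one_pow_eq_or ℤ X.k2 with p | p <;> rw [p] at ha
  · exact ⟨a + b - c + m, by linarith⟩
  · exact ⟨a - b - c + m - H, by linarith⟩

end Pool.Agent.GRZ
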