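import Pool.Agent.GRZ.FinalH
import Pool.Agent.GRZ.HamF

set_option autoImplicit false

namespace Pool.Agent.GRZ

open Finset

variable {V : Type} [Fintype V] [DecidableEq V] (G : SimpleGraph V) [DecidableRel G.Adj]

/-- A proper 3-edge-colouring of `G`: two different edges with a common vertex have different colours. -/
def Proper3 {V : Type} (G : SimpleGraph V) (c : G.edgeSet → Fin 3) : Prop :=
  ∀ e f : G.edgeSet, e ≠ f → (∃ v : V, v ∈ (e : Sym2 V) ∧ v ∈ (f : Sym2 V)) → c e ≠ c f

variable (hdeg : ∀ v, G.degree v = 2 ∨ G.degree v = 3) (rot : Equiv.Perm G.Dart) (hrot : IsRot G rot)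

theorem prp_iff (x : G.edgeSet → Fin 3) : Proper3 G x ↔ (mkDG G hdeg rot hrot).Prp x := by
  constructor
  · intro hp
    have key : ∀ d d' : G.Dart, d.fst = d'.fst → d ≠ d' →
        x ((mkDG G hdeg rot hrot).ed d) ≠ x ((mkDG G hdeg rot hrot).ed d') := by
      intro d d' h hne
      apply hp
      · intro he
        exact hne (ed_inj G hdeg rot hrot d d' h he)
      · exact ⟨d.fst, (mem_edge_iff G hdeg rot hrot _ _).2 ⟨d, rfl, rfl⟩,
          (mem_edge_iff G hdeg rot hrot _ _).2 ⟨d', h.symm, rfl⟩⟩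
    refine ⟨?_, ?_⟩
    · intro v hv
      obtain ⟨n1, n2, n3⟩ := deg3_ne (mkDG G hdeg rot hrot) v hv
      have s0 := (mkDG G hdeg rot hrot).src_base v
      have s1 := src_b1 (mkDG G hdeg rot hrot) v
      have s2 := src_b2 (mkDG G hdeg rot hrot) v
      rw [eps_ne]
      exact ⟨key _ _ (s0.trans s1.symm) n1, key _ _ (s1.trans s2.symm) n3, key _ _ (s0.trans s2.symm) n2⟩
    · intro v hv
      have n1 := deg2_ne (mkDG G hdeg rot hrot) v hv
      have s0 := (mkDG G hdeg rot hrot).src_base v
      have s1 := src_b1 (mkDG G hdeg rot hrot) v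
      exact key _ _ (s0.trans s1.symm) n1
  · intro hp e f hne hv
    obtain ⟨v, he, hf⟩ := hv
    obtain ⟨d, hd, rfl⟩ := (mem_edge_iff G hdeg rot hrot v e).1 he
    obtain ⟨d', hd', rfl⟩ := (mem_edge_iff G hdeg rot hrot v f).1 hf
    rcases sub_mk G hdeg rot hrot v with h2 | h3
    · have h := hp.2 v h2
      rcases mem2 (mkDG G hdeg rot hrot) v h2 d hd with a | a <;>
        rcases mem2 (mkDG G hdeg rot hrot) v h2 d' hd' with b | b <;> rw [a, b]
      · exact absurd (by rw [a, b]) hne
      · exact h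
      · exact h.symm
      · exact absurd (by rw [a, b]) hne
    · have h := hp.1 v h3
      rw [eps_ne] at h
      obtain ⟨n1, n2, n3⟩ := h
      rcases mem3 (mkDG G hdeg rot hrot) v h3 d hd with a | a | a <;>
        rcases mem3 (mkDG G hdeg rot hrot) v h3 d' hd' with b | b | b <;> rw [a, b]
      · exact absurd (by rw [a, b]) hne
      · exact n1
      · exact n3
      · exact n1.symm
      · exact absurd (by rw [a, b]) hne
      · exact n2
      · exact n3.symm
      · exact n2.symm
      · exact absurd (by rw [a, b]) hne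

include hdeg in
theorem main_count [Nonempty V] : {c : G.edgeSet → Fin 3 | Proper3 G c}.ncard ≡ 2 * (hamCycles G).ncard [MOD 4] := by
  classical
  obtain ⟨rot, hrot⟩ := exists_rot G
  let X := mkDG G hdeg rot hrot
  have h := count_mod4 X (sub_mk G hdeg rot hrot) (by
    intro d h
    exact d.fst_ne_snd h.symm)
  rw [ham_card G hdeg rot hrot] at h
  have h1 : (univ.filter (fun x : G.edgeSet → Fin 3 => X.Prp x)).card
      = {c : G.edgeSet → Fin 3 | Proper3 G c}.ncard := by
    rw [← Set.ncard_coe_finset]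
    congr 1
    ext x
    rw [mem_coe, mem_filter, Set.mem_setOf_eq, prp_iff G hdeg rot hrot]
    exact ⟨fun h => h.2, fun h => ⟨mem_univ _, h⟩⟩
  rw [h1] at h
  have h2 : ((2 * (hamCycles G).ncard : ℕ) : ℤ) ≡ (({c : G.edgeSet → Fin 3 | Proper3 G c}.ncard : ℕ) : ℤ)
      [ZMOD ((4 : ℕ) : ℤ)] := by
    rw [Int.modEq_iff_dvd]
    push_cast
    exact h
  exact ((Int.natCast_modEq_iff).1 h2).symm

end Pool.Agent.GRZ
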