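import Pool.Agent.GRZ.HamC

set_option autoImplicit false

namespace Pool.Agent.GRZ

open Finset

variable {V D E : Type} [Fintype V] [DecidableEq V] [Fintype D] [DecidableEq D] [Fintype E] [DecidableEq E]

/-- the table `2, -1, -1` -/
def jz : Fin 3 → ℤ := fun i => if i = 0 then 2 else -1

theorem jt_cast (i : Fin 3) : jt i = ((jz i : ℤ) : ℝ) := by
  fin_cases i <;> simp [jt, jz]

theorem prod_jz {ι : Type} [DecidableEq ι] (s : Finset ι) (f : ι → Fin 3) :
    ∏ i ∈ s, jz (f i) = 2 ^ (s.filter (fun i => f i = 0)).card * (-1) ^ (s.filter (fun i => ¬ f i = 0)).card := by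
  unfold jz
  rw [prod_ite, prod_const, prod_const]

/-- number of degree-2 vertices of colour 0 -/
def DG.k0 (X : DG V D E) (x : E → Fin 3) : ℕ :=
  (univ.filter (fun v => X.deg v = 2 ∧ x (X.ed (X.base v)) = 0)).card

theorem sgn_unit (X : DG V D E) (x : E → Fin 3) (hx : X.Tait x) : X.sgn x = 1 ∨ X.sgn x = -1 := by
  unfold DG.sgn
  apply prod_pm
  intro v _
  exact sgn_pm X x hx v

theorem term_mod (X : DG V D E) (x : E → Fin 3) (hx : X.Tait x) :
    (4 : ℤ) ∣ X.sgn x * (∏ v ∈ univ.filter (fun v => X.deg v = 2), jz (x (X.ed (X.base v)))) -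
      ((if X.k0 x = 0 then (-1) ^ X.k2 * X.sgn x else 0) + (if X.k0 x = 1 then 2 else 0)) := by
  rw [prod_jz, filter_filter]
  have hk : (univ.filter (fun v => X.deg v = 2 ∧ x (X.ed (X.base v)) = 0)).card = X.k0 x := rfl
  rw [hk]
  rcases Nat.lt_or_ge (X.k0 x) 2 with h | h
  · interval_cases hq : X.k0 x
    · have hz : (univ.filter (fun v => X.deg v = 2)).filter (fun v => ¬ x (X.ed (X.base v)) = 0)
          = univ.filter (fun v => X.deg v = 2) := by
        apply filter_true_of_mem
        intro v hv hx0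
        rw [mem_filter] at hv
        have : v ∈ (univ.filter (fun v => X.deg v = 2 ∧ x (X.ed (X.base v)) = 0)) := by
          rw [mem_filter]; exact ⟨mem_univ _, hv.2, hx0⟩
        rw [card_eq_zero.1 hk] at this
        exact absurd this (notMem_empty _)
      rw [hz]
      have : (univ.filter (fun v => X.deg v = 2)).card = X.k2 := rfl
      rw [this]
      refine ⟨0, ?_⟩
      simp
      ring
    · rcases sgn_unit X x hx with s | s <;> rw [s] <;>
        rcases neg_one_pow_eq_or ℤ ((univ.filter (fun v => X.deg v = 2)).filter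
          (fun v => ¬ x (X.ed (X.base v)) = 0)).card with p | p <;> rw [p]
      · exact ⟨0, by norm_num⟩
      · exact ⟨-1, by norm_num⟩
      · exact ⟨-1, by norm_num⟩
      · exact ⟨0, by norm_num⟩
  · rw [if_neg (by omega : ¬ X.k0 x = 0), if_neg (by omega : ¬ X.k0 x = 1), add_zero, sub_zero]
    have : (4 : ℤ) ∣ 2 ^ X.k0 x := by
      have h4 : (4 : ℤ) = 2 ^ 2 := by norm_num
      rw [h4]
      exact pow_dvd_pow 2 h
    exact Dvd.dvd.mul_left (Dvd.dvd.mul_right this _) _

theorem even_Y1 (X : DG V D E) (hX : X.Sub) (hloop : ∀ d, X.src (X.inv d) ≠ X.src d) [Nonempty V]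
    [DecidablePred X.Tait] : Even (univ.filter (fun x : E → Fin 3 => X.Tait x ∧ X.k0 x = 1)).card := by
  apply even_card_of_inv _ (fun x => - x)
  · intro x hx
    rw [mem_filter] at hx ⊢
    obtain ⟨_, hT, hk⟩ := hx
    refine ⟨mem_univ _, ⟨?_, ?_⟩, ?_⟩
    · intro v hv
      simp only [Pi.neg_apply]
      rw [eps_neg]
      exact neg_ne_zero.2 (hT.1 v hv)
    · intro v hv
      simp only [Pi.neg_apply]
      rw [hT.2 v hv]
    · rw [← hk]
      unfold DG.k0
      simp only [Pi.neg_apply, neg_eq_zero]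
  · intro x _
    exact neg_neg x
  · intro x hx hn
    rw [mem_filter] at hx
    obtain ⟨_, hT, hk⟩ := hx
    have h0 : ∀ e, x e = 0 := by
      intro e
      by_contra h
      exact neg_ne_self3 _ h (congrFun hn e)
    have h2 : ∀ v, X.deg v = 2 := by
      intro v
      rcases hX v with h | h
      · exact h
      · have := hT.1 v h
        rw [h0, h0, h0] at this
        exact absurd rfl this
    obtain ⟨v⟩ := (inferInstance : Nonempty V)
    unfold DG.k0 at hk
    rw [card_eq_one] at hk
    obtain ⟨w, hw⟩ := hk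
    have hm : ∀ u, u = w := by
      intro u
      have : u ∈ (univ.filter (fun v => X.deg v = 2 ∧ x (X.ed (X.base v)) = 0)) := by
        rw [mem_filter]; exact ⟨mem_univ _, h2 u, h0 _⟩
      rw [hw, mem_singleton] at this
      exact this
    exact hloop (X.base v) ((hm _).trans (hm _).symm)

open scoped Classical in
theorem sum_Y0 (X : DG V D E) (hX : X.Sub) [Nonempty V] :
    (4 : ℤ) ∣ ∑ x ∈ univ.filter (fun x : E → Fin 3 => X.Tait x ∧ X.k0 x = 0), X.sgn x
      - 2 * ((univ.filter (fun F : Finset E => X.HamF F)).card : ℤ) := by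
  have h1 : ∑ x ∈ univ.filter (fun x : E → Fin 3 => X.Tait x ∧ X.k0 x = 0), X.sgn x
      = ∑ F : Finset E, ∑ h ∈ X.YS F (fun _ => True), X.sgn h := by
    rw [← sum_fiberwise _ (fun x : E → Fin 3 => univ.filter (fun e => x e ≠ 0))]
    apply sum_congr rfl
    intro F _
    apply sum_congr _ (fun _ _ => rfl)
    ext x
    rw [mem_YS]
    simp only [mem_filter, mem_univ, true_and, and_true]
    unfold DG.YF
    constructor
    · rintro ⟨⟨hT, hk⟩, hF⟩
      refine ⟨hT, ?_, ?_⟩
      · intro v hv h0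
        unfold DG.k0 at hk
        rw [card_eq_zero] at hk
        have : v ∈ (univ.filter (fun v => X.deg v = 2 ∧ x (X.ed (X.base v)) = 0)) := by
          rw [mem_filter]; exact ⟨mem_univ _, hv, h0⟩
        rw [hk] at this
        exact absurd this (notMem_empty _)
      · intro e
        rw [← hF, mem_filter]
        simp
    · rintro ⟨hT, hz, hs⟩
      refine ⟨⟨hT, ?_⟩, ?_⟩
      · unfold DG.k0
        rw [card_eq_zero, filter_eq_empty_iff]
        rintro v _ ⟨a, b⟩
        exact hz v a b
      · ext e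
        rw [mem_filter, ← hs e]
        simp
  have h2 : (2 : ℤ) * ((univ.filter (fun F : Finset E => X.HamF F)).card : ℤ)
      = ∑ F : Finset E, 2 * (if X.HamF F then 1 else 0) := by
    rw [← mul_sum, card_filter]
    push_cast
    rfl
  rw [h1, h2, ← sum_sub_distrib]
  apply dvd_sum
  intro F _
  exact A_mod X hX F

open scoped Classical in
/-- an odd number of Hamiltonian cycles gives a proper 3-edge-colouring -/
theorem ham_main (X : DG V D E) (hX : X.Sub) (hloop : ∀ d, X.src (X.inv d) ≠ X.src d) [Nonempty V]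
    (hodd : Odd (univ.filter (fun F : Finset E => X.HamF F)).card) :
    ∃ c, X.Mixed (fun _ => True) (fun _ => False) c := by
  by_contra hno
  push Not at hno
  have hid := mix_identity X hX (fun _ => True) (fun _ => False) hno
  have hid2 : ∑ x ∈ univ.filter (fun x : E → Fin 3 => X.Tait x),
      X.sgn x * (∏ v ∈ univ.filter (fun v => X.deg v = 2), jz (x (X.ed (X.base v)))) = 0 := by
    have : ((∑ x ∈ univ.filter (fun x : E → Fin 3 => X.Tait x),
      X.sgn x * (∏ v ∈ univ.filter (fun v => X.deg v = 2), jz (x (X.ed (X.base v)))) : ℤ) : ℝ) = 0 := by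
      rw [← hid]
      push_cast
      apply sum_congr rfl
      intro x _
      simp only [and_true, filter_false, prod_empty, mul_one, jt_cast]
    exact_mod_cast this
  have hd : (4 : ℤ) ∣ ∑ x ∈ univ.filter (fun x : E → Fin 3 => X.Tait x),
      (X.sgn x * (∏ v ∈ univ.filter (fun v => X.deg v = 2), jz (x (X.ed (X.base v)))) -
      ((if X.k0 x = 0 then (-1) ^ X.k2 * X.sgn x else 0) + (if X.k0 x = 1 then 2 else 0))) := by
    apply dvd_sum
    intro x hx
    rw [mem_filter] at hx
    exact term_mod X x hx.2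
  rw [sum_sub_distrib, hid2, zero_sub, dvd_neg, sum_add_distrib, ← sum_filter, ← sum_filter,
    filter_filter, filter_filter, ← mul_sum] at hd
  have hY1 := even_Y1 X hX hloop
  have hY0 := sum_Y0 X hX
  obtain ⟨m, hm⟩ := hY1
  rw [sum_const, hm] at hd
  have h3 : (4 : ℤ) ∣ (m + m) • (2 : ℤ) := ⟨m, by simp; ring⟩
  have h4 : (4 : ℤ) ∣ (-1) ^ X.k2 * ∑ x ∈ univ.filter (fun x : E → Fin 3 => X.Tait x ∧ X.k0 x = 0), X.sgn x :=
    (Int.dvd_add_left h3).1 hd
  have h5 : (4 : ℤ) ∣ ∑ x ∈ univ.filter (fun x : E → Fin 3 => X.Tait x ∧ X.k0 x = 0), X.sgn x := by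
    rcases neg_one_pow_eq_or ℤ X.k2 with p | p <;> rw [p] at h4
    · rwa [one_mul] at h4
    · rwa [neg_one_mul, dvd_neg] at h4
  have h6 : (4 : ℤ) ∣ 2 * ((univ.filter (fun F : Finset E => X.HamF F)).card : ℤ) := by
    have := dvd_sub h5 hY0
    rwa [sub_sub_cancel] at this
  obtain ⟨q, hq⟩ := hodd
  rw [hq] at h6
  push_cast at h6
  omega

end Pool.Agent.GRZ
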