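import Pool.Agent.GRZ.Final
import Pool.Agent.GRZ.HamD

set_option autoImplicit false

namespace Pool.Agent.GRZ

open Finset

variable {V : Type} [Fintype V] [DecidableEq V] (G : SimpleGraph V) [DecidableRel G.Adj]

/-- The Hamiltonian cycles of `G`, as subgraphs: the connected graphs on the same vertices all of whose
edges are edges of `G` and in which every vertex has exactly two neighbours. -/
def hamCycles (G : SimpleGraph V) : Set (SimpleGraph V) :=
  {H | H ≤ G ∧ H.Connected ∧ ∀ v, (H.neighborSet v).ncard = 2}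

/-- every graph has a rotation system -/
theorem exists_rot : ∃ rot : Equiv.Perm G.Dart, IsRot G rot := by
  have h1 : ∀ v : V, ∃ f : Equiv.Perm G.Dart, f.IsCycleOn (univ.filter (fun d : G.Dart => d.fst = v) : Finset G.Dart) := by
    intro v
    obtain ⟨f, hf, _⟩ := Finset.exists_cycleOn (univ.filter (fun d : G.Dart => d.fst = v))
    exact ⟨f, hf⟩
  choose σ hσ using h1
  have hfib : ∀ v d, d.fst = v → (σ v d).fst = v := by
    intro v d hd
    have : σ v d ∈ ((univ.filter (fun d : G.Dart => d.fst = v) : Finset G.Dart) : Set G.Dart) :=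
      (hσ v).1.mapsTo (by simp [hd])
    simpa using this
  have hfibi : ∀ v d, d.fst = v → ((σ v).symm d).fst = v := by
    intro v d hd
    obtain ⟨x, hx, hxd⟩ := (hσ v).1.surjOn (show d ∈ _ by simp [hd])
    rw [← hxd, Equiv.symm_apply_apply]
    simpa using hx
  let rot : Equiv.Perm G.Dart :=
    { toFun := fun d => σ d.fst d
      invFun := fun d => (σ d.fst).symm d
      left_inv := by
        intro d
        show (σ (σ d.fst d).fst).symm (σ d.fst d) = d
        rw [hfib d.fst d rfl, Equiv.symm_apply_apply]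
      right_inv := by
        intro d
        show σ ((σ d.fst).symm d).fst ((σ d.fst).symm d) = d
        rw [hfibi d.fst d rfl, Equiv.apply_symm_apply] }
  have hrot : ∀ d, rot d = σ d.fst d := fun _ => rfl
  refine ⟨rot, fun d => hfib d.fst d rfl, ?_⟩
  intro d d' h
  obtain ⟨n, _, hn⟩ := (hσ d.fst).exists_pow_eq (show d ∈ _ by simp) (show d' ∈ _ by simp [h])
  have hpow : ∀ m : ℕ, (rot ^ m) d = (σ d.fst ^ m) d ∧ ((σ d.fst ^ m) d).fst = d.fst := by
    intro m
    induction m with
    | zero => exact ⟨rfl, rfl⟩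
    | succ m ih =>
      rw [pow_succ', pow_succ', Equiv.Perm.mul_apply, Equiv.Perm.mul_apply, ih.1]
      refine ⟨?_, hfib _ _ ih.2⟩
      rw [hrot, ih.2]
  exact ⟨n, by rw [zpow_natCast, (hpow n).1, hn]⟩

variable (hdeg : ∀ v, G.degree v = 2 ∨ G.degree v = 3) (rot : Equiv.Perm G.Dart) (hrot : IsRot G rot)

open scoped Classical in
/-- edges of a subgraph -/
noncomputable def edgesOf (H : SimpleGraph V) : Finset G.edgeSet :=
  univ.filter (fun e : G.edgeSet => (e : Sym2 V) ∈ H.edgeSet)

open scoped Classical in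
theorem mem_edgesOf (H : SimpleGraph V) (e : G.edgeSet) : e ∈ edgesOf G H ↔ (e : Sym2 V) ∈ H.edgeSet := by
  unfold edgesOf
  rw [mem_filter]
  exact ⟨fun h => h.2, fun h => ⟨mem_univ _, h⟩⟩

theorem dart_mem (H : SimpleGraph V) (d : G.Dart) :
    (mkDG G hdeg rot hrot).ed d ∈ edgesOf G H ↔ H.Adj d.fst d.snd := by
  rw [mem_edgesOf]
  exact Iff.rfl

theorem deg_edgesOf (H : SimpleGraph V) (hH : H ≤ G) (v : V) :
    (univ.filter (fun d => (mkDG G hdeg rot hrot).src d = v ∧
      (mkDG G hdeg rot hrot).ed d ∈ edgesOf G H)).card = (H.neighborSet v).ncard := by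
  classical
  rw [← Set.ncard_coe_finset]
  apply Set.ncard_congr (fun (d : G.Dart) _ => d.snd)
  · intro d hd
    rw [mem_coe, mem_filter] at hd
    obtain ⟨_, h1, h2⟩ := hd
    rw [dart_mem] at h2
    have h3 : d.fst = v := h1
    rw [h3] at h2
    exact h2
  · intro a b ha hb hab
    rw [mem_coe, mem_filter] at ha hb
    have h1 : a.fst = v := ha.2.1
    have h2 : b.fst = v := hb.2.1
    apply SimpleGraph.Dart.ext
    exact Prod.ext (h1.trans h2.symm) hab
  · intro w hw
    have hw' : H.Adj v w := hw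
    refine ⟨⟨(v, w), hH hw'⟩, ?_, rfl⟩
    rw [mem_coe, mem_filter]
    refine ⟨mem_univ _, rfl, ?_⟩
    rw [dart_mem]
    exact hw'

theorem ham_iff [Nonempty V] (H : SimpleGraph V) (hH : H ≤ G) :
    (mkDG G hdeg rot hrot).HamF (edgesOf G H) ↔ H ∈ hamCycles G := by
  constructor
  · rintro ⟨h1, h2⟩
    refine ⟨hH, ?_, ?_⟩
    · rw [SimpleGraph.connected_iff]
      refine ⟨?_, inferInstance⟩
      intro a b
      apply h2 (fun v => H.Reachable a v) ?_ a b (SimpleGraph.Reachable.refl a)
      intro d hd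
      rw [dart_mem] at hd
      exact ⟨fun h => h.trans hd.reachable, fun h => h.trans hd.symm.reachable⟩
    · intro v
      rw [← h1 v, deg_edgesOf G hdeg rot hrot H hH v]
  · rintro ⟨_, h1, h2⟩
    refine ⟨?_, ?_⟩
    · intro v
      rw [deg_edgesOf G hdeg rot hrot H hH v, h2 v]
    · intro U hU a b ha
      obtain ⟨p⟩ := h1.preconnected a b
      induction p with
      | nil => exact ha
      | @cons u w _ h p ih =>
        apply ih
        have := hU ⟨(u, w), hH h⟩ ((dart_mem G hdeg rot hrot H _).2 h)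
        exact this.1 ha

open scoped Classical in
theorem ham_card [Nonempty V] :
    (univ.filter (fun F => (mkDG G hdeg rot hrot).HamF F)).card = (hamCycles G).ncard := by
  rw [← Set.ncard_coe_finset]
  symm
  apply Set.ncard_congr (fun H _ => edgesOf G H)
  · intro H hH
    rw [mem_coe, mem_filter]
    exact ⟨mem_univ _, (ham_iff G hdeg rot hrot H hH.1).2 hH⟩
  · intro H H' hH hH' he
    have key : ∀ H H' : SimpleGraph V, H ≤ G → edgesOf G H = edgesOf G H' → H ≤ H' := by
      intro H H' h1 he a b hab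
      have h2 := (dart_mem G hdeg rot hrot H ⟨(a, b), h1 hab⟩).2 hab
      rw [he, dart_mem] at h2
      exact h2
    exact le_antisymm (key _ _ hH.1 he) (key _ _ hH'.1 he.symm)
  · intro F hF
    rw [mem_coe, mem_filter] at hF
    let H : SimpleGraph V := SimpleGraph.fromEdgeSet {e | ∃ h : e ∈ G.edgeSet, (⟨e, h⟩ : G.edgeSet) ∈ F}
    have hHG : H ≤ G := by
      intro a b hab
      rw [SimpleGraph.fromEdgeSet_adj] at hab
      exact hab.1.choose
    have hHF : edgesOf G H = F := by
      ext e
      rw [mem_edgesOf, SimpleGraph.edgeSet_fromEdgeSet]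
      constructor
      · rintro ⟨⟨_, h⟩, _⟩
        exact h
      · intro h
        exact ⟨⟨e.2, h⟩, G.not_isDiag_of_mem_edgeSet e.2⟩
    refine ⟨H, ?_, hHF⟩
    rw [← ham_iff G hdeg rot hrot H hHG, hHF]
    exact hF.2

include hdeg in
theorem main_ham (hodd : Odd (hamCycles G).ncard) : Col3 G := by
  classical
  rcases isEmpty_or_nonempty V with hE | hN
  · refine ⟨fun _ => 0, ?_⟩
    intro e _ e' _ _ hv
    obtain ⟨v, _⟩ := hv
    exact hE.elim v
  · obtain ⟨rot, hrot⟩ := exists_rot G
    let X := mkDG G hdeg rot hrot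
    obtain ⟨c, hc⟩ := ham_main X (sub_mk G hdeg rot hrot) (by
      intro d h
      exact d.fst_ne_snd h.symm) (by
      rw [ham_card]; exact hodd)
    have h1 := col_of_good G hdeg rot hrot ∅ c (by
      have : (fun e : G.edgeSet => (e : Sym2 V) ∈ (∅ : Set (Sym2 V))) = fun _ => False := by
        funext e; simp
      rw [this]
      exact ⟨fun e he => hc.1 e he, hc.2.2.1, fun v hv => hc.2.2.2.1 v hv trivial⟩)
    rwa [SimpleGraph.deleteEdges_empty] at h1

end Pool.Agent.GRZ
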