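import Pool.Agent.GRZ.Near

set_option autoImplicit false

namespace Pool.Agent.GRZ

open Finset

variable {V D E : Type} [Fintype V] [DecidableEq V] [Fintype D] [DecidableEq D] [Fintype E] [DecidableEq E]

/-- edges with a cubic end in `U` -/
def DG.EX (X : DG V D E) (U : V → Prop) (e : E) : Prop :=
  ∃ d, X.ed d = e ∧ X.deg (X.src d) = 3 ∧ U (X.src d)

theorem ex_iff (X : DG V D E) (U : V → Prop)
    (hU : ∀ d, X.deg (X.src d) = 3 → X.deg (X.src (X.inv d)) = 3 → (U (X.src d) ↔ U (X.src (X.inv d))))
    (d : D) (hd : X.deg (X.src d) = 3) : X.EX U (X.ed d) ↔ U (X.src d) := by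
  constructor
  · rintro ⟨d', h1, h2, h3⟩
    rcases (X.ed_eq d d').1 h1.symm with h | h
    · rw [h] at h3; exact h3
    · rw [h] at h2 h3
      exact (hU d hd h2).2 h3
  · intro h
    exact ⟨d, rfl, hd, h⟩

/-- **Separating sets of vertices of degree 2.** -/
theorem sep (X : DG V D E) (hX : X.Sub) (hE : X.Euler) (hC : X.Conn) [DecidablePred X.Tait]
    (h9 : ¬ 9 ∣ (univ.filter (fun x : E → Fin 3 => X.Tait x)).card) (hk : X.k2 % 3 = 1)
    (U : V → Prop)
    (hU : ∀ d, X.deg (X.src d) = 3 → X.deg (X.src (X.inv d)) = 3 → (U (X.src d) ↔ U (X.src (X.inv d))))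
    (a b : V) (ha : X.deg a = 3) (hb : X.deg b = 3) (hUa : U a) (hUb : ¬ U b) :
    ∃ c, X.Good (fun _ => False) c := by
  classical
  let DX : V → Prop := fun v => X.deg v = 2 ∧ ¬ (X.EX U (X.ed (X.base v)) ↔ X.EX U (X.ed (X.b1 v)))
  have hDX : ∃ v, DX v := by
    by_contra hno
    push Not at hno
    have hr : ∀ d, (X.EX U (X.ed (X.rot d)) ↔ X.EX U (X.ed d)) := by
      intro d
      rcases hX (X.src d) with h | h
      · have h1 := hno (X.src d)
        have h2 : X.EX U (X.ed (X.base (X.src d))) ↔ X.EX U (X.ed (X.b1 (X.src d))) := by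
          by_contra h3
          exact h1 ⟨h, h3⟩
        rcases mem2 X _ h d rfl with q | q
        · have e1 : X.rot d = X.b1 (X.src d) := by
            conv_lhs => rw [q]
            rfl
          rw [e1, ← h2, ← q]
        · have e1 : X.rot d = X.base (X.src d) := by
            conv_lhs => rw [q]
            exact rot_b1 X _ h
          rw [e1, h2, ← q]
      · rw [ex_iff X U hU d h, ex_iff X U hU (X.rot d) (by rw [X.src_rot]; exact h), X.src_rot]
    have hc := hC (fun d => if X.EX U (X.ed d) then 1 else 0)
      (by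
        intro d
        show (if X.EX U (X.ed (X.rot d)) then (1 : ZMod 2) else 0) = (if X.EX U (X.ed d) then 1 else 0)
        by_cases h : X.EX U (X.ed d)
        · rw [if_pos h, if_pos ((hr d).2 h)]
        · rw [if_neg h, if_neg (fun h' => h ((hr d).1 h'))])
      (by
        intro d
        show (if X.EX U (X.ed (X.inv d)) then (1 : ZMod 2) else 0) = (if X.EX U (X.ed d) then 1 else 0)
        rw [ed_inv]) (X.base a) (X.base b)
    have ea : X.EX U (X.ed (X.base a)) := by
      rw [ex_iff X U hU _ (by rw [X.src_base]; exact ha), X.src_base]; exact hUa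
    have eb : ¬ X.EX U (X.ed (X.base b)) := by
      rw [ex_iff X U hU _ (by rw [X.src_base]; exact hb), X.src_base]; exact hUb
    rw [if_pos ea, if_neg eb] at hc
    exact one_ne_zero hc
  obtain ⟨v0, hv0⟩ := hDX
  -- the two choices of marks
  have main : ∀ (S : V → Prop) (c : D → Fin 3) (j : Fin 3), X.Mixed S (fun _ => False) c →
      (∀ v, X.deg v = 2 → ¬ DX v → S v) →
      (∀ v, DX v → ∀ d d', X.src d = v → X.src d' = v → X.EX U (X.ed d) → ¬ X.EX U (X.ed d') →
        c d + j ≠ c d') → ∃ c, X.Good (fun _ => False) c := by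
    intro S c j hc hS hD
    have hed : ∀ d, c (X.pe (X.ed d)) = c d := fun d => mixed_ed X _ _ c hc d (fun h => h)
    refine ⟨fun d => (fun e => if X.EX U e then c (X.pe e) + j else c (X.pe e)) (X.ed d), ?_⟩
    apply good_of_proper X (fun e => if X.EX U e then c (X.pe e) + j else c (X.pe e))
    intro d d' hs hne
    show (if X.EX U (X.ed d) then c (X.pe (X.ed d)) + j else c (X.pe (X.ed d))) ≠
      (if X.EX U (X.ed d') then c (X.pe (X.ed d')) + j else c (X.pe (X.ed d')))
    rw [hed, hed]
    by_cases hv : DX (X.src d)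
    · obtain ⟨hv2, hv3⟩ := hv
      have h4 : ¬ (X.EX U (X.ed d) ↔ X.EX U (X.ed d')) := by
        rcases mem2 X _ hv2 d rfl with q | q <;> rcases mem2 X _ hv2 d' hs.symm with r | r
        · exact absurd (q.trans r.symm) hne
        · rw [← q, ← r] at hv3; exact hv3
        · rw [← q, ← r] at hv3; exact fun h => hv3 h.symm
        · exact absurd (q.trans r.symm) hne
      by_cases h5 : X.EX U (X.ed d)
      · have h6 : ¬ X.EX U (X.ed d') := fun h => h4 ⟨fun _ => h, fun _ => h5⟩
        rw [if_pos h5, if_neg h6]
        exact hD (X.src d) ⟨hv2, hv3⟩ d d' rfl hs.symm h5 h6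
      · have h6 : X.EX U (X.ed d') := by
          by_contra h
          exact h4 ⟨fun h' => absurd h' h5, fun h' => absurd h' h⟩
        rw [if_neg h5, if_pos h6]
        exact (hD (X.src d) ⟨hv2, hv3⟩ d' d hs.symm rfl h6 h5).symm
    · have hcc : c d ≠ c d' := by
        apply mixed_ne X _ _ c hc (X.src d) _ d d' rfl hs.symm hne
        rcases hX (X.src d) with h | h
        · right; exact ⟨h, hS _ h hv⟩
        · left; exact h
      have h4 : X.EX U (X.ed d) ↔ X.EX U (X.ed d') := by
        rcases hX (X.src d) with h | h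
        · by_contra h5
          apply hv
          refine ⟨h, ?_⟩
          rcases mem2 X _ h d rfl with q | q <;> rcases mem2 X _ h d' hs.symm with r | r
          · exact absurd (q.trans r.symm) hne
          · rw [← q, ← r]; exact h5
          · rw [← q, ← r]; exact fun h => h5 h.symm
          · exact absurd (q.trans r.symm) hne
        · rw [ex_iff X U hU d h, ex_iff X U hU d' (by rw [← hs]; exact h), hs]
      by_cases h5 : X.EX U (X.ed d)
      · rw [if_pos h5, if_pos (h4.1 h5)]
        intro h; exact hcc (add_right_cancel h)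
      · rw [if_neg h5, if_neg (fun h => h5 (h4.2 h))]
        exact hcc
  have hfalse : (univ.filter (fun _ : E => False)).card = 0 := by simp
  have hsub : (univ.filter (fun v => DX v)) ⊆ univ.filter (fun v => X.deg v = 2) := by
    intro v hv
    rw [mem_filter] at hv ⊢
    exact ⟨mem_univ _, hv.2.1⟩
  have hle := card_le_card hsub
  by_cases hm : (univ.filter (fun v => DX v)).card % 3 = 0
  · -- keep the mark at v0
    have hcount : (univ.filter (fun v => X.deg v = 2 ∧ (¬ DX v ∨ v = v0))).card
        = X.k2 - (univ.filter (fun v => DX v)).card + 1 := by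
      have e : univ.filter (fun v => X.deg v = 2 ∧ (¬ DX v ∨ v = v0))
          = insert v0 ((univ.filter (fun v => X.deg v = 2)) \ (univ.filter (fun v => DX v))) := by
        ext v
        simp only [mem_filter, mem_univ, true_and, mem_insert, mem_sdiff]
        constructor
        · rintro ⟨h1, h2 | h2⟩
          · right; exact ⟨h1, h2⟩
          · left; exact h2
        · rintro (h | ⟨h1, h2⟩)
          · rw [h]; exact ⟨hv0.1, Or.inr rfl⟩
          · exact ⟨h1, Or.inl h2⟩
      rw [e, card_insert_of_notMem (by simp [hv0]), card_sdiff_of_subset hsub]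
      rfl
    have hk' : ((univ.filter (fun v => X.deg v = 2 ∧ (¬ DX v ∨ v = v0))).card +
        (univ.filter (fun _ : E => False)).card) % 3 ≠ 1 := by
      rw [hcount, hfalse]
      have : (univ.filter (fun v => DX v)).card ≤ X.k2 := hle
      omega
    obtain ⟨c, hc⟩ := mixed9 X hX hE hC (X.ed (X.base a)) h9 (fun v => ¬ DX v ∨ v = v0) (fun _ => False) hk'
    obtain ⟨dx, dy, sx, sy, ex, ey⟩ : ∃ dx dy, X.src dx = v0 ∧ X.src dy = v0 ∧ X.EX U (X.ed dx) ∧
        ¬ X.EX U (X.ed dy) := by
      obtain ⟨_, h⟩ := hv0
      by_cases h1 : X.EX U (X.ed (X.base v0))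
      · have h2 : ¬ X.EX U (X.ed (X.b1 v0)) := fun h' => h ⟨fun _ => h', fun _ => h1⟩
        exact ⟨_, _, X.src_base v0, src_b1 X v0, h1, h2⟩
      · have h2 : X.EX U (X.ed (X.b1 v0)) := by
          by_contra h'
          exact h ⟨fun q => absurd q h1, fun q => absurd q h'⟩
        exact ⟨_, _, src_b1 X v0, X.src_base v0, h2, h1⟩
    have hxy : dx ≠ dy := fun h => ey (h ▸ ex)
    have hcxy : c dx ≠ c dy :=
      mixed_ne X _ _ c hc v0 (Or.inr ⟨hv0.1, Or.inr rfl⟩) dx dy sx sy hxy
    apply main (fun v => ¬ DX v ∨ v = v0) c (c dx - c dy) hc (fun v _ h => Or.inl h)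
    intro v hv d d' hd hd' e1 e2
    by_cases hvv : v = v0
    · have hdx : d = dx := by
        rcases mem2 X v hv.1 d hd with q | q <;> rcases mem2 X v hv.1 dx (sx.trans hvv.symm) with r | r
        · exact q.trans r.symm
        · exfalso
          rcases mem2 X v hv.1 dy (sy.trans hvv.symm) with t | t
          · exact ey (by rw [t, ← q]; exact e1)
          · exact hxy (r.trans t.symm)
        · exfalso
          rcases mem2 X v hv.1 dy (sy.trans hvv.symm) with t | t
          · exact hxy (r.trans t.symm)
          · exact ey (by rw [t, ← q]; exact e1)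
        · exact q.trans r.symm
      have hdy : d' = dy := by
        rcases mem2 X v hv.1 d' hd' with q | q <;> rcases mem2 X v hv.1 dy (sy.trans hvv.symm) with r | r
        · exact q.trans r.symm
        · exfalso
          rcases mem2 X v hv.1 dx (sx.trans hvv.symm) with t | t
          · exact e2 (by rw [q, ← t]; exact ex)
          · exact hxy (t.trans r.symm)
        · exfalso
          rcases mem2 X v hv.1 dx (sx.trans hvv.symm) with t | t
          · exact hxy (t.trans r.symm)
          · exact e2 (by rw [q, ← t]; exact ex)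
        · exact q.trans r.symm
      rw [hdx, hdy]
      have : ∀ a b : Fin 3, a ≠ b → a + (a - b) ≠ b := by decide
      exact this _ _ hcxy
    · have heq : c d = c d' := mixed_eq X _ _ c hc v hv.1
        (by rintro (h | h); exact h hv; exact hvv h) d d' hd hd'
      rw [heq]
      intro h
      have h2 : c dx - c dy = 0 := by
        have : c d' + (c dx - c dy) = c d' + 0 := by rw [add_zero]; exact h
        exact add_left_cancel this
      exact hcxy (sub_eq_zero.1 h2)
  · have hcount : (univ.filter (fun v => X.deg v = 2 ∧ ¬ DX v)).card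
        = X.k2 - (univ.filter (fun v => DX v)).card := by
      have e : univ.filter (fun v => X.deg v = 2 ∧ ¬ DX v)
          = (univ.filter (fun v => X.deg v = 2)) \ (univ.filter (fun v => DX v)) := by
        ext v
        simp only [mem_filter, mem_univ, true_and, mem_sdiff]
      rw [e, card_sdiff_of_subset hsub]
      rfl
    have hk' : ((univ.filter (fun v => X.deg v = 2 ∧ ¬ DX v)).card +
        (univ.filter (fun _ : E => False)).card) % 3 ≠ 1 := by
      rw [hcount, hfalse]
      have : (univ.filter (fun v => DX v)).card ≤ X.k2 := hle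
      omega
    obtain ⟨c, hc⟩ := mixed9 X hX hE hC (X.ed (X.base a)) h9 (fun v => ¬ DX v) (fun _ => False) hk'
    apply main (fun v => ¬ DX v) c 1 hc (fun v _ h => h)
    intro v hv d d' hd hd' _ _
    have heq : c d = c d' := mixed_eq X _ _ c hc v hv.1 (fun h => h hv) d d' hd hd'
    rw [heq]
    have : ∀ a : Fin 3, a + 1 ≠ a := by decide
    exact this _

end Pool.Agent.GRZ
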