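import Pool.Agent.GRZ.Final
import Pool.Agent.GRZ.Sep

set_option autoImplicit false

namespace Pool.Agent.GRZ

open Finset

variable {V : Type} [Fintype V] [DecidableEq V] (G : SimpleGraph V) [DecidableRel G.Adj]
variable (hdeg : ∀ v, G.degree v = 2 ∨ G.degree v = 3) (rot : Equiv.Perm G.Dart) (hrot : IsPlane G rot)

theorem card_straight [DecidablePred (mkDG G hdeg rot hrot.isRot).Tait] : (straight G).card =
    (univ.filter (fun x : G.edgeSet → Fin 3 => (mkDG G hdeg rot hrot.isRot).Tait x)).card := by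
  classical
  unfold straight
  congr 1
  apply filter_congr
  intro h _
  exact straight_iff G hdeg rot hrot.isRot h

theorem col_of_good' (h : ∃ c, (mkDG G hdeg rot hrot.isRot).Good (fun _ => False) c) : Col3 G := by
  obtain ⟨c, hc⟩ := h
  have h1 := col_of_good G hdeg rot hrot.isRot ∅ c (by simpa using hc)
  rwa [SimpleGraph.deleteEdges_empty] at h1

include hdeg hrot in
theorem near_adj (hc : G.Connected) (h9 : ¬ 9 ∣ (straight G).card) (hk : numTwo G % 3 = 1) (u v : V)
    (hu : G.degree u = 2) (hv : G.degree v = 2) (huv : G.Adj u v) : Col3 G := by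
  classical
  let X := mkDG G hdeg rot hrot.isRot
  apply col_of_good' G hdeg rot hrot
  apply near1 X (sub_mk G hdeg rot hrot.isRot) (euler_mk G hdeg rot hrot) (conn_mk G hdeg rot hrot.isRot hc)
    (by intro d h; exact d.fst_ne_snd h.symm)
    (by rw [← card_straight G hdeg rot hrot]; exact h9) (by rw [numTwo_eq]; exact hk)
    ⟨(u, v), huv⟩
  · rw [deg_mk]; exact hu
  · rw [deg_mk]; exact hv

include hdeg hrot in
theorem near_common (hc : G.Connected) (h9 : ¬ 9 ∣ (straight G).card) (hk : numTwo G % 3 = 1) (u v w : V)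
    (hu : G.degree u = 2) (hv : G.degree v = 2) (huv : u ≠ v) (hwu : G.Adj w u) (hwv : G.Adj w v) :
    Col3 G := by
  classical
  rcases hdeg w with h2 | h3
  · exact near_adj G hdeg rot hrot hc h9 hk w u h2 hu hwu
  · let X := mkDG G hdeg rot hrot.isRot
    apply col_of_good' G hdeg rot hrot
    apply near2 X (sub_mk G hdeg rot hrot.isRot) (euler_mk G hdeg rot hrot) (conn_mk G hdeg rot hrot.isRot hc)
      (by intro d h; exact d.fst_ne_snd h.symm)
      (by
        intro d d' h1 h2
        apply SimpleGraph.Dart.ext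
        exact Prod.ext h1 h2)
      (by rw [← card_straight G hdeg rot hrot]; exact h9) (by rw [numTwo_eq]; exact hk)
      ⟨(w, u), hwu⟩ ⟨(w, v), hwv⟩ rfl
    · rw [deg_mk]; exact h3
    · rw [deg_mk]; exact hu
    · rw [deg_mk]; exact hv
    · exact huv

include hdeg hrot in
theorem sep_graph (hc : G.Connected) (h9 : ¬ 9 ∣ (straight G).card) (hk : numTwo G % 3 = 1)
    (hs : ¬ (G.induce {v | G.degree v = 3}).Preconnected) : Col3 G := by
  classical
  let X := mkDG G hdeg rot hrot.isRot
  apply col_of_good' G hdeg rot hrot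
  unfold SimpleGraph.Preconnected at hs
  push Not at hs
  obtain ⟨a, b, hab⟩ := hs
  apply sep X (sub_mk G hdeg rot hrot.isRot) (euler_mk G hdeg rot hrot) (conn_mk G hdeg rot hrot.isRot hc)
    (by rw [← card_straight G hdeg rot hrot]; exact h9) (by rw [numTwo_eq]; exact hk)
    (fun v => ∃ h : G.degree v = 3, (G.induce {v | G.degree v = 3}).Reachable a ⟨v, h⟩) ?_ a.1 b.1
    (by rw [deg_mk]; exact a.2) (by rw [deg_mk]; exact b.2) ⟨a.2, SimpleGraph.Reachable.refl _⟩
    (by rintro ⟨_, h⟩; exact hab h)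
  intro d h1 h2
  rw [deg_mk] at h1 h2
  have e1 : G.degree d.fst = 3 := h1
  have e2 : G.degree d.snd = 3 := h2
  have hadj : (G.induce {v | G.degree v = 3}).Adj ⟨d.fst, e1⟩ ⟨d.snd, e2⟩ := d.adj
  constructor
  · rintro ⟨_, h⟩
    exact ⟨e2, h.trans hadj.reachable⟩
  · rintro ⟨_, h⟩
    exact ⟨e1, h.trans hadj.symm.reachable⟩

include hdeg hrot in
/-- structure of a counterexample whose number of straight colourings is not divisible by 9 -/
theorem main_nine (hc : G.Connected) (h9 : ¬ 9 ∣ (straight G).card) (hn : ¬ Col3 G) :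
    numTwo G % 3 = 1 ∧
    (∀ u v, G.degree u = 2 → G.degree v = 2 → u ≠ v → 3 ≤ G.dist u v) ∧
    (G.induce {v | G.degree v = 3}).Preconnected := by
  have hk : numTwo G % 3 = 1 := by
    by_contra hk
    exact hn (main_mod9 G hdeg rot hrot hc h9 hk)
  refine ⟨hk, ?_, ?_⟩
  · intro u v hu hv huv
    by_contra hd
    push Not at hd
    obtain ⟨p, hp⟩ := hc.exists_walk_length_eq_dist u v
    rw [← hp] at hd
    rcases p with _ | ⟨h1, p⟩
    · exact huv rfl
    · rcases p with _ | ⟨h2, p⟩
      · exact hn (near_adj G hdeg rot hrot hc h9 hk _ _ hu hv h1)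
      · rcases p with _ | ⟨h3, p⟩
        · exact hn (near_common G hdeg rot hrot hc h9 hk _ _ _ hu hv huv h1.symm h2)
        · simp only [SimpleGraph.Walk.length_cons] at hd
          omega
  · by_contra hs
    exact hn (sep_graph G hdeg rot hrot hc h9 hk hs)

end Pool.Agent.GRZ
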