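import Pool.Agent.GRZ.Poly

set_option autoImplicit false

namespace Pool.Agent.GRZ

open Finset

variable {V D E : Type} [Fintype V] [DecidableEq V] [Fintype D] [DecidableEq D] [Fintype E] [DecidableEq E]

theorem tait_shift (X : DG V D E) (x : E → Fin 3) (j : Fin 3) (hx : X.Tait x) :
    X.Tait (fun e => x e + j) := by
  refine ⟨?_, ?_⟩
  · intro v hv
    show eps (x _ + j) (x _ + j) (x _ + j) ≠ 0
    rw [eps_shift]
    exact hx.1 v hv
  · intro v hv
    show x _ + j = x _ + j
    rw [hx.2 v hv]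

theorem sum_shift (X : DG V D E) [DecidablePred X.Tait] (e0 : E) {R : Type} [AddCommMonoid R]
    (F : (E → Fin 3) → R) :
    ∑ x ∈ univ.filter (fun x : E → Fin 3 => X.Tait x), F x
      = ∑ x ∈ univ.filter (fun x : E → Fin 3 => X.Tait x ∧ x e0 = 0), ∑ j : Fin 3, F (fun e => x e + j) := by
  have h1 : ∑ x ∈ univ.filter (fun x : E → Fin 3 => X.Tait x), F x
      = ∑ j : Fin 3, ∑ x ∈ (univ.filter (fun x : E → Fin 3 => X.Tait x)).filter (fun x => x e0 = j), F x :=
    (Finset.sum_fiberwise _ _ _).symm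
  rw [h1]
  have h2 : ∑ x ∈ univ.filter (fun x : E → Fin 3 => X.Tait x ∧ x e0 = 0), ∑ j : Fin 3, F (fun e => x e + j)
      = ∑ j : Fin 3, ∑ x ∈ univ.filter (fun x : E → Fin 3 => X.Tait x ∧ x e0 = 0), F (fun e => x e + j) :=
    sum_comm
  rw [h2]
  apply sum_congr rfl
  intro j _
  symm
  apply sum_bij (fun x _ => (fun e => x e + j))
  · intro x hx
    rw [mem_filter] at hx
    rw [mem_filter, mem_filter]
    refine ⟨⟨mem_univ _, tait_shift X x j hx.2.1⟩, ?_⟩
    show x e0 + j = j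
    rw [hx.2.2, zero_add]
  · intro x _ y _ h
    funext e
    have := congrFun h e
    exact add_right_cancel this
  · intro y hy
    rw [mem_filter, mem_filter] at hy
    refine ⟨fun e => y e + (-j), ?_, ?_⟩
    · rw [mem_filter]
      refine ⟨mem_univ _, tait_shift X y (-j) hy.1.2, ?_⟩
      show y e0 + -j = 0
      rw [hy.2]; simp
    · funext e
      show y e + -j + j = y e
      simp
  · intro x _
    rfl

theorem tait_card (X : DG V D E) [DecidablePred X.Tait] (e0 : E) :
    (univ.filter (fun x : E → Fin 3 => X.Tait x)).card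
      = 3 * (univ.filter (fun x : E → Fin 3 => X.Tait x ∧ x e0 = 0)).card := by
  have := sum_shift X e0 (fun _ => (1 : ℕ))
  simp only [sum_const, smul_eq_mul, mul_one, card_univ, Fintype.card_fin] at this
  rw [this]; ring

theorem pow9 (m : ℕ) : (-2 : ZMod 9) ^ m = 1 - 3 * (m : ZMod 9) := by
  induction m with
  | zero => simp
  | succ m ih =>
    rw [pow_succ, ih]
    push_cast
    have h9 : (9 : ZMod 9) = 0 := by decide
    linear_combination (m : ZMod 9) * h9

/-- number of degree-2 vertices -/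
def DG.k2 (X : DG V D E) : ℕ := (univ.filter (fun v => X.deg v = 2)).card

theorem wt9 (X : DG V D E) (x : E → Fin 3) :
    ∑ j : Fin 3, X.wt (fun _ => (![-2, 1, 1] : Fin 3 → ZMod 9)) (fun e => x e + j)
      = 3 * (1 - (X.k2 : ZMod 9)) := by
  have h1 : ∀ j : Fin 3, X.wt (fun _ => (![-2, 1, 1] : Fin 3 → ZMod 9)) (fun e => x e + j)
      = 1 - 3 * (((univ.filter (fun v => X.deg v = 2 ∧ x (X.ed (X.base v)) + j = 0)).card : ℕ) : ZMod 9) := by
    intro j
    rw [← pow9]
    unfold DG.wt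
    rw [← prod_const, prod_filter]
    apply prod_congr rfl
    intro v _
    by_cases h2 : X.deg v = 2
    · rw [if_pos h2]
      have : ∀ i : Fin 3, (![-2, 1, 1] : Fin 3 → ZMod 9) i = if i = 0 then -2 else 1 := by decide
      show (![-2, 1, 1] : Fin 3 → ZMod 9) (x (X.ed (X.base v)) + j) = _
      rw [this]
      by_cases h : x (X.ed (X.base v)) + j = 0
      · rw [if_pos h, if_pos ⟨h2, h⟩]
      · rw [if_neg h, if_neg (fun h' => h h'.2)]
    · rw [if_neg h2, if_neg (fun h' => h2 h'.1)]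
  simp only [h1]
  have h2 : ∑ j : Fin 3, (univ.filter (fun v => X.deg v = 2 ∧ x (X.ed (X.base v)) + j = 0)).card = X.k2 := by
    unfold DG.k2
    simp only [card_filter]
    rw [sum_comm]
    apply sum_congr rfl
    intro v _
    by_cases h2 : X.deg v = 2
    · simp only [h2, true_and, if_true]
      have : ∀ i : Fin 3, ∑ j : Fin 3, (if i + j = 0 then 1 else 0) = 1 := by decide
      exact this _
    · simp [h2]
  rw [sum_sub_distrib, ← mul_sum, ← Nat.cast_sum, h2]
  simp
  ring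

theorem mod9_ne (a k : ℕ) (ha : ¬ 3 ∣ a) (hk : k % 3 ≠ 1) :
    (a : ZMod 9) * (3 * (1 - (k : ZMod 9))) ≠ 0 := by
  intro h
  have h1 : ((a * (3 * (1 - (k : ℤ))) : ℤ) : ZMod 9) = 0 := by
    push_cast; exact h
  rw [ZMod.intCast_zmod_eq_zero_iff_dvd] at h1
  obtain ⟨m, hm⟩ := h1
  have h2 : (a : ℤ) * (1 - (k : ℤ)) = 3 * m := by
    have : (3 : ℤ) * (a * (1 - (k : ℤ))) = 3 * (3 * m) := by
      push_cast at hm; linarith
    linarith
  have hp : Prime (3 : ℤ) := Int.prime_three
  rcases hp.dvd_or_dvd (Dvd.intro m h2.symm) with h3 | h3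
  · exact ha (by exact_mod_cast h3)
  · omega

/-- **Mod 9.** -/
theorem mod9 (X : DG V D E) (hX : X.Sub) (hE : X.Euler) (hC : X.Conn) [DecidablePred X.Tait] (e0 : E)
    (h9 : ¬ 9 ∣ (univ.filter (fun x : E → Fin 3 => X.Tait x)).card) (hk : X.k2 % 3 ≠ 1) :
    ∃ c, X.Good (fun _ => False) c := by
  apply planar_ring X hX hE hC (fun _ => False) (fun _ => 0) (![-2, 1, 1] : Fin 3 → ZMod 9) (by decide)
  have h1 : univ.filter (fun x : E → Fin 3 => X.Tait x ∧ ∀ e, False → x e = 0)
      = univ.filter (fun x : E → Fin 3 => X.Tait x) := by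
    apply filter_congr
    intro x _
    simp
  rw [h1, sum_shift X e0]
  simp only [wt9, sum_const, nsmul_eq_mul]
  apply mod9_ne
  · intro h
    apply h9
    rw [tait_card X e0]
    obtain ⟨m, hm⟩ := h
    exact ⟨m, by rw [hm]; ring⟩
  · exact hk

/-- **Deleting edges, mod 3.** -/
theorem mod3 (X : DG V D E) (hX : X.Sub) (hE : X.Euler) (hC : X.Conn) [DecidablePred X.Tait]
    (M : E → Prop) [DecidablePred M] (φ : E → Fin 3)
    (h3 : ¬ 3 ∣ (univ.filter (fun x : E → Fin 3 => X.Tait x ∧ ∀ e, M e → x e = φ e)).card) :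
    ∃ c, X.Good M c := by
  apply planar_ring X hX hE hC M φ (fun _ => (1 : ZMod 3)) (by decide)
  have h1 : ∀ x : E → Fin 3, X.wt (fun _ => (fun _ => (1 : ZMod 3))) x = 1 := by
    intro x
    unfold DG.wt
    simp
  simp only [h1, sum_const, nsmul_eq_mul, mul_one]
  intro h
  exact h3 ((ZMod.natCast_eq_zero_iff _ _).1 h)

theorem del_edge (X : DG V D E) (hX : X.Sub) (hE : X.Euler) (hC : X.Conn) [DecidablePred X.Tait]
    (h9 : ¬ 9 ∣ (univ.filter (fun x : E → Fin 3 => X.Tait x)).card) (e0 : E) :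
    ∃ c, X.Good (fun e => e = e0) c := by
  apply mod3 X hX hE hC (fun e => e = e0) (fun _ => 0)
  have h1 : univ.filter (fun x : E → Fin 3 => X.Tait x ∧ ∀ e, e = e0 → x e = 0)
      = univ.filter (fun x : E → Fin 3 => X.Tait x ∧ x e0 = 0) := by
    apply filter_congr
    intro x _
    simp
  rw [h1]
  intro h
  apply h9
  rw [tait_card X e0]
  obtain ⟨m, hm⟩ := h
  exact ⟨m, by rw [hm]; ring⟩

end Pool.Agent.GRZ
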