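import Pool.Agent.GRZ.Plane
import Pool.Agent.GRZ.Mod9

set_option autoImplicit false

namespace Pool.Agent.GRZ

open Finset

variable {V : Type} [Fintype V] [DecidableEq V] (G : SimpleGraph V) [DecidableRel G.Adj]

/-- `rot` permutes cyclically the darts leaving any given vertex -/
structure IsRot (rot : Equiv.Perm G.Dart) : Prop where
  fst_rot : ∀ d : G.Dart, (rot d).fst = d.fst
  cyclic : ∀ d d' : G.Dart, d.fst = d'.fst → rot.SameCycle d d'

theorem IsPlane.isRot {G : SimpleGraph V} [DecidableRel G.Adj] {rot : Equiv.Perm G.Dart}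
    (h : IsPlane G rot) : IsRot G rot := ⟨h.fst_rot, h.cyclic⟩

theorem exists_dart_edge (e : G.edgeSet) : ∃ d : G.Dart, d.edge = (e : Sym2 V) := by
  obtain ⟨e, he⟩ := e
  induction e using Sym2.ind with
  | _ a b => exact ⟨⟨(a, b), he⟩, rfl⟩

theorem exists_dart_fst (hdeg : ∀ v, G.degree v = 2 ∨ G.degree v = 3) (v : V) :
    ∃ d : G.Dart, d.fst = v := by
  have h : 0 < G.degree v := by rcases hdeg v with h | h <;> omega
  rw [SimpleGraph.degree_pos_iff_exists_adj] at h
  obtain ⟨w, hw⟩ := h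
  exact ⟨⟨(v, w), hw⟩, rfl⟩

/-- the dart graph of `G` -/
noncomputable def mkDG (hdeg : ∀ v, G.degree v = 2 ∨ G.degree v = 3) (rot : Equiv.Perm G.Dart)
    (hrot : IsRot G rot) : DG V G.Dart G.edgeSet where
  src d := d.fst
  ed d := ⟨d.edge, d.edge_mem⟩
  inv d := d.symm
  rot := rot
  pe e := (exists_dart_edge G e).choose
  base v := (exists_dart_fst G hdeg v).choose
  inv_inv d := d.symm_symm
  inv_ne d := d.symm_ne
  ed_eq d d' := by
    rw [Subtype.mk_eq_mk, SimpleGraph.dart_edge_eq_iff]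
    constructor
    · rintro (h | h)
      · left; exact h.symm
      · right; rw [h, SimpleGraph.Dart.symm_symm]
    · rintro (h | h)
      · left; exact h.symm
      · right; rw [h, SimpleGraph.Dart.symm_symm]
  ed_pe e := Subtype.ext (exists_dart_edge G e).choose_spec
  src_base v := (exists_dart_fst G hdeg v).choose_spec
  src_rot d := hrot.fst_rot d
  rot_trans d d' h := hrot.cyclic d d' h

variable (hdeg : ∀ v, G.degree v = 2 ∨ G.degree v = 3) (rot : Equiv.Perm G.Dart) (hrot : IsRot G rot)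

theorem deg_mk (v : V) : (mkDG G hdeg rot hrot).deg v = G.degree v := by
  unfold DG.deg
  exact G.dart_fst_fiber_card_eq_degree v

theorem sub_mk : (mkDG G hdeg rot hrot).Sub := by
  intro v
  rw [deg_mk]
  exact hdeg v

theorem euler_mk (hpl : IsPlane G rot) : (mkDG G hdeg rot hpl.isRot).Euler := by
  unfold DG.Euler
  have h := hpl.euler
  have h1 : Fintype.card G.edgeSet = G.edgeFinset.card := (SimpleGraph.edgeFinset_card).symm
  rw [h1]
  exact h

theorem conn_mk (hc : G.Connected) : (mkDG G hdeg rot hrot).Conn := by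
  intro f hr hi d d'
  have h1 : ∀ d d' : G.Dart, d.fst = d'.fst → f d = f d' := by
    intro d d' h
    obtain ⟨i, hi⟩ := hrot.cyclic d d' h
    rw [← hi]
    have h2 : ∀ n : ℕ, ∀ x, f ((rot ^ n) x) = f x := by
      intro n
      induction n with
      | zero => intro x; rfl
      | succ n ih =>
        intro x
        rw [pow_succ', Equiv.Perm.mul_apply]
        exact (hr _).trans (ih x)
    obtain ⟨n, rfl | rfl⟩ := i.eq_nat_or_neg
    · rw [zpow_natCast, h2]
    · have := h2 n ((rot ^ (-(n : ℤ))) d)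
      rw [← zpow_natCast, ← Equiv.Perm.mul_apply, ← zpow_add] at this
      simp only [add_neg_cancel, zpow_zero, Equiv.Perm.coe_one, id_eq] at this
      exact this
  let g : V → ZMod 2 := fun v => f ((exists_dart_fst G hdeg v).choose)
  have hg : ∀ d : G.Dart, f d = g d.fst := fun d =>
    h1 _ _ (exists_dart_fst G hdeg d.fst).choose_spec.symm
  have hadj : ∀ u v, G.Adj u v → g u = g v := by
    intro u v huv
    have e1 := hg ⟨(u, v), huv⟩
    have e2 := hg (⟨(u, v), huv⟩ : G.Dart).symm
    have e3 : f (⟨(u, v), huv⟩ : G.Dart).symm = f ⟨(u, v), huv⟩ := hi _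
    rw [e3, e1] at e2
    exact e2
  have hreach : ∀ u v, G.Reachable u v → g u = g v := by
    intro u v h
    obtain ⟨p⟩ := h
    induction p with
    | nil => rfl
    | cons h p ih => exact (hadj _ _ h).trans ih
  rw [hg d, hg d']
  exact hreach _ _ (hc.preconnected _ _)

theorem mem_edge_iff (v : V) (e : G.edgeSet) :
    v ∈ (e : Sym2 V) ↔ ∃ d : G.Dart, d.fst = v ∧ (mkDG G hdeg rot hrot).ed d = e := by
  obtain ⟨e, he⟩ := e
  constructor
  · intro hv
    induction e using Sym2.ind with
    | _ a b =>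
      rcases Sym2.mem_iff.1 hv with h | h
      · exact ⟨⟨(a, b), he⟩, h.symm, Subtype.ext rfl⟩
      · exact ⟨(⟨(a, b), he⟩ : G.Dart).symm, h.symm, Subtype.ext (SimpleGraph.Dart.edge_symm _)⟩
  · rintro ⟨d, rfl, hd⟩
    have : d.edge = e := congrArg Subtype.val hd
    show d.fst ∈ e
    rw [← this]
    exact Sym2.mem_mk_left _ _

theorem ed_inj (d d' : G.Dart) (h : d.fst = d'.fst)
    (he : (mkDG G hdeg rot hrot).ed d = (mkDG G hdeg rot hrot).ed d') : d = d' := by
  have := ((mkDG G hdeg rot hrot).ed_eq d d').1 he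
  rcases this with h1 | h1
  · exact h1.symm
  · exfalso
    have h2 : d' = d.symm := h1
    rw [h2] at h
    exact d.fst_ne_snd h

theorem straight_iff (h : G.edgeSet → Fin 3) : Straight G h ↔ (mkDG G hdeg rot hrot).Tait h := by
  constructor
  · intro hs
    refine ⟨?_, ?_⟩
    · intro v hv
      obtain ⟨n1, n2, n3⟩ := deg3_ne (mkDG G hdeg rot hrot) v hv
      have s0 := (mkDG G hdeg rot hrot).src_base v
      have s1 := src_b1 (mkDG G hdeg rot hrot) v
      have s2 := src_b2 (mkDG G hdeg rot hrot) v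
      have hv' : G.degree v = 3 := by rw [← deg_mk G hdeg rot hrot]; exact hv
      have key : ∀ d d' : G.Dart, d.fst = v → d'.fst = v → d ≠ d' →
          h ((mkDG G hdeg rot hrot).ed d) ≠ h ((mkDG G hdeg rot hrot).ed d') := by
        intro d d' hd hd' hne
        apply (hs v _ _ ((mem_edge_iff G hdeg rot hrot v _).2 ⟨d, hd, rfl⟩)
          ((mem_edge_iff G hdeg rot hrot v _).2 ⟨d', hd', rfl⟩)).2 hv'
        intro he
        exact hne (ed_inj G hdeg rot hrot d d' (hd.trans hd'.symm) he)
      rw [eps_ne]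
      exact ⟨key _ _ s0 s1 n1, key _ _ s1 s2 n3, key _ _ s0 s2 n2⟩
    · intro v hv
      have s0 := (mkDG G hdeg rot hrot).src_base v
      have s1 := src_b1 (mkDG G hdeg rot hrot) v
      have hv' : G.degree v = 2 := by rw [← deg_mk G hdeg rot hrot]; exact hv
      exact (hs v _ _ ((mem_edge_iff G hdeg rot hrot v _).2 ⟨_, s0, rfl⟩)
        ((mem_edge_iff G hdeg rot hrot v _).2 ⟨_, s1, rfl⟩)).1 hv'
  · intro ht v e f he hf
    obtain ⟨d, hd, rfl⟩ := (mem_edge_iff G hdeg rot hrot v e).1 he
    obtain ⟨d', hd', rfl⟩ := (mem_edge_iff G hdeg rot hrot v f).1 hf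
    refine ⟨?_, ?_⟩
    · intro hv
      have hv' : (mkDG G hdeg rot hrot).deg v = 2 := by rw [deg_mk]; exact hv
      have h2 := ht.2 v hv'
      rcases mem2 (mkDG G hdeg rot hrot) v hv' d hd with h | h <;>
        rcases mem2 (mkDG G hdeg rot hrot) v hv' d' hd' with h' | h' <;> rw [h, h']
      · exact h2
      · exact h2.symm
    · intro hv hne
      have hv' : (mkDG G hdeg rot hrot).deg v = 3 := by rw [deg_mk]; exact hv
      have h3 := ht.1 v hv'
      rw [eps_ne] at h3
      obtain ⟨n1, n2, n3⟩ := h3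
      rcases mem3 (mkDG G hdeg rot hrot) v hv' d hd with h | h | h <;>
        rcases mem3 (mkDG G hdeg rot hrot) v hv' d' hd' with h' | h' | h' <;> rw [h, h']
      · exact absurd (by rw [h, h']) hne
      · exact n1
      · exact n3
      · exact n1.symm
      · exact absurd (by rw [h, h']) hne
      · exact n2
      · exact n3.symm
      · exact n2.symm
      · exact absurd (by rw [h, h']) hne

/-- from a good colouring of the darts to a colouring of the graph -/
theorem col_of_good (M : Set (Sym2 V)) (c : G.Dart → Fin 3)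
    (hc : (mkDG G hdeg rot hrot).Good (fun e => (e : Sym2 V) ∈ M) c) : Col3 (G.deleteEdges M) := by
  classical
  let X := mkDG G hdeg rot hrot
  refine ⟨fun s => if h : s ∈ G.edgeSet then c (X.pe ⟨s, h⟩) else 0, ?_⟩
  intro e he e' he' hne hv
  obtain ⟨v, hv1, hv2⟩ := hv
  have hm : ∀ e ∈ (G.deleteEdges M).edgeSet, e ∈ G.edgeSet ∧ e ∉ M := by
    intro e he
    rw [SimpleGraph.edgeSet_deleteEdges] at he
    exact he
  obtain ⟨g1, m1⟩ := hm e he
  obtain ⟨g2, m2⟩ := hm e' he'
  have hcd : ∀ d : G.Dart, d.edge ∉ M → c (X.pe (X.ed d)) = c d := by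
    intro d hd
    rcases dart_cases X d with h | h
    · rw [← h]
    · have h1 := hc.1 (X.ed d) hd
      have h2 : c (X.pe (X.ed d)) = c (X.inv (X.pe (X.ed d))) := h1
      rw [h2, ← h]
  obtain ⟨d, hd, hde⟩ := (mem_edge_iff G hdeg rot hrot v ⟨e, g1⟩).1 hv1
  obtain ⟨d', hd', hde'⟩ := (mem_edge_iff G hdeg rot hrot v ⟨e', g2⟩).1 hv2
  have e1 : d.edge = e := congrArg Subtype.val hde
  have e2 : d'.edge = e' := congrArg Subtype.val hde'
  show (if h : e ∈ G.edgeSet then c (X.pe ⟨e, h⟩) else 0) ≠ (if h : e' ∈ G.edgeSet then c (X.pe ⟨e', h⟩) else 0)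
  rw [dif_pos g1, dif_pos g2, ← hde, ← hde']
  have c1 := hcd d (by rw [e1]; exact m1)
  have c2 := hcd d' (by rw [e2]; exact m2)
  have c1' : c (X.pe ((mkDG G hdeg rot hrot).ed d)) = c d := c1
  have c2' : c (X.pe ((mkDG G hdeg rot hrot).ed d')) = c d' := c2
  rw [c1', c2']
  have hdd : d ≠ d' := by
    intro h; apply hne; rw [← e1, ← e2, h]
  rcases hdeg v with h2 | h3
  · have hv' : X.deg v = 2 := by rw [← h2]; exact deg_mk G hdeg rot hrot v
    have h := hc.2.2 v hv'
    rcases mem2 X v hv' d hd with h1 | h1 <;> rcases mem2 X v hv' d' hd' with h1' | h1'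
    · exact absurd (h1.trans h1'.symm) hdd
    · rw [h1, h1']; exact h
    · rw [h1, h1']; exact h.symm
    · exact absurd (h1.trans h1'.symm) hdd
  · have hv' : X.deg v = 3 := by rw [← h3]; exact deg_mk G hdeg rot hrot v
    have h := hc.2.1 v hv'
    rw [eps_ne] at h
    obtain ⟨n1, n2, n3⟩ := h
    rcases mem3 X v hv' d hd with h1 | h1 | h1 <;> rcases mem3 X v hv' d' hd' with h1' | h1' | h1'
    · exact absurd (h1.trans h1'.symm) hdd
    · rw [h1, h1']; exact n1
    · rw [h1, h1']; exact n3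
    · rw [h1, h1']; exact n1.symm
    · exact absurd (h1.trans h1'.symm) hdd
    · rw [h1, h1']; exact n2
    · rw [h1, h1']; exact n3.symm
    · rw [h1, h1']; exact n2.symm
    · exact absurd (h1.trans h1'.symm) hdd

end Pool.Agent.GRZ
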