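import Pool.Agent.GRZ.Near

set_option autoImplicit false

namespace Pool.Agent.GRZ

open Finset

variable {V D E : Type} [Fintype V] [DecidableEq V] [Fintype D] [DecidableEq D] [Fintype E] [DecidableEq E]

/-- edge sets of Hamiltonian cycles -/
def DG.HamF (X : DG V D E) (F : Finset E) : Prop :=
  (∀ v, (univ.filter (fun d => X.src d = v ∧ X.ed d ∈ F)).card = 2) ∧
  (∀ U : V → Prop, (∀ d, X.ed d ∈ F → (U (X.src d) ↔ U (X.src (X.inv d)))) → ∀ a b, U a → U b)

theorem even_card_of_inv {α : Type} [DecidableEq α] (s : Finset α) (g : α → α) (hg : ∀ a ∈ s, g a ∈ s)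
    (h2 : ∀ a ∈ s, g (g a) = a) (h1 : ∀ a ∈ s, g a ≠ a) : Even s.card := by
  have h : ∑ a ∈ s, (1 : ZMod 2) = 0 := by
    apply Finset.sum_involution (fun a _ => g a)
    · intro a _; decide
    · intro a ha _; exact h1 a ha
    · intro a ha; exact hg a ha
    · intro a ha; exact h2 a ha
  simp only [sum_const, nsmul_eq_mul, mul_one] at h
  exact (ZMod.natCast_eq_zero_iff_even).1 h

/-- the number of cubic vertices is even -/
theorem even_cubic (X : DG V D E) (hX : X.Sub) : Even (univ.filter (fun v => X.deg v = 3)).card := by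
  have h1 : Even (Fintype.card D) :=
    even_card_of_inv univ X.inv (fun _ _ => mem_univ _) (fun a _ => X.inv_inv a) (fun a _ => X.inv_ne a)
  have h2 : Fintype.card D = ∑ v, X.deg v := by
    rw [← card_univ, card_eq_sum_ones, sum_src X]
    apply sum_congr rfl
    intro v _
    unfold DG.deg
    rw [card_eq_sum_ones]
  have h3 : ∑ v, X.deg v = ∑ v, (2 + if X.deg v = 3 then 1 else 0) := by
    apply sum_congr rfl
    intro v _
    rcases hX v with h | h <;> simp [h]
  rw [h2, h3, sum_add_distrib, ← card_filter] at h1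
  simp only [sum_const, smul_eq_mul] at h1
  have : Even (card (univ : Finset V) * 2) := Nat.even_mul.2 (Or.inr even_two)
  exact (Nat.even_add.1 h1).1 this

open scoped Classical in
/-- swapping the colours 1 and 2 on the edges with a vertex in `U` -/
noncomputable def swapU (X : DG V D E) (U : V → Prop) (h : E → Fin 3) : E → Fin 3 :=
  fun e => if U (X.src (X.pe e)) then - h e else h e

/-- the set of colourings with all degree-2 vertices off colour 0 and support `F` -/
def DG.YF (X : DG V D E) (F : Finset E) (h : E → Fin 3) : Prop :=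
  X.Tait h ∧ (∀ v, X.deg v = 2 → h (X.ed (X.base v)) ≠ 0) ∧ (∀ e, h e ≠ 0 ↔ e ∈ F)

open scoped Classical in
theorem swap_ed (X : DG V D E) (U : V → Prop) (F : Finset E)
    (hU : ∀ d, X.ed d ∈ F → (U (X.src d) ↔ U (X.src (X.inv d)))) (h : E → Fin 3)
    (hF : ∀ e, h e ≠ 0 ↔ e ∈ F) (d : D) :
    swapU X U h (X.ed d) = if U (X.src d) then - h (X.ed d) else h (X.ed d) := by
  unfold swapU
  by_cases he : X.ed d ∈ F
  · have : U (X.src (X.pe (X.ed d))) ↔ U (X.src d) := by
      rcases dart_cases X d with h1 | h1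
      · rw [← h1]
      · have h2 : X.pe (X.ed d) = X.inv d := by
          have := congrArg X.inv h1
          rw [X.inv_inv] at this
          exact this.symm
        rw [h2]
        exact (hU d he).symm
    by_cases hu : U (X.src d)
    · rw [if_pos hu, if_pos (this.2 hu)]
    · rw [if_neg hu, if_neg (fun h => hu (this.1 h))]
  · have h0 : h (X.ed d) = 0 := by
      by_contra h'
      exact he ((hF _).1 h')
    rw [h0]
    simp

open scoped Classical in
theorem swap_mem (X : DG V D E) (U : V → Prop) (F : Finset E)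
    (hU : ∀ d, X.ed d ∈ F → (U (X.src d) ↔ U (X.src (X.inv d)))) (h : E → Fin 3)
    (hY : X.YF F h) : X.YF F (swapU X U h) := by
  obtain ⟨hT, h0, hF⟩ := hY
  have hs := swap_ed X U F hU h hF
  refine ⟨⟨?_, ?_⟩, ?_, ?_⟩
  · intro v hv
    rw [hs, hs, hs, X.src_base, src_b1, src_b2]
    by_cases hu : U v
    · simp only [if_pos hu]
      rw [eps_neg]
      exact neg_ne_zero.2 (hT.1 v hv)
    · simp only [if_neg hu]
      exact hT.1 v hv
  · intro v hv
    rw [hs, hs, X.src_base, src_b1, hT.2 v hv]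
  · intro v hv
    rw [hs, X.src_base]
    by_cases hu : U v
    · rw [if_pos hu]; exact neg_ne_zero.2 (h0 v hv)
    · rw [if_neg hu]; exact h0 v hv
  · intro e
    rw [← hF e]
    unfold swapU
    by_cases hu : U (X.src (X.pe e))
    · rw [if_pos hu]; exact neg_ne_zero
    · rw [if_neg hu]

open scoped Classical in
theorem swap_swap (X : DG V D E) (U : V → Prop) (h : E → Fin 3) :
    swapU X U (swapU X U h) = h := by
  funext e
  unfold swapU
  by_cases hu : U (X.src (X.pe e))
  · simp [hu]
  · simp [hu]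

open scoped Classical in
/-- the number of cubic vertices in `U` is even -/
theorem even_cubic_U (X : DG V D E) (hX : X.Sub) (U : V → Prop) (F : Finset E)
    (hU : ∀ d, X.ed d ∈ F → (U (X.src d) ↔ U (X.src (X.inv d)))) (h : E → Fin 3)
    (hY : X.YF F h) : Even (univ.filter (fun v => X.deg v = 3 ∧ U v)).card := by
  obtain ⟨hT, h0, hF⟩ := hY
  have h1 : Even (univ.filter (fun d => h (X.ed d) = 1 ∧ U (X.src d))).card := by
    apply even_card_of_inv _ X.inv
    · intro d hd
      rw [mem_filter] at hd ⊢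
      refine ⟨mem_univ _, ?_, ?_⟩
      · rw [ed_inv]; exact hd.2.1
      · exact (hU d ((hF _).1 (by rw [hd.2.1]; decide))).1 hd.2.2
    · intro d _; exact X.inv_inv d
    · intro d _; exact X.inv_ne d
  have h2 : (univ.filter (fun d => h (X.ed d) = 1 ∧ U (X.src d))).card
      = ∑ v, ∑ d ∈ univ.filter (fun d => X.src d = v), (if h (X.ed d) = 1 ∧ U (X.src d) then 1 else 0) := by
    rw [card_filter, sum_src X]
  have h3 : ∀ v, ∑ d ∈ univ.filter (fun d => X.src d = v), (if h (X.ed d) = 1 ∧ U (X.src d) then 1 else 0)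
      = 2 * (if X.deg v = 2 ∧ h (X.ed (X.base v)) = 1 ∧ U v then 1 else 0) +
        (if X.deg v = 3 ∧ U v then 1 else 0) := by
    intro v
    rcases hX v with hv | hv
    · rw [sum2 X v hv, X.src_base, src_b1, ← hT.2 v hv]
      have h3 : ¬ X.deg v = 3 := by omega
      by_cases q : h (X.ed (X.base v)) = 1 <;> by_cases u : U v <;> simp [hv, q, u]
    · rw [sum3 X v hv, X.src_base, src_b1, src_b2]
      have h3 : ¬ X.deg v = 2 := by omega
      by_cases u : U v
      · have : ∀ a b c : Fin 3, eps a b c ≠ 0 → (if a = 1 then 1 else 0) + (if b = 1 then 1 else 0)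
          + (if c = 1 then 1 else 0) = 1 := by decide
        have h5 := this _ _ _ (hT.1 v hv)
        simp only [u, and_true, hv]
        rw [h5]
        simp
      · simp [u]
  simp only [h3] at h2
  rw [sum_add_distrib, ← mul_sum, ← card_filter] at h2
  rw [h2] at h1
  have h5 := (Nat.even_add.1 h1).1 (even_two_mul _)
  rw [card_filter]
  exact h5

open scoped Classical in
theorem swap_sgn (X : DG V D E) (hX : X.Sub) (U : V → Prop) (F : Finset E)
    (hU : ∀ d, X.ed d ∈ F → (U (X.src d) ↔ U (X.src (X.inv d)))) (h : E → Fin 3)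
    (hY : X.YF F h) : X.sgn (swapU X U h) = X.sgn h := by
  have hs := swap_ed X U F hU h hY.2.2
  have he := even_cubic_U X hX U F hU h hY
  have h1 : X.sgn (swapU X U h) = (∏ v, if X.deg v = 3 ∧ U v then (-1 : ℤ) else 1) * X.sgn h := by
    unfold DG.sgn
    rw [← prod_mul_distrib]
    apply prod_congr rfl
    intro v _
    by_cases hv : X.deg v = 3
    · rw [if_pos hv, if_pos hv, hs, hs, hs, X.src_base, src_b1, src_b2]
      by_cases hu : U v
      · simp only [if_pos hu, if_pos (⟨hv, hu⟩ : X.deg v = 3 ∧ U v)]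
        rw [eps_neg]; ring
      · simp only [if_neg hu, if_neg (fun h' : X.deg v = 3 ∧ U v => hu h'.2)]
        ring
    · rw [if_neg hv, if_neg hv, if_neg (fun h' => hv h'.1)]; ring
  rw [h1, ← prod_filter, prod_const, he.neg_one_pow, one_mul]

theorem neg_ne_self3 : ∀ a : Fin 3, a ≠ 0 → -a ≠ a := by decide
theorem ne_zero_cases : ∀ a : Fin 3, a ≠ 0 → a = 1 ∨ a = 2 := by decide

open scoped Classical in
noncomputable def DG.YS (X : DG V D E) (F : Finset E) (P : (E → Fin 3) → Prop) : Finset (E → Fin 3) :=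
  univ.filter (fun h : E → Fin 3 => X.YF F h ∧ P h)

theorem mem_YS (X : DG V D E) (F : Finset E) (P : (E → Fin 3) → Prop) (h : E → Fin 3) :
    h ∈ X.YS F P ↔ X.YF F h ∧ P h := by
  unfold DG.YS; simp

/-- split by the colour of a dart that is swapped by a sign-preserving involution -/
theorem split_YS (X : DG V D E) (hX : X.Sub) (F : Finset E) (P : (E → Fin 3) → Prop) (W : V → Prop) (d : D)
    (hd : X.ed d ∈ F) (hw : W (X.src d))
    (hW : ∀ d, X.ed d ∈ F → (W (X.src d) ↔ W (X.src (X.inv d))))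
    (hP : ∀ h, X.YF F h → P h → P (swapU X W h)) :
    ∑ h ∈ X.YS F P, X.sgn h = 2 * ∑ h ∈ X.YS F (fun h => P h ∧ h (X.ed d) = 1), X.sgn h := by
  have e1 : ∑ h ∈ X.YS F P, X.sgn h = ∑ h ∈ X.YS F (fun h => P h ∧ h (X.ed d) = 1), X.sgn h
      + ∑ h ∈ X.YS F (fun h => P h ∧ h (X.ed d) = 2), X.sgn h := by
    rw [← sum_union]
    · apply sum_congr _ (fun _ _ => rfl)
      ext h
      simp only [mem_union, mem_YS]
      constructor
      · rintro ⟨a, b⟩
        rcases ne_zero_cases _ ((a.2.2 _).2 hd) with c | c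
        · left; exact ⟨a, b, c⟩
        · right; exact ⟨a, b, c⟩
      · rintro (⟨a, b, _⟩ | ⟨a, b, _⟩) <;> exact ⟨a, b⟩
    · rw [disjoint_left]
      intro h ha hb
      rw [mem_YS] at ha hb
      have := ha.2.2.symm.trans hb.2.2
      exact absurd this (by decide)
  have e2 : ∑ h ∈ X.YS F (fun h => P h ∧ h (X.ed d) = 2), X.sgn h
      = ∑ h ∈ X.YS F (fun h => P h ∧ h (X.ed d) = 1), X.sgn h := by
    apply sum_bij' (fun h _ => swapU X W h) (fun h _ => swapU X W h)
    · intro h hh
      rw [mem_YS] at hh ⊢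
      refine ⟨swap_mem X W F hW h hh.1, hP h hh.1 hh.2.1, ?_⟩
      rw [swap_ed X W F hW h hh.1.2.2, if_pos hw, hh.2.2]
      decide
    · intro h hh
      rw [mem_YS] at hh ⊢
      refine ⟨swap_mem X W F hW h hh.1, hP h hh.1 hh.2.1, ?_⟩
      rw [swap_ed X W F hW h hh.1.2.2, if_pos hw, hh.2.2]
      decide
    · intro h _; exact swap_swap X W h
    · intro h _; exact swap_swap X W h
    · intro h hh
      rw [mem_YS] at hh
      exact (swap_sgn X hX W F hW h hh.1).symm
  rw [e1, e2]; ring

/-- disconnected supports contribute a multiple of 4 -/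
theorem A_disc (X : DG V D E) (hX : X.Sub) (F : Finset E) (U : V → Prop)
    (hU : ∀ d, X.ed d ∈ F → (U (X.src d) ↔ U (X.src (X.inv d)))) (d1 d2 : D)
    (h1 : X.ed d1 ∈ F) (h2 : X.ed d2 ∈ F) (hu1 : U (X.src d1)) (hu2 : ¬ U (X.src d2)) :
    ∃ m : ℤ, ∑ h ∈ X.YS F (fun _ => True), X.sgn h = 4 * m := by
  have s1 := split_YS X hX F (fun _ => True) (fun _ => True) d1 h1 trivial (fun _ _ => Iff.rfl)
    (fun _ _ h => h)
  have s2 := split_YS X hX F (fun h => True ∧ h (X.ed d1) = 1) (fun v => ¬ U v) d2 h2 hu2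
    (fun d hd => not_congr (hU d hd)) (by
      intro h hh hp
      refine ⟨trivial, ?_⟩
      rw [swap_ed X _ F (fun d hd => not_congr (hU d hd)) h hh.2.2, if_neg (not_not.2 hu1)]
      exact hp.2)
  exact ⟨_, by rw [s1, s2]; ring⟩

end Pool.Agent.GRZ
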