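import Pool.Agent.GRZ.Ham

set_option autoImplicit false

namespace Pool.Agent.GRZ

open Finset

variable {V D E : Type} [Fintype V] [DecidableEq V] [Fintype D] [DecidableEq D] [Fintype E] [DecidableEq E]

/-- incidence matrix of `F` -/
def incF (X : DG V D E) (F : Finset E) : Matrix V E (ZMod 2) := fun v e =>
  if e ∈ F then inc X v e else 0

theorem incF_mulVec (X : DG V D E) (F : Finset E) (x : E → ZMod 2) (v : V) :
    (incF X F).mulVec x v = ∑ d ∈ univ.filter (fun d => X.src d = v), (if X.ed d ∈ F then x (X.ed d) else 0) := by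
  rw [← inc_mulVec X (fun e => if e ∈ F then x e else 0) v]
  unfold Matrix.mulVec dotProduct incF
  apply sum_congr rfl
  intro e _
  by_cases he : e ∈ F
  · simp [he]
  · simp [he]

theorem incF_transpose (X : DG V D E) (F : Finset E) (y : V → ZMod 2) (e : E) (he : e ∈ F) :
    (incF X F).transpose.mulVec y e = y (X.src (X.pe e)) + y (X.src (X.inv (X.pe e))) := by
  rw [← inc_transpose_mulVec X y e]
  unfold Matrix.mulVec dotProduct incF
  apply sum_congr rfl
  intro v _
  simp [Matrix.transpose_apply, he]

theorem exists_x (X : DG V D E) (hX : X.Sub) (F : Finset E) (hF : X.HamF F) [Nonempty V] :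
    ∃ x : E → ZMod 2, ∀ v, ∑ d ∈ univ.filter (fun d => X.src d = v), (if X.ed d ∈ F then x (X.ed d) else 0)
      = if X.deg v = 3 then 1 else 0 := by
  classical
  have h2 : ∀ a b : ZMod 2, a + b = 0 → b = a := by decide
  have hker : Module.finrank (ZMod 2) (LinearMap.ker (incF X F).transpose.mulVecLin) ≤ 1 := by
    apply finrank_le_one_of_const
    intro y hy i j
    rw [LinearMap.mem_ker] at hy
    have hk : ∀ e ∈ F, y (X.src (X.pe e)) + y (X.src (X.inv (X.pe e))) = 0 := by
      intro e he
      rw [← incF_transpose X F y e he]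
      exact congrFun hy e
    have hd : ∀ d, X.ed d ∈ F → y (X.src d) = y (X.src (X.inv d)) := by
      intro d hd
      have h := hk _ hd
      rcases dart_cases X d with h1 | h1
      · rw [← h1] at h
        exact (h2 _ _ h).symm
      · have h3 : X.pe (X.ed d) = X.inv d := by
          have := congrArg X.inv h1
          rw [X.inv_inv] at this
          exact this.symm
        rw [h3, X.inv_inv] at h
        exact h2 _ _ h
    have hU := hF.2 (fun v => y v = 1) (fun d h => by rw [hd d h])
    have hz : ∀ a : ZMod 2, a = 0 ∨ a = 1 := by decide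
    rcases hz (y i) with hi | hi <;> rcases hz (y j) with hj | hj
    · rw [hi, hj]
    · exact absurd (hi.symm.trans (hU j i hj)) (by decide)
    · exact absurd (hj.symm.trans (hU i j hi)) (by decide)
    · rw [hi, hj]
  let L : (V → ZMod 2) →ₗ[ZMod 2] ZMod 2 :=
    { toFun := fun y => ∑ v, y v
      map_add' := fun a b => by simp [sum_add_distrib]
      map_smul' := fun a b => by simp [mul_sum] }
  have hL : LinearMap.range L = ⊤ := by
    rw [LinearMap.range_eq_top]
    intro a
    obtain ⟨v⟩ := (inferInstance : Nonempty V)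
    exact ⟨Pi.single v a, by show ∑ w, (Pi.single v a : V → ZMod 2) w = a; simp⟩
  have e1 := LinearMap.finrank_range_add_finrank_ker L
  have e2 := LinearMap.finrank_range_add_finrank_ker (incF X F).transpose.mulVecLin
  have e3 : Module.finrank (ZMod 2) (LinearMap.range (incF X F).transpose.mulVecLin)
      = Module.finrank (ZMod 2) (LinearMap.range (incF X F).mulVecLin) := (incF X F).rank_transpose
  rw [Module.finrank_fintype_fun_eq_card] at e1 e2
  rw [hL, finrank_top, Module.finrank_self] at e1
  have hle : LinearMap.range (incF X F).mulVecLin ≤ LinearMap.ker L := by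
    rintro _ ⟨x, rfl⟩
    rw [LinearMap.mem_ker]
    show ∑ v, (incF X F).mulVecLin x v = 0
    simp only [Matrix.mulVecLin_apply, incF_mulVec]
    rw [← sum_src X, sum_darts X]
    apply sum_eq_zero
    intro e _
    rw [ed_inv]
    have : ∀ a : ZMod 2, a + a = 0 := by decide
    exact this _
  have heq : LinearMap.range (incF X F).mulVecLin = LinearMap.ker L := by
    apply Submodule.eq_of_le_of_finrank_le hle
    omega
  have hmem : (fun v => if X.deg v = 3 then (1 : ZMod 2) else 0) ∈ LinearMap.ker L := by
    rw [LinearMap.mem_ker]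
    show ∑ v, (if X.deg v = 3 then (1 : ZMod 2) else 0) = 0
    rw [← Finset.natCast_card_filter]
    exact (ZMod.natCast_eq_zero_iff_even).2 (even_cubic X hX)
  rw [← heq] at hmem
  obtain ⟨x, hx⟩ := hmem
  refine ⟨x, fun v => ?_⟩
  rw [← incF_mulVec]
  exact congrFun hx v

/-- existence of the alternating colouring of a Hamiltonian cycle -/
theorem exists_h0 (X : DG V D E) (hX : X.Sub) (F : Finset E) (hF : X.HamF F) [Nonempty V] :
    ∃ h, X.YF F h := by
  classical
  obtain ⟨x, hx⟩ := exists_x X hX F hF
  let h : E → Fin 3 := fun e => if e ∈ F then (if x e = 0 then 1 else 2) else 0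
  have hin : ∀ e, e ∈ F → h e = if x e = 0 then 1 else 2 := by
    intro e he
    show (if e ∈ F then (if x e = 0 then (1 : Fin 3) else 2) else 0) = _
    rw [if_pos he]
  have hout : ∀ e, e ∉ F → h e = 0 := by
    intro e he
    show (if e ∈ F then (if x e = 0 then (1 : Fin 3) else 2) else 0) = _
    rw [if_neg he]
  have hfc : ∀ v, (univ.filter (fun d => X.src d = v ∧ X.ed d ∈ F)).card
      = ∑ d ∈ univ.filter (fun d => X.src d = v), (if X.ed d ∈ F then 1 else 0) := by
    intro v
    rw [← card_filter, filter_filter]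
  have h01 : ∀ a : ZMod 2, a = 0 ∨ a = 1 := by decide
  refine ⟨h, ⟨?_, ?_⟩, ?_, ?_⟩
  · intro v hv
    have h1 := hF.1 v
    have h2 := hx v
    rw [hfc, sum3 X v hv] at h1
    rw [sum3 X v hv, if_pos hv] at h2
    by_cases a : X.ed (X.base v) ∈ F <;> by_cases b : X.ed (X.b1 v) ∈ F <;>
      by_cases c : X.ed (X.b2 v) ∈ F
    · simp [a, b, c] at h1
    · rw [if_pos a, if_pos b, if_neg c] at h2
      rw [hin _ a, hin _ b, hout _ c]
      rcases h01 (x (X.ed (X.base v))) with p | p <;> rcases h01 (x (X.ed (X.b1 v))) with q | q <;>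
        rw [p, q] at h2 ⊢ <;> revert h2 <;> decide
    · rw [if_pos a, if_neg b, if_pos c] at h2
      rw [hin _ a, hout _ b, hin _ c]
      rcases h01 (x (X.ed (X.base v))) with p | p <;> rcases h01 (x (X.ed (X.b2 v))) with q | q <;>
        rw [p, q] at h2 ⊢ <;> revert h2 <;> decide
    · simp [a, b, c] at h1
    · rw [if_neg a, if_pos b, if_pos c] at h2
      rw [hout _ a, hin _ b, hin _ c]
      rcases h01 (x (X.ed (X.b1 v))) with p | p <;> rcases h01 (x (X.ed (X.b2 v))) with q | q <;>
        rw [p, q] at h2 ⊢ <;> revert h2 <;> decide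
    · simp [a, b, c] at h1
    · simp [a, b, c] at h1
    · simp [a, b, c] at h1
  · intro v hv
    have h1 := hF.1 v
    have h2 := hx v
    rw [hfc, sum2 X v hv] at h1
    have h3 : ¬ X.deg v = 3 := by omega
    rw [sum2 X v hv, if_neg h3] at h2
    by_cases a : X.ed (X.base v) ∈ F <;> by_cases b : X.ed (X.b1 v) ∈ F
    · rw [if_pos a, if_pos b] at h2
      rw [hin _ a, hin _ b]
      rcases h01 (x (X.ed (X.base v))) with p | p <;> rcases h01 (x (X.ed (X.b1 v))) with q | q <;>
        rw [p, q] at h2 ⊢ <;> revert h2 <;> decide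
    · simp [a, b] at h1
    · simp [a, b] at h1
    · simp [a, b] at h1
  · intro v hv
    have h1 := hF.1 v
    rw [hfc, sum2 X v hv] at h1
    by_cases a : X.ed (X.base v) ∈ F
    · rw [hin _ a]
      rcases h01 (x (X.ed (X.base v))) with p | p <;> rw [p] <;> decide
    · exfalso
      by_cases b : X.ed (X.b1 v) ∈ F <;> simp [a, b] at h1
  · intro e
    by_cases he : e ∈ F
    · rw [hin _ he]
      refine ⟨fun _ => he, fun _ => ?_⟩
      rcases h01 (x e) with p | p <;> rw [p] <;> decide
    · rw [hout _ he]
      exact ⟨fun h => absurd rfl h, fun h => absurd h he⟩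

end Pool.Agent.GRZ
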