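import Pool.Agent.GRZ.HamB

set_option autoImplicit false

namespace Pool.Agent.GRZ

open Finset

variable {V D E : Type} [Fintype V] [DecidableEq V] [Fintype D] [DecidableEq D] [Fintype E] [DecidableEq E]

theorem agree3 : ∀ a b c a' b' c' : Fin 3, eps a b c ≠ 0 → eps a' b' c' ≠ 0 → (a ≠ 0 ↔ a' ≠ 0) →
    (b ≠ 0 ↔ b' ≠ 0) → (c ≠ 0 ↔ c' ≠ 0) →
    ((a = a' ∧ a ≠ 0) ∨ (b = b' ∧ b ≠ 0) ∨ (c = c' ∧ c ≠ 0)) → a = a' ∧ b = b' ∧ c = c' := by decide

theorem agree_local (X : DG V D E) (hX : X.Sub) (F : Finset E) (h h' : E → Fin 3) (hh : X.YF F h)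
    (hh' : X.YF F h') (v : V) (d d' : D) (hd : X.src d = v) (hd' : X.src d' = v) (hF : X.ed d ∈ F)
    (he : h (X.ed d) = h' (X.ed d)) : h (X.ed d') = h' (X.ed d') := by
  have hs : ∀ e, h e ≠ 0 ↔ h' e ≠ 0 := fun e => (hh.2.2 e).trans (hh'.2.2 e).symm
  have hn := (hh.2.2 _).2 hF
  rcases hX v with h2 | h3
  · have e1 := hh.1.2 v h2
    have e2 := hh'.1.2 v h2
    rcases mem2 X v h2 d hd with p | p <;> rcases mem2 X v h2 d' hd' with q | q <;> rw [p] at he <;> rw [q]
    · exact he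
    · rw [← e1, ← e2]; exact he
    · rw [e1, e2]; exact he
    · exact he
  · have key := agree3 _ _ _ _ _ _ (hh.1.1 v h3) (hh'.1.1 v h3) (hs _) (hs _) (hs _) (by
      rcases mem3 X v h3 d hd with p | p | p <;> rw [p] at he hn
      · left; exact ⟨he, hn⟩
      · right; left; exact ⟨he, hn⟩
      · right; right; exact ⟨he, hn⟩)
    rcases mem3 X v h3 d' hd' with q | q | q <;> rw [q]
    · exact key.1
    · exact key.2.1
    · exact key.2.2

theorem agree_all (X : DG V D E) (hX : X.Sub) (F : Finset E) (hF : X.HamF F) (h h' : E → Fin 3)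
    (hh : X.YF F h) (hh' : X.YF F h') (d : D) (hd : X.ed d ∈ F) (he : h (X.ed d) = h' (X.ed d)) :
    h = h' := by
  have hcl := hF.2 (fun v => ∀ d', X.src d' = v → h (X.ed d') = h' (X.ed d')) (by
    intro d1 h1
    have hi : X.ed (X.inv d1) ∈ F := by rw [ed_inv]; exact h1
    constructor
    · intro hU d' hd'
      apply agree_local X hX F h h' hh hh' _ (X.inv d1) d' rfl hd' hi
      rw [ed_inv]
      exact hU d1 rfl
    · intro hU d' hd'
      apply agree_local X hX F h h' hh hh' _ d1 d' rfl hd' h1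
      have := hU (X.inv d1) rfl
      rw [ed_inv] at this
      exact this)
  funext e
  have h1 : ∀ d', X.src d' = X.src d → h (X.ed d') = h' (X.ed d') := fun d' hd' =>
    agree_local X hX F h h' hh hh' _ d d' rfl hd' hd he
  have h2 := hcl (X.src d) (X.src (X.pe e)) h1 (X.pe e) rfl
  rw [X.ed_pe] at h2
  exact h2

/-- a Hamiltonian cycle contributes `2` or `-2` -/
theorem A_ham (X : DG V D E) (hX : X.Sub) (F : Finset E) (hF : X.HamF F) [Nonempty V] :
    ∃ s : ℤ, (s = 1 ∨ s = -1) ∧ ∑ h ∈ X.YS F (fun _ => True), X.sgn h = 2 * s := by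
  obtain ⟨v⟩ := (inferInstance : Nonempty V)
  have hc := hF.1 v
  obtain ⟨d, hd⟩ : (univ.filter (fun d => X.src d = v ∧ X.ed d ∈ F)).Nonempty := by
    rw [← card_pos, hc]; norm_num
  rw [mem_filter] at hd
  obtain ⟨_, _, hd⟩ := hd
  obtain ⟨h0, hh0⟩ := exists_h0 X hX F hF
  have s1 := split_YS X hX F (fun _ => True) (fun _ => True) d hd trivial (fun _ _ => Iff.rfl)
    (fun _ _ h => h)
  obtain ⟨h1, hh1, hc1⟩ : ∃ h1, X.YF F h1 ∧ h1 (X.ed d) = 1 := by
    rcases ne_zero_cases _ ((hh0.2.2 _).2 hd) with c | c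
    · exact ⟨h0, hh0, c⟩
    · refine ⟨swapU X (fun _ => True) h0, swap_mem X _ F (fun _ _ => Iff.rfl) h0 hh0, ?_⟩
      rw [swap_ed X _ F (fun _ _ => Iff.rfl) h0 hh0.2.2, if_pos trivial, c]
      decide
  have hs : X.YS F (fun h => True ∧ h (X.ed d) = 1) = {h1} := by
    ext h
    rw [mem_YS, mem_singleton]
    constructor
    · rintro ⟨a, _, b⟩
      exact agree_all X hX F hF h h1 a hh1 d hd (b.trans hc1.symm)
    · rintro rfl
      exact ⟨hh1, trivial, hc1⟩
  refine ⟨X.sgn h1, ?_, by rw [s1, hs, sum_singleton]⟩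
  unfold DG.sgn
  apply prod_pm
  intro v _
  exact sgn_pm X h1 hh1.1 v

/-- each support contributes, modulo 4, twice the indicator of Hamiltonicity -/
theorem A_mod (X : DG V D E) (hX : X.Sub) (F : Finset E) [Nonempty V] [DecidablePred X.HamF] :
    (4 : ℤ) ∣ ∑ h ∈ X.YS F (fun _ => True), X.sgn h - 2 * (if X.HamF F then 1 else 0) := by
  by_cases hF : X.HamF F
  · obtain ⟨s, hs, hsum⟩ := A_ham X hX F hF
    rw [hsum, if_pos hF]
    rcases hs with rfl | rfl
    · exact ⟨0, by norm_num⟩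
    · exact ⟨-1, by norm_num⟩
  · rw [if_neg hF, mul_zero, sub_zero]
    rcases (X.YS F (fun _ => True)).eq_empty_or_nonempty with h0 | ⟨h, hh⟩
    · rw [h0, sum_empty]; exact dvd_zero _
    · rw [mem_YS] at hh
      obtain ⟨hY, _⟩ := hh
      obtain ⟨hT, hz, hs⟩ := hY
      have hreg : ∀ v, (univ.filter (fun d => X.src d = v ∧ X.ed d ∈ F)).card = 2 := by
        intro v
        have hfc : (univ.filter (fun d => X.src d = v ∧ X.ed d ∈ F)).card
            = ∑ d ∈ univ.filter (fun d => X.src d = v), (if X.ed d ∈ F then 1 else 0) := by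
          rw [← card_filter, filter_filter]
        have hfc2 : ∀ d, (if X.ed d ∈ F then 1 else 0 : ℕ) = if h (X.ed d) ≠ 0 then 1 else 0 := by
          intro d
          by_cases hd : X.ed d ∈ F
          · rw [if_pos hd, if_pos ((hs _).2 hd)]
          · rw [if_neg hd, if_neg (fun h' => hd ((hs _).1 h'))]
        simp only [hfc2] at hfc
        rw [hfc]
        rcases hX v with h2 | h3
        · rw [sum2 X v h2, ← hT.2 v h2, if_pos (hz v h2)]
        · rw [sum3 X v h3]
          have : ∀ a b c : Fin 3, eps a b c ≠ 0 → (if a ≠ 0 then 1 else 0) + (if b ≠ 0 then 1 else 0)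
            + (if c ≠ 0 then 1 else 0) = 2 := by decide
          exact this _ _ _ (hT.1 v h3)
      have hU : ¬ ∀ U : V → Prop, (∀ d, X.ed d ∈ F → (U (X.src d) ↔ U (X.src (X.inv d)))) →
          ∀ a b, U a → U b := fun h' => hF ⟨hreg, h'⟩
      push Not at hU
      obtain ⟨U, hU, a, b, ha, hb⟩ := hU
      have hex : ∀ v, ∃ d, X.src d = v ∧ X.ed d ∈ F := by
        intro v
        obtain ⟨d, hd⟩ : (univ.filter (fun d => X.src d = v ∧ X.ed d ∈ F)).Nonempty := by
          rw [← card_pos, hreg v]; norm_num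
        rw [mem_filter] at hd
        exact ⟨d, hd.2⟩
      obtain ⟨d1, e1, f1⟩ := hex a
      obtain ⟨d2, e2, f2⟩ := hex b
      obtain ⟨m, hm⟩ := A_disc X hX F U hU d1 d2 f1 f2 (by rw [e1]; exact ha) (by rw [e2]; exact hb)
      rw [hm]
      exact ⟨m, rfl⟩

end Pool.Agent.GRZ
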