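import Pool.Agent.GRZ.HamD

set_option autoImplicit false

namespace Pool.Agent.GRZ

open Finset

variable {V D E : Type} [Fintype V] [DecidableEq V] [Fintype D] [DecidableEq D] [Fintype E] [DecidableEq E]

/-- an orthogonal matrix that diagonalises `J - I` -/
theorem exists_OJ' : ∃ O : Fin 3 → Fin 3 → ℝ,
    (∀ a b, ∑ i, O i a * O i b = if a = b then 1 else 0) ∧
    (∀ i j, ∑ a, O i a * O j a = if i = j then 1 else 0) ∧
    det3 O = -1 ∧ ∀ a b, ∑ i, jt i * (O i a * O i b) = if a = b then 0 else 1 := by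
  obtain ⟨c, hc, c0⟩ : ∃ c : ℝ, c * c = 1 / 3 ∧ 0 ≤ c :=
    ⟨Real.sqrt (1 / 3), Real.mul_self_sqrt (by norm_num), Real.sqrt_nonneg _⟩
  obtain ⟨s, hs, s0⟩ : ∃ s : ℝ, s * s = 2 / 3 ∧ 0 ≤ s :=
    ⟨Real.sqrt (2 / 3), Real.mul_self_sqrt (by norm_num), Real.sqrt_nonneg _⟩
  obtain ⟨q, hq, q0⟩ : ∃ q : ℝ, q * q = 1 / 2 ∧ 0 ≤ q :=
    ⟨Real.sqrt (1 / 2), Real.mul_self_sqrt (by norm_num), Real.sqrt_nonneg _⟩
  have hm : c * s * q = 1 / 3 := by
    have h1 : (c * s * q) * (c * s * q) = (1 / 3) * (1 / 3) := by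
      have : (c * s * q) * (c * s * q) = (c * c) * (s * s) * (q * q) := by ring
      rw [this, hc, hs, hq]; norm_num
    have h2 : 0 ≤ c * s * q := mul_nonneg (mul_nonneg c0 s0) q0
    nlinarith
  refine ⟨![![c, s * q, s * q], ![-s, c * q, c * q], ![0, q, -q]], ?_, ?_, ?_, ?_⟩
  · intro a b
    fin_cases a <;> fin_cases b <;> simp [Fin.sum_univ_three] <;> nlinarith
  · have h5 : s * q * (c * q) = s * c / 2 := by
      have : s * q * (c * q) = s * c * (q * q) := by ring
      rw [this, hq]; ring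
    have h6 : c * q * (s * q) = s * c / 2 := by
      have : c * q * (s * q) = s * c * (q * q) := by ring
      rw [this, hq]; ring
    intro a b
    fin_cases a <;> fin_cases b <;> simp [Fin.sum_univ_three] <;> nlinarith
  · unfold det3
    simp
    have : c * (-(c * q * q) - c * q * q) - s * q * (s * q) + -(s * q * (s * q))
        = -(c * c + s * s) * (2 * (q * q)) := by ring
    rw [this, hc, hs, hq]; norm_num
  · intro a b
    fin_cases a <;> fin_cases b <;> simp [Fin.sum_univ_three, jt] <;> nlinarith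

/-- **The full identity**: signed proper colourings against signed straight colourings. -/
theorem full_identity (X : DG V D E) (hX : X.Sub) :
    ∑ x : E → Fin 3, (∏ v, (if X.deg v = 3 then
        eps (x (X.ed (X.base v))) (x (X.ed (X.b1 v))) (x (X.ed (X.b2 v)))
      else if x (X.ed (X.base v)) = x (X.ed (X.b1 v)) then jz (x (X.ed (X.base v))) else 0))
    = ∑ x : E → Fin 3, (∏ v, (if X.deg v = 3 then
        eps (x (X.ed (X.base v))) (x (X.ed (X.b1 v))) (x (X.ed (X.b2 v)))
      else if x (X.ed (X.base v)) = x (X.ed (X.b1 v)) then 0 else 1)) := by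
  obtain ⟨O, hcol, hrow, hdet, hT⟩ := exists_OJ'
  let T : Fin 3 → Fin 3 → ℝ := fun a b => ∑ x, jt x * (O x a * O x b)
  have hTv : ∀ a b, T a b = if a = b then 0 else 1 := hT
  let I : Fin 3 → Fin 3 → ℝ := fun a b => if a = b then 1 else 0
  have hI : ∀ a b : Fin 3, ∑ x, I x a * I x b = if a = b then 1 else 0 := by
    intro a b
    fin_cases a <;> fin_cases b <;> simp [Fin.sum_univ_three, I]
  have n1 := net X hX (fun _ a b c => ((eps a b c : ℤ) : ℝ)) (fun _ => T) (fun _ => O) (fun _ _ => 1)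
  have n2 := net X hX (fun _ a b c => ((eps a b c : ℤ) : ℝ)) (fun _ => T) (fun _ => I) (fun _ _ => 1)
  simp only [one_mul, prod_const_one] at n1 n2
  simp only [hcol] at n1
  simp only [hI] at n2
  have n3 := n1.trans n2.symm
  have hT2 : ∀ y z, ∑ a, ∑ b, T a b * (O y a * O z b) = if y = z then jt y else 0 :=
    fun y z => quad_sum O hrow jt y z
  have hT3 : ∀ y z, ∑ a, ∑ b, T a b * (I y a * I z b) = if y = z then 0 else 1 := by
    intro y z
    rw [← hTv y z]
    fin_cases y <;> fin_cases z <;> simp [Fin.sum_univ_three, I]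
  have hdI : det3 I = 1 := by
    unfold det3
    simp [I]
  simp only [eps_sum, hT2, hT3, hdet, hdI] at n3
  have hs : ∀ x : E → Fin 3, (∏ v, (if X.deg v = 3 then
        (-1 : ℝ) * ((eps (x (X.ed (X.base v))) (x (X.ed (X.b1 v))) (x (X.ed (X.b2 v))) : ℤ) : ℝ)
      else if x (X.ed (X.base v)) = x (X.ed (X.b1 v)) then jt (x (X.ed (X.base v))) else 0))
      = (∏ v, (if X.deg v = 3 then
        ((eps (x (X.ed (X.base v))) (x (X.ed (X.b1 v))) (x (X.ed (X.b2 v))) : ℤ) : ℝ)
      else if x (X.ed (X.base v)) = x (X.ed (X.b1 v)) then jt (x (X.ed (X.base v))) else 0)) := by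
    intro x
    have h1 : ∀ v, (if X.deg v = 3 then
        (-1 : ℝ) * ((eps (x (X.ed (X.base v))) (x (X.ed (X.b1 v))) (x (X.ed (X.b2 v))) : ℤ) : ℝ)
      else if x (X.ed (X.base v)) = x (X.ed (X.b1 v)) then jt (x (X.ed (X.base v))) else 0)
      = (if X.deg v = 3 then (-1 : ℝ) else 1) * (if X.deg v = 3 then
        ((eps (x (X.ed (X.base v))) (x (X.ed (X.b1 v))) (x (X.ed (X.b2 v))) : ℤ) : ℝ)
      else if x (X.ed (X.base v)) = x (X.ed (X.b1 v)) then jt (x (X.ed (X.base v))) else 0) := by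
      intro v
      by_cases hv : X.deg v = 3
      · simp only [if_pos hv]
      · simp only [if_neg hv, one_mul]
    simp only [h1, prod_mul_distrib]
    rw [← prod_filter, prod_const, (even_cubic X hX).neg_one_pow, one_mul]
  simp only [hs, one_mul] at n3
  simp only [jt_cast] at n3
  have n4 : ((∑ x : E → Fin 3, (∏ v, (if X.deg v = 3 then
        eps (x (X.ed (X.base v))) (x (X.ed (X.b1 v))) (x (X.ed (X.b2 v)))
      else if x (X.ed (X.base v)) = x (X.ed (X.b1 v)) then jz (x (X.ed (X.base v))) else 0)) : ℤ) : ℝ)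
    = ((∑ x : E → Fin 3, (∏ v, (if X.deg v = 3 then
        eps (x (X.ed (X.base v))) (x (X.ed (X.b1 v))) (x (X.ed (X.b2 v)))
      else if x (X.ed (X.base v)) = x (X.ed (X.b1 v)) then 0 else 1)) : ℤ) : ℝ) := by
    push_cast
    exact n3
  exact_mod_cast n4

end Pool.Agent.GRZ
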