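import Pool.Agent.GRZ.Eps

set_option autoImplicit false

namespace Pool.Agent.GRZ

open Finset

variable {V D E : Type} [Fintype V] [DecidableEq V] [Fintype D] [DecidableEq D] [Fintype E] [DecidableEq E]

/-- the weight of a straight colouring -/
noncomputable def DG.wt {R : Type} [CommRing R] (X : DG V D E) (t : V → Fin 3 → R) (h : E → Fin 3) : R :=
  ∏ v, if X.deg v = 2 then t v (h (X.ed (X.base v))) else 1

/-- a colouring of the darts that is not good contributes nothing -/
theorem term_zero (X : DG V D E) {R : Type} [CommRing R] (M : E → Prop)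
    (τ2 : V → Fin 3 → Fin 3 → R) (hτ : ∀ v a, τ2 v a a = 0) (β : E → Fin 3 → Fin 3 → R)
    (hβ : ∀ e, ¬ M e → ∀ a b, a ≠ b → β e a b = 0) (c : D → Fin 3) (hc : ¬ X.Good M c) :
    (∏ v, X.tau (fun _ a b c => ((eps a b c : ℤ) : R)) τ2 c v) *
      ∏ e, β e (c (X.pe e)) (c (X.inv (X.pe e))) = 0 := by
  by_contra hne
  apply hc
  refine ⟨?_, ?_, ?_⟩
  · intro e he
    by_contra h
    apply hne
    have : ∏ e, β e (c (X.pe e)) (c (X.inv (X.pe e))) = 0 :=
      prod_eq_zero (mem_univ e) (hβ e he _ _ h)
    rw [this, mul_zero]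
  · intro v hv h
    apply hne
    have : ∏ v, X.tau (fun _ a b c => ((eps a b c : ℤ) : R)) τ2 c v = 0 := by
      apply prod_eq_zero (mem_univ v)
      unfold DG.tau
      rw [if_pos hv]
      show ((eps (c (X.base v)) (c (X.b1 v)) (c (X.b2 v)) : ℤ) : R) = 0
      rw [h, Int.cast_zero]
    rw [this, zero_mul]
  · intro v hv h
    apply hne
    have : ∏ v, X.tau (fun _ a b c => ((eps a b c : ℤ) : R)) τ2 c v = 0 := by
      apply prod_eq_zero (mem_univ v)
      unfold DG.tau
      rw [if_neg (by omega), ← h, hτ]
    rw [this, zero_mul]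

/-- the sum over all colourings of the edges, written over the straight colourings -/
theorem sum_tait (X : DG V D E) (hX : X.Sub) {R : Type} [CommRing R] (M : E → Prop) [DecidablePred M]
    (φ : E → Fin 3) (t : V → Fin 3 → R) (C : V → R) (w : E → R) [DecidablePred X.Tait] :
    ∑ x : E → Fin 3, (∏ e, (if M e then (if x e = φ e then w e else 0) else 1)) *
      (∏ v, (if X.deg v = 3 then C v * ((eps (x (X.ed (X.base v))) (x (X.ed (X.b1 v)))
        (x (X.ed (X.b2 v))) : ℤ) : R)
      else if x (X.ed (X.base v)) = x (X.ed (X.b1 v)) then t v (x (X.ed (X.base v))) else 0))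
    = (∏ e, if M e then w e else 1) * (∏ v, if X.deg v = 3 then C v else 1) *
      ∑ x ∈ univ.filter (fun x : E → Fin 3 => X.Tait x ∧ ∀ e, M e → x e = φ e),
        ((X.sgn x : ℤ) : R) * X.wt t x := by
  rw [mul_sum, sum_filter]
  apply sum_congr rfl
  intro x _
  by_cases hx : X.Tait x ∧ ∀ e, M e → x e = φ e
  · rw [if_pos hx]
    have h1 : (∏ e, (if M e then (if x e = φ e then w e else 0) else 1))
        = ∏ e, if M e then w e else 1 := by
      apply prod_congr rfl
      intro e _
      by_cases he : M e
      · rw [if_pos he, if_pos he, if_pos (hx.2 e he)]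
      · rw [if_neg he, if_neg he]
    rw [h1, mul_assoc]
    congr 1
    unfold DG.sgn DG.wt
    push_cast
    rw [← prod_mul_distrib, ← prod_mul_distrib]
    apply prod_congr rfl
    intro v _
    rcases hX v with h | h
    · have h3 : ¬ X.deg v = 3 := by omega
      simp only [h3, if_false, if_pos h, if_pos (hx.1.2 v h)]
      ring
    · have h3 : ¬ X.deg v = 2 := by omega
      simp only [h3, if_false, if_pos h]
      ring
  · rw [if_neg hx]
    by_cases h1 : ∀ e, M e → x e = φ e
    · have h2 : ¬ X.Tait x := fun h => hx ⟨h, h1⟩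
      have : ∏ v, (if X.deg v = 3 then C v * ((eps (x (X.ed (X.base v))) (x (X.ed (X.b1 v)))
          (x (X.ed (X.b2 v))) : ℤ) : R)
        else if x (X.ed (X.base v)) = x (X.ed (X.b1 v)) then t v (x (X.ed (X.base v))) else 0) = 0 := by
        by_contra hne
        apply h2
        refine ⟨?_, ?_⟩
        · intro v hv h
          apply hne
          apply prod_eq_zero (mem_univ v)
          rw [if_pos hv, h, Int.cast_zero, mul_zero]
        · intro v hv
          by_contra h
          apply hne
          apply prod_eq_zero (mem_univ v)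
          rw [if_neg (by omega), if_neg h]
      rw [this, mul_zero]
    · push Not at h1
      obtain ⟨e, he, hne⟩ := h1
      have : ∏ e, (if M e then (if x e = φ e then w e else 0) else (1 : R)) = 0 := by
        apply prod_eq_zero (mem_univ e)
        rw [if_pos he, if_neg hne]
      rw [this, zero_mul]

end Pool.Agent.GRZ
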