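import Pool.Agent.GRZ.Defs

set_option autoImplicit false

namespace Pool.Agent.GRZ

open Finset

variable {V D E : Type} [DecidableEq V] [Fintype D] [DecidableEq D]

theorem src_b1 (X : DG V D E) (v : V) : X.src (X.b1 v) = v := by
  unfold DG.b1; rw [X.src_rot, X.src_base]

theorem src_b2 (X : DG V D E) (v : V) : X.src (X.b2 v) = v := by
  unfold DG.b2; rw [X.src_rot, X.src_rot, X.src_base]

theorem rot_base_ne (X : DG V D E) (v : V) (h : 2 ≤ X.deg v) : X.rot (X.base v) ≠ X.base v := by
  intro hb
  have hsub : (univ.filter (fun d => X.src d = v)) ⊆ {X.base v} := by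
    intro d hd
    simp only [mem_filter, mem_univ, true_and] at hd
    obtain ⟨i, hi⟩ := X.rot_trans (X.base v) d (by rw [X.src_base, hd])
    rw [Equiv.Perm.zpow_apply_eq_self_of_apply_eq_self hb] at hi
    simp [← hi]
  have := card_le_card hsub
  unfold DG.deg at h
  simp at this
  omega

theorem rot2_base_ne (X : DG V D E) (v : V) (h : X.deg v = 3) : X.rot (X.rot (X.base v)) ≠ X.base v := by
  intro hb
  have hsub : (univ.filter (fun d => X.src d = v)) ⊆ {X.base v, X.rot (X.base v)} := by
    intro d hd
    simp only [mem_filter, mem_univ, true_and] at hd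
    obtain ⟨i, hi⟩ := X.rot_trans (X.base v) d (by rw [X.src_base, hd])
    rcases Equiv.Perm.zpow_apply_eq_of_apply_apply_eq_self hb i with h1 | h1
    · rw [h1] at hi; simp [← hi]
    · rw [h1] at hi; simp [← hi]
  have := card_le_card hsub
  have h2 := card_le_two (a := X.base v) (b := X.rot (X.base v))
  unfold DG.deg at h
  omega

theorem deg3_ne (X : DG V D E) (v : V) (h : X.deg v = 3) :
    X.base v ≠ X.b1 v ∧ X.base v ≠ X.b2 v ∧ X.b1 v ≠ X.b2 v := by
  have h1 := rot_base_ne X v (by omega)
  have h2 := rot2_base_ne X v h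
  refine ⟨fun h => h1 h.symm, fun h => h2 h.symm, ?_⟩
  intro h3
  unfold DG.b1 DG.b2 at h3
  exact h1 (X.rot.injective h3).symm

theorem fiber3 (X : DG V D E) (v : V) (h : X.deg v = 3) :
    (univ.filter (fun d => X.src d = v)) = {X.base v, X.b1 v, X.b2 v} := by
  obtain ⟨h1, h2, h3⟩ := deg3_ne X v h
  symm
  apply eq_of_subset_of_card_le
  · intro d hd
    simp only [mem_insert, mem_singleton] at hd
    simp only [mem_filter, mem_univ, true_and]
    rcases hd with rfl | rfl | rfl
    · exact X.src_base v
    · exact src_b1 X v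
    · exact src_b2 X v
  · have : (univ.filter (fun d => X.src d = v)).card = 3 := h
    rw [this, card_eq_three.2 ⟨_, _, _, h1, h2, h3, rfl⟩]

theorem mem3 (X : DG V D E) (v : V) (h : X.deg v = 3) (d : D) (hd : X.src d = v) :
    d = X.base v ∨ d = X.b1 v ∨ d = X.b2 v := by
  have : d ∈ (univ.filter (fun d => X.src d = v)) := by simp [hd]
  rw [fiber3 X v h] at this
  simpa using this

theorem rot_b2 (X : DG V D E) (v : V) (h : X.deg v = 3) : X.rot (X.b2 v) = X.base v := by
  obtain ⟨h1, h2, h3⟩ := deg3_ne X v h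
  rcases mem3 X v h (X.rot (X.b2 v)) (by rw [X.src_rot, src_b2]) with h4 | h4 | h4
  · exact h4
  · exfalso
    exact h2 (X.rot.injective h4).symm
  · exfalso
    have : X.rot (X.b2 v) = X.rot (X.b1 v) := h4
    exact h3 (X.rot.injective this).symm

theorem deg2_ne (X : DG V D E) (v : V) (h : X.deg v = 2) : X.base v ≠ X.b1 v := by
  have h1 := rot_base_ne X v (by omega)
  exact fun h => h1 h.symm

theorem fiber2 (X : DG V D E) (v : V) (h : X.deg v = 2) :
    (univ.filter (fun d => X.src d = v)) = {X.base v, X.b1 v} := by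
  have h1 := deg2_ne X v h
  symm
  apply eq_of_subset_of_card_le
  · intro d hd
    simp only [mem_insert, mem_singleton] at hd
    simp only [mem_filter, mem_univ, true_and]
    rcases hd with rfl | rfl
    · exact X.src_base v
    · exact src_b1 X v
  · have : (univ.filter (fun d => X.src d = v)).card = 2 := h
    rw [this, card_pair h1]

theorem mem2 (X : DG V D E) (v : V) (h : X.deg v = 2) (d : D) (hd : X.src d = v) :
    d = X.base v ∨ d = X.b1 v := by
  have : d ∈ (univ.filter (fun d => X.src d = v)) := by simp [hd]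
  rw [fiber2 X v h] at this
  simpa using this

theorem rot_b1 (X : DG V D E) (v : V) (h : X.deg v = 2) : X.rot (X.b1 v) = X.base v := by
  have h1 := deg2_ne X v h
  rcases mem2 X v h (X.rot (X.b1 v)) (by rw [X.src_rot, src_b1]) with h4 | h4
  · exact h4
  · exfalso
    have : X.rot (X.b1 v) = X.rot (X.base v) := h4
    exact h1 (X.rot.injective this).symm

end Pool.Agent.GRZ
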