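import Pool.Agent.GRZ.Mod9

set_option autoImplicit false

namespace Pool.Agent.GRZ

open Finset

variable {V D E : Type} [Fintype V] [DecidableEq V] [Fintype D] [DecidableEq D] [Fintype E] [DecidableEq E]

/-- a colouring of the darts, proper at the marked vertices and marked edges, straight at the others -/
def DG.Mixed (X : DG V D E) (S : V → Prop) (SE : E → Prop) (c : D → Fin 3) : Prop :=
  (∀ e, ¬ SE e → c (X.pe e) = c (X.inv (X.pe e))) ∧
  (∀ e, SE e → c (X.pe e) ≠ c (X.inv (X.pe e))) ∧
  (∀ v, X.deg v = 3 → eps (c (X.base v)) (c (X.b1 v)) (c (X.b2 v)) ≠ 0) ∧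
  (∀ v, X.deg v = 2 → S v → c (X.base v) ≠ c (X.b1 v)) ∧
  (∀ v, X.deg v = 2 → ¬ S v → c (X.base v) = c (X.b1 v))

/-- the table `J` -/
def jt : Fin 3 → ℝ := ![2, -1, -1]

theorem exists_OJ : ∃ O : Fin 3 → Fin 3 → ℝ,
    (∀ a b, ∑ i, O i a * O i b = if a = b then 1 else 0) ∧
    (∀ i j, ∑ a, O i a * O j a = if i = j then 1 else 0) ∧
    det3 O ≠ 0 ∧ ∀ a, ∑ i, jt i * (O i a * O i a) = 0 := by
  obtain ⟨O, h1, h2, h3, h4⟩ := exists_O 2 (-1) (by norm_num) (by norm_num)
  refine ⟨O, h1, h2, h3, ?_⟩
  intro a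
  have := h4 a
  have e : (![2, -1, -2 - -1] : Fin 3 → ℝ) = jt := by
    unfold jt
    funext i
    fin_cases i
    · rfl
    · rfl
    · simp; norm_num
  rw [e] at this
  exact this

theorem mix_identity (X : DG V D E) (hX : X.Sub) [DecidablePred X.Tait] (S : V → Prop) [DecidablePred S]
    (SE : E → Prop) [DecidablePred SE] (hno : ∀ c, ¬ X.Mixed S SE c) :
    ∑ x ∈ univ.filter (fun x : E → Fin 3 => X.Tait x),
      ((X.sgn x : ℤ) : ℝ) * ((∏ v ∈ univ.filter (fun v => X.deg v = 2 ∧ S v), jt (x (X.ed (X.base v)))) *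
        ∏ e ∈ univ.filter (fun e => SE e), jt (x e)) = 0 := by
  classical
  obtain ⟨O, hcol, hrow, hdet, hT⟩ := exists_OJ
  let T : Fin 3 → Fin 3 → ℝ := fun a b => ∑ x, jt x * (O x a * O x b)
  let I : Fin 3 → Fin 3 → ℝ := fun a b => if a = b then 1 else 0
  have hnet := net X hX (fun _ a b c => ((eps a b c : ℤ) : ℝ))
    (fun v a b => if S v then T a b else I a b) (fun _ => O) (fun e x => if SE e then jt x else 1)
  have hR : ∑ c : D → Fin 3, (∏ v, X.tau (fun _ a b c => ((eps a b c : ℤ) : ℝ))
        (fun v a b => if S v then T a b else I a b) c v) *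
        ∏ e, ∑ x, (if SE e then jt x else 1) * (O x (c (X.pe e)) * O x (c (X.inv (X.pe e)))) = 0 := by
    apply sum_eq_zero
    intro c _
    by_contra hne
    apply hno c
    have hv : ∀ v, X.tau (fun _ a b c => ((eps a b c : ℤ) : ℝ)) (fun v a b => if S v then T a b else I a b) c v ≠ 0 := by
      intro v h
      apply hne
      rw [prod_eq_zero (mem_univ v) h, zero_mul]
    have he : ∀ e, ∑ x, (if SE e then jt x else 1) * (O x (c (X.pe e)) * O x (c (X.inv (X.pe e)))) ≠ 0 := by
      intro e h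
      apply hne
      rw [prod_eq_zero (mem_univ e) h, mul_zero]
    refine ⟨?_, ?_, ?_, ?_, ?_⟩
    · intro e hs
      by_contra hc
      apply he e
      simp only [if_neg hs, one_mul]
      rw [hcol, if_neg hc]
    · intro e hs hc
      apply he e
      simp only [if_pos hs]
      rw [← hc]
      exact hT _
    · intro v hv3 h
      apply hv v
      unfold DG.tau
      rw [if_pos hv3]
      show ((eps (c (X.base v)) (c (X.b1 v)) (c (X.b2 v)) : ℤ) : ℝ) = 0
      rw [h, Int.cast_zero]
    · intro v hv2 hs h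
      apply hv v
      unfold DG.tau
      rw [if_neg (by omega)]
      show (if S v then T (c (X.base v)) (c (X.b1 v)) else I (c (X.base v)) (c (X.b1 v))) = 0
      rw [if_pos hs, ← h]
      exact hT _
    · intro v hv2 hs
      by_contra h
      apply hv v
      unfold DG.tau
      rw [if_neg (by omega)]
      show (if S v then T (c (X.base v)) (c (X.b1 v)) else I (c (X.base v)) (c (X.b1 v))) = 0
      rw [if_neg hs]
      show (if c (X.base v) = c (X.b1 v) then (1 : ℝ) else 0) = 0
      rw [if_neg h]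
  rw [hR] at hnet
  have hT2 : ∀ y z, ∑ a, ∑ b, T a b * (O y a * O z b) = if y = z then jt y else 0 :=
    fun y z => quad_sum O hrow jt y z
  have hI2 : ∀ y z, ∑ a, ∑ b, I a b * (O y a * O z b) = if y = z then 1 else 0 := by
    intro y z
    rw [← hrow y z]
    apply sum_congr rfl
    intro a _
    show ∑ b, (if a = b then (1 : ℝ) else 0) * (O y a * O z b) = _
    simp
  have hterm : ∀ x : E → Fin 3, (∏ e, (if SE e then jt (x e) else 1)) * ∏ v, (if X.deg v = 3 then
      ∑ a, ∑ b, ∑ c, ((eps a b c : ℤ) : ℝ) * (O (x (X.ed (X.base v))) a *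
        O (x (X.ed (X.b1 v))) b * O (x (X.ed (X.b2 v))) c)
      else ∑ a, ∑ b, (if S v then T a b else I a b) * (O (x (X.ed (X.base v))) a *
        O (x (X.ed (X.b1 v))) b))
      = (∏ v, if X.deg v = 3 then det3 O else 1) * (if X.Tait x then ((X.sgn x : ℤ) : ℝ) *
        ((∏ v ∈ univ.filter (fun v => X.deg v = 2 ∧ S v), jt (x (X.ed (X.base v)))) *
        ∏ e ∈ univ.filter (fun e => SE e), jt (x e)) else 0) := by
    intro x
    have h1 : ∀ v, (if X.deg v = 3 then
      ∑ a, ∑ b, ∑ c, ((eps a b c : ℤ) : ℝ) * (O (x (X.ed (X.base v))) a *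
        O (x (X.ed (X.b1 v))) b * O (x (X.ed (X.b2 v))) c)
      else ∑ a, ∑ b, (if S v then T a b else I a b) * (O (x (X.ed (X.base v))) a *
        O (x (X.ed (X.b1 v))) b))
      = (if X.deg v = 3 then det3 O * ((eps (x (X.ed (X.base v))) (x (X.ed (X.b1 v)))
          (x (X.ed (X.b2 v))) : ℤ) : ℝ)
        else if x (X.ed (X.base v)) = x (X.ed (X.b1 v)) then
          (if S v then jt (x (X.ed (X.base v))) else 1) else 0) := by
      intro v
      by_cases h3 : X.deg v = 3
      · simp only [h3, if_true]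
        rw [eps_sum]
      · simp only [h3, if_false]
        by_cases hs : S v
        · simp only [hs, if_true]
          rw [hT2]
        · simp only [hs, if_false]
          rw [hI2]
    simp only [h1]
    by_cases hx : X.Tait x
    · rw [if_pos hx]
      unfold DG.sgn
      rw [prod_filter, prod_filter]
      push_cast
      have h2 : ∀ v, (if X.deg v = 3 then det3 O * ((eps (x (X.ed (X.base v))) (x (X.ed (X.b1 v)))
          (x (X.ed (X.b2 v))) : ℤ) : ℝ)
        else if x (X.ed (X.base v)) = x (X.ed (X.b1 v)) then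
          (if S v then jt (x (X.ed (X.base v))) else 1) else 0)
          = (if X.deg v = 3 then det3 O else 1) * ((if X.deg v = 3 then ((eps (x (X.ed (X.base v)))
            (x (X.ed (X.b1 v))) (x (X.ed (X.b2 v))) : ℤ) : ℝ) else 1) *
            (if X.deg v = 2 ∧ S v then jt (x (X.ed (X.base v))) else 1)) := by
        intro v
        rcases hX v with h | h
        · have h3 : ¬ X.deg v = 3 := by omega
          simp only [if_neg h3, if_pos (hx.2 v h)]
          by_cases hs : S v
          · rw [if_pos hs, if_pos ⟨h, hs⟩]; ring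
          · rw [if_neg hs, if_neg (fun h' => hs h'.2)]; ring
        · have h3 : ¬ (X.deg v = 2 ∧ S v) := by omega
          simp only [if_neg h3, if_pos h]
          ring
      simp only [h2, prod_mul_distrib]
      ring
    · rw [if_neg hx, mul_zero]
      have : ∏ v, (if X.deg v = 3 then det3 O * ((eps (x (X.ed (X.base v))) (x (X.ed (X.b1 v)))
          (x (X.ed (X.b2 v))) : ℤ) : ℝ)
        else if x (X.ed (X.base v)) = x (X.ed (X.b1 v)) then
          (if S v then jt (x (X.ed (X.base v))) else 1) else 0) = 0 := by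
        by_contra hne
        apply hx
        refine ⟨?_, ?_⟩
        · intro v hv h
          apply hne
          apply prod_eq_zero (mem_univ v)
          rw [if_pos hv, h, Int.cast_zero, mul_zero]
        · intro v hv
          by_contra h
          apply hne
          apply prod_eq_zero (mem_univ v)
          rw [if_neg (by omega), if_neg h]
      rw [this, mul_zero]
  have hLHS := hnet
  simp only [hterm] at hLHS
  rw [← mul_sum, ← sum_filter] at hLHS
  rcases mul_eq_zero.1 hLHS with h | h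
  · exfalso
    rw [prod_eq_zero_iff] at h
    obtain ⟨v, _, hv⟩ := h
    by_cases hv3 : X.deg v = 3
    · rw [if_pos hv3] at hv; exact hdet hv
    · rw [if_neg hv3] at hv; exact one_ne_zero hv
  · exact h

def t9 : Fin 3 → ZMod 9 := ![-2, 1, 1]

theorem sum_t9 {ι : Type} (s : Finset ι) (f : ι → Fin 3) :
    ∑ j : Fin 3, ∏ i ∈ s, t9 (f i + j) = 3 * (1 - (s.card : ZMod 9)) := by
  classical
  have h1 : ∀ j : Fin 3, ∏ i ∈ s, t9 (f i + j)
      = 1 - 3 * (((s.filter (fun i => f i + j = 0)).card : ℕ) : ZMod 9) := by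
    intro j
    rw [← pow9, ← prod_const, prod_filter]
    apply prod_congr rfl
    intro v _
    have : ∀ i : Fin 3, t9 i = if i = 0 then -2 else 1 := by decide
    rw [this]
  simp only [h1]
  have h2 : ∑ j : Fin 3, (s.filter (fun i => f i + j = 0)).card = s.card := by
    simp only [card_filter]
    rw [sum_comm, card_eq_sum_ones]
    apply sum_congr rfl
    intro v _
    have : ∀ i : Fin 3, ∑ j : Fin 3, (if i + j = 0 then 1 else 0) = 1 := by decide
    exact this _
  rw [sum_sub_distrib, ← mul_sum, ← Nat.cast_sum, h2]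
  simp
  ring

/-- **Mod 9 with arbitrary marks.** -/
theorem mixed9 (X : DG V D E) (hX : X.Sub) (hE : X.Euler) (hC : X.Conn) [DecidablePred X.Tait] (e0 : E)
    (h9 : ¬ 9 ∣ (univ.filter (fun x : E → Fin 3 => X.Tait x)).card)
    (S : V → Prop) [DecidablePred S] (SE : E → Prop) [DecidablePred SE]
    (hk : ((univ.filter (fun v => X.deg v = 2 ∧ S v)).card + (univ.filter (fun e => SE e)).card) % 3 ≠ 1) :
    ∃ c, X.Mixed S SE c := by
  classical
  by_contra hno
  push Not at hno
  have h0 := mix_identity X hX S SE hno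
  let jz : Fin 3 → ℤ := ![2, -1, -1]
  have hj : ∀ a, jt a = ((jz a : ℤ) : ℝ) := by
    intro a
    fin_cases a <;> simp [jt, jz]
  let A : (E → Fin 3) → ℤ := fun x => (∏ v ∈ univ.filter (fun v => X.deg v = 2 ∧ S v), jz (x (X.ed (X.base v)))) *
        ∏ e ∈ univ.filter (fun e => SE e), jz (x e)
  have h1 : ((∑ x ∈ univ.filter (fun x : E → Fin 3 => X.Tait x), X.sgn x * A x : ℤ) : ℝ) = 0 := by
    rw [← h0]
    push_cast
    apply sum_congr rfl
    intro x _
    congr 1
    simp only [hj]
    show (((∏ v ∈ univ.filter (fun v => X.deg v = 2 ∧ S v), jz (x (X.ed (X.base v)))) *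
        ∏ e ∈ univ.filter (fun e => SE e), jz (x e) : ℤ) : ℝ) = _
    push_cast
    rfl
  have h2 : ∑ x ∈ univ.filter (fun x : E → Fin 3 => X.Tait x), X.sgn x * A x = 0 := by exact_mod_cast h1
  have hTne : (univ.filter (fun x : E → Fin 3 => X.Tait x)).Nonempty := by
    by_contra h
    rw [not_nonempty_iff_eq_empty] at h
    apply h9
    rw [h, card_empty]
    exact dvd_zero _
  obtain ⟨z0, hz0⟩ := hTne
  have hz0' : X.Tait z0 := (mem_filter.1 hz0).2
  have h3 : X.sgn z0 * ∑ x ∈ univ.filter (fun x : E → Fin 3 => X.Tait x), A x = 0 := by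
    rw [← h2, mul_sum]
    apply sum_congr rfl
    intro z hz
    rw [sgn_const X hX hE hC z z0 (mem_filter.1 hz).2 hz0']
  have hsg : X.sgn z0 ≠ 0 := by
    have h2 : X.sgn z0 = 1 ∨ X.sgn z0 = -1 := prod_pm univ _ (fun v _ => sgn_pm X z0 hz0' v)
    rcases h2 with h2 | h2 <;> rw [h2] <;> norm_num
  have h4 : ∑ x ∈ univ.filter (fun x : E → Fin 3 => X.Tait x), A x = 0 := (mul_eq_zero.1 h3).resolve_left hsg
  let s : Finset (V ⊕ E) := (univ.filter (fun v => X.deg v = 2 ∧ S v)).disjSum (univ.filter (fun e => SE e))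
  have hA : ∀ x : E → Fin 3, ((A x : ℤ) : ZMod 9)
      = (-1) ^ s.card * ∏ i ∈ s, t9 (Sum.elim (fun v => x (X.ed (X.base v))) x i) := by
    intro x
    have hjt : ∀ a : Fin 3, ((jz a : ℤ) : ZMod 9) = (-1) * t9 a := by decide
    show (((∏ v ∈ univ.filter (fun v => X.deg v = 2 ∧ S v), jz (x (X.ed (X.base v)))) *
        ∏ e ∈ univ.filter (fun e => SE e), jz (x e) : ℤ) : ZMod 9) = _
    push_cast
    simp only [hjt]
    rw [← prod_const, ← prod_mul_distrib]
    show _ = ∏ i ∈ (univ.filter (fun v => X.deg v = 2 ∧ S v)).disjSum (univ.filter (fun e => SE e)), _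
    rw [prod_disjSum]
    rfl
  have h5 : ∑ x ∈ univ.filter (fun x : E → Fin 3 => X.Tait x), ((A x : ℤ) : ZMod 9) = 0 := by
    have := congrArg (fun z : ℤ => (z : ZMod 9)) h4
    simpa using this
  simp only [hA] at h5
  rw [← mul_sum, sum_shift X e0] at h5
  have h6 : ∀ x : E → Fin 3, ∑ j : Fin 3, ∏ i ∈ s, t9 (Sum.elim (fun v => x (X.ed (X.base v)) + j)
      (fun e => x e + j) i) = 3 * (1 - (s.card : ZMod 9)) := by
    intro x
    rw [← sum_t9 s (Sum.elim (fun v => x (X.ed (X.base v))) x)]
    apply sum_congr rfl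
    intro j _
    apply prod_congr rfl
    intro i _
    cases i <;> rfl
  simp only [h6, sum_const, nsmul_eq_mul] at h5
  have hu : IsUnit ((-1 : ZMod 9) ^ s.card) := (isUnit_one.neg).pow _
  have h7 := (hu.mul_right_eq_zero).1 h5
  refine mod9_ne _ s.card ?_ ?_ h7
  · intro h
    apply h9
    rw [tait_card X e0]
    obtain ⟨m, hm⟩ := h
    exact ⟨m, by rw [hm]; ring⟩
  · have : s.card = (univ.filter (fun v => X.deg v = 2 ∧ S v)).card + (univ.filter (fun e => SE e)).card :=
      card_disjSum _ _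
    rw [this]
    exact hk

end Pool.Agent.GRZ
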