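import Pool.Agent.GRZ.Mix

set_option autoImplicit false

namespace Pool.Agent.GRZ

open Finset

variable {V D E : Type} [Fintype V] [DecidableEq V] [Fintype D] [DecidableEq D] [Fintype E] [DecidableEq E]

/-- a proper edge colouring -/
def DG.Proper (X : DG V D E) (f : E → Fin 3) : Prop :=
  ∀ d d', X.src d = X.src d' → d ≠ d' → f (X.ed d) ≠ f (X.ed d')

theorem ed_inv (X : DG V D E) (d : D) : X.ed (X.inv d) = X.ed d :=
  ((X.ed_eq d (X.inv d)).2 (Or.inr rfl)).symm

theorem good_of_proper (X : DG V D E) (f : E → Fin 3) (hf : X.Proper f) :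
    X.Good (fun _ => False) (fun d => f (X.ed d)) := by
  refine ⟨?_, ?_, ?_⟩
  · intro e _
    show f _ = f _
    rw [ed_inv]
  · intro v hv
    obtain ⟨n1, n2, n3⟩ := deg3_ne X v hv
    rw [eps_ne]
    exact ⟨hf _ _ ((X.src_base v).trans (src_b1 X v).symm) n1,
      hf _ _ ((src_b1 X v).trans (src_b2 X v).symm) n3,
      hf _ _ ((X.src_base v).trans (src_b2 X v).symm) n2⟩
  · intro v hv
    exact hf _ _ ((X.src_base v).trans (src_b1 X v).symm) (deg2_ne X v hv)

theorem mixed_ne (X : DG V D E) (S : V → Prop) (SE : E → Prop) (c : D → Fin 3) (hc : X.Mixed S SE c)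
    (v : V) (hv : X.deg v = 3 ∨ (X.deg v = 2 ∧ S v)) (d d' : D) (h : X.src d = v) (h' : X.src d' = v)
    (hne : d ≠ d') : c d ≠ c d' := by
  obtain ⟨_, _, h3, h2, _⟩ := hc
  rcases hv with hv | ⟨hv, hs⟩
  · have h4 := h3 v hv
    rw [eps_ne] at h4
    obtain ⟨n1, n2, n3⟩ := h4
    rcases mem3 X v hv d h with h1 | h1 | h1 <;> rcases mem3 X v hv d' h' with h1' | h1' | h1'
    · exact absurd (h1.trans h1'.symm) hne
    · rw [h1, h1']; exact n1
    · rw [h1, h1']; exact n3
    · rw [h1, h1']; exact n1.symm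
    · exact absurd (h1.trans h1'.symm) hne
    · rw [h1, h1']; exact n2
    · rw [h1, h1']; exact n3.symm
    · rw [h1, h1']; exact n2.symm
    · exact absurd (h1.trans h1'.symm) hne
  · have h4 := h2 v hv hs
    rcases mem2 X v hv d h with h1 | h1 <;> rcases mem2 X v hv d' h' with h1' | h1'
    · exact absurd (h1.trans h1'.symm) hne
    · rw [h1, h1']; exact h4
    · rw [h1, h1']; exact h4.symm
    · exact absurd (h1.trans h1'.symm) hne

theorem mixed_eq (X : DG V D E) (S : V → Prop) (SE : E → Prop) (c : D → Fin 3) (hc : X.Mixed S SE c)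
    (v : V) (hv : X.deg v = 2) (hs : ¬ S v) (d d' : D) (h : X.src d = v) (h' : X.src d' = v) :
    c d = c d' := by
  have h4 := hc.2.2.2.2 v hv hs
  rcases mem2 X v hv d h with h1 | h1 <;> rcases mem2 X v hv d' h' with h1' | h1' <;> rw [h1, h1']
  · exact h4
  · exact h4.symm

theorem mixed_ed (X : DG V D E) (S : V → Prop) (SE : E → Prop) (c : D → Fin 3) (hc : X.Mixed S SE c)
    (d : D) (h : ¬ SE (X.ed d)) : c (X.pe (X.ed d)) = c d := by
  have h1 := hc.1 (X.ed d) h
  rcases dart_cases X d with h2 | h2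
  · rw [← h2]
  · rw [h1, ← h2]

theorem ed_ne (X : DG V D E) (v : V) (d d' : D) (h' : X.src d' = v)
    (hne : d ≠ d') (hloop : X.src (X.inv d) ≠ v) : X.ed d ≠ X.ed d' := by
  intro he
  rcases (X.ed_eq d d').1 he with h1 | h1
  · exact hne h1.symm
  · apply hloop
    rw [← h1, h']

/-- third colour -/
theorem third (a b : Fin 3) : ∃ t : Fin 3, t ≠ a ∧ t ≠ b := by revert a b; decide

/-- two adjacent vertices of degree 2 -/
theorem near1 (X : DG V D E) (hX : X.Sub) (hE : X.Euler) (hC : X.Conn) [DecidablePred X.Tait]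
    (hloop : ∀ d, X.src (X.inv d) ≠ X.src d)
    (h9 : ¬ 9 ∣ (univ.filter (fun x : E → Fin 3 => X.Tait x)).card) (hk : X.k2 % 3 = 1)
    (d0 : D) (hu : X.deg (X.src d0) = 2) (hw : X.deg (X.src (X.inv d0)) = 2) :
    ∃ c, X.Good (fun _ => False) c := by
  classical
  have hk' : ((univ.filter (fun v => X.deg v = 2 ∧ v ≠ X.src d0)).card +
      (univ.filter (fun _ : E => False)).card) % 3 ≠ 1 := by
    have h1 : (univ.filter (fun v => X.deg v = 2 ∧ v ≠ X.src d0)).card = X.k2 - 1 := by
      have : univ.filter (fun v => X.deg v = 2 ∧ v ≠ X.src d0)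
          = (univ.filter (fun v => X.deg v = 2)).erase (X.src d0) := by
        ext v
        simp only [mem_filter, mem_univ, true_and, mem_erase]
        tauto
      rw [this, card_erase_of_mem (by simp [hu])]
      rfl
    rw [h1]
    simp
    omega
  obtain ⟨c, hc⟩ := mixed9 X hX hE hC (X.ed d0) h9 (fun v => v ≠ X.src d0) (fun _ => False) hk'
  -- the other darts
  have hed : ∀ d, c (X.pe (X.ed d)) = c d := fun d => mixed_ed X _ _ c hc d (fun h => h)
  have hinv : ∀ d, c (X.inv d) = c d := by
    intro d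
    rw [← hed (X.inv d), ed_inv, hed]
  obtain ⟨d2, hd2, hd2ne⟩ : ∃ d2, X.src d2 = X.src (X.inv d0) ∧ d2 ≠ X.inv d0 := by
    have h := deg2_ne X _ hw
    by_cases h1 : X.base (X.src (X.inv d0)) = X.inv d0
    · exact ⟨X.b1 (X.src (X.inv d0)), src_b1 X _, fun h2 => h (h1.trans h2.symm)⟩
    · exact ⟨X.base (X.src (X.inv d0)), X.src_base _, h1⟩
  obtain ⟨t, ht1, ht2⟩ := third (c d0) (c d2)
  refine ⟨fun d => (fun e => if e = X.ed d0 then t else c (X.pe e)) (X.ed d), ?_⟩
  apply good_of_proper X (fun e => if e = X.ed d0 then t else c (X.pe e))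
  intro d d' hs hne
  show (if X.ed d = X.ed d0 then t else c (X.pe (X.ed d))) ≠ (if X.ed d' = X.ed d0 then t else c (X.pe (X.ed d')))
  have key : ∀ d d', X.src d = X.src d' → d ≠ d' → X.ed d = X.ed d0 → X.ed d' ≠ X.ed d0 → t ≠ c d' := by
    intro d d' hs hne h1 h2
    rcases (X.ed_eq d0 d).1 h1.symm with h3 | h3
    · have : c d0 = c d' := mixed_eq X _ _ c hc (X.src d0) hu (by simp) d0 d' rfl (by rw [← hs, h3])
      rw [← this]
      exact ht1
    · have hv : X.src d' = X.src (X.inv d0) := by rw [← hs, h3]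
      have hd' : d' = d2 := by
        rcases mem2 X _ hw d' hv with q | q <;> rcases mem2 X _ hw d2 hd2 with r | r <;>
          rcases mem2 X _ hw (X.inv d0) rfl with p | p
        all_goals first
          | exact q.trans r.symm
          | exact absurd (r.trans p.symm) hd2ne
          | exact absurd (by rw [h3]; exact p.trans q.symm) hne
      rw [hd']
      exact ht2
  by_cases h1 : X.ed d = X.ed d0 <;> by_cases h2 : X.ed d' = X.ed d0
  · exfalso
    exact ed_ne X (X.src d) d d' hs.symm hne (hloop d) (h1.trans h2.symm)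
  · rw [if_pos h1, if_neg h2, hed]
    exact key d d' hs hne h1 h2
  · rw [if_neg h1, if_pos h2, hed]
    exact (key d' d hs.symm hne.symm h2 h1).symm
  · rw [if_neg h1, if_neg h2, hed, hed]
    by_cases hv : X.src d = X.src d0
    · exfalso
      -- one of the two darts is d0
      rcases mem2 X _ hu d hv with q | q <;> rcases mem2 X _ hu d' (hs ▸ hv) with r | r <;>
        rcases mem2 X _ hu d0 rfl with p | p
      all_goals first
        | exact hne (q.trans r.symm)
        | exact h1 (by rw [q.trans p.symm])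
        | exact h2 (by rw [r.trans p.symm])
    · apply mixed_ne X _ _ c hc (X.src d) _ d d' rfl hs.symm hne
      rcases hX (X.src d) with h | h
      · right; exact ⟨h, hv⟩
      · left; exact h

/-- two vertices of degree 2 with a common neighbour of degree 3 -/
theorem near2 (X : DG V D E) (hX : X.Sub) (hE : X.Euler) (hC : X.Conn) [DecidablePred X.Tait]
    (hloop : ∀ d, X.src (X.inv d) ≠ X.src d)
    (hsim : ∀ d d', X.src d = X.src d' → X.src (X.inv d) = X.src (X.inv d') → d = d')
    (h9 : ¬ 9 ∣ (univ.filter (fun x : E → Fin 3 => X.Tait x)).card) (hk : X.k2 % 3 = 1)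
    (d1 d2 : D) (h12 : X.src d1 = X.src d2) (h3 : X.deg (X.src d1) = 3)
    (hu : X.deg (X.src (X.inv d1)) = 2) (hv : X.deg (X.src (X.inv d2)) = 2)
    (huv : X.src (X.inv d1) ≠ X.src (X.inv d2)) :
    ∃ c, X.Good (fun _ => False) c := by
  classical
  have hne12 : d1 ≠ d2 := fun h => huv (by rw [h])
  obtain ⟨g, hg, hg1, hg2⟩ : ∃ g, X.src g = X.src d1 ∧ g ≠ d1 ∧ g ≠ d2 := by
    obtain ⟨n1, n2, n3⟩ := deg3_ne X _ h3
    have s0 := X.src_base (X.src d1)
    have s1 := src_b1 X (X.src d1)
    have s2 := src_b2 X (X.src d1)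
    by_cases a0 : X.base (X.src d1) = d1
    · by_cases a1 : X.b1 (X.src d1) = d2
      · exact ⟨_, s2, fun h => n2 (a0.trans h.symm), fun h => n3 (a1.trans h.symm)⟩
      · exact ⟨_, s1, fun h => n1 (a0.trans h.symm), a1⟩
    · by_cases a1 : X.base (X.src d1) = d2
      · by_cases a2 : X.b1 (X.src d1) = d1
        · exact ⟨_, s2, fun h => n3 (a2.trans h.symm), fun h => n2 (a1.trans h.symm)⟩
        · exact ⟨_, s1, a2, fun h => n1 (a1.trans h.symm)⟩
      · exact ⟨_, s0, a0, a1⟩
  have hk' : ((univ.filter (fun v => X.deg v = 2 ∧ (v ≠ X.src (X.inv d1) ∧ v ≠ X.src (X.inv d2)))).card +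
      (univ.filter (fun e : E => e = X.ed g)).card) % 3 ≠ 1 := by
    have e1 : (univ.filter (fun v => X.deg v = 2 ∧ (v ≠ X.src (X.inv d1) ∧ v ≠ X.src (X.inv d2)))).card
        = X.k2 - 1 - 1 := by
      have : univ.filter (fun v => X.deg v = 2 ∧ (v ≠ X.src (X.inv d1) ∧ v ≠ X.src (X.inv d2)))
          = ((univ.filter (fun v => X.deg v = 2)).erase (X.src (X.inv d1))).erase (X.src (X.inv d2)) := by
        ext v
        simp only [mem_filter, mem_univ, true_and, mem_erase]
        tauto
      rw [this, card_erase_of_mem (by simp [hv, huv.symm]), card_erase_of_mem (by simp [hu])]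
      rfl
    have e2 : (univ.filter (fun e : E => e = X.ed g)).card = 1 := by
      rw [filter_eq' univ (X.ed g)]
      simp
    have e3 : 2 ≤ X.k2 := by
      unfold DG.k2
      have : ({X.src (X.inv d1), X.src (X.inv d2)} : Finset V) ⊆ univ.filter (fun v => X.deg v = 2) := by
        intro v hv'
        simp only [mem_insert, mem_singleton] at hv'
        rcases hv' with rfl | rfl
        · simp [hu]
        · simp [hv]
      have h := card_le_card this
      rw [card_pair huv] at h
      exact h
    rw [e1, e2]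
    omega
  obtain ⟨c, hc⟩ := mixed9 X hX hE hC (X.ed g) h9
    (fun v => v ≠ X.src (X.inv d1) ∧ v ≠ X.src (X.inv d2)) (fun e => e = X.ed g) hk'
  have hed : ∀ d, X.ed d ≠ X.ed g → c (X.pe (X.ed d)) = c d := fun d h => mixed_ed X _ _ c hc d h
  have hinv : ∀ d, X.ed d ≠ X.ed g → c (X.inv d) = c d := by
    intro d h
    rw [← hed (X.inv d) (by rw [ed_inv]; exact h), ed_inv, hed d h]
  have e1g : X.ed d1 ≠ X.ed g := (ed_ne X (X.src d1) d1 g hg hg1.symm (hloop d1))
  have e2g : X.ed d2 ≠ X.ed g := (ed_ne X (X.src d2) d2 g (hg.trans h12) hg2.symm (hloop d2))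
  have e12 : X.ed d1 ≠ X.ed d2 := (ed_ne X (X.src d1) d1 d2 h12.symm hne12 (hloop d1))
  have hgx : c (X.inv g) ≠ c g := by
    have h := hc.2.1 (X.ed g) rfl
    rcases dart_cases X g with q | q
    · rw [← q] at h; exact h.symm
    · have q' : X.pe (X.ed g) = X.inv g := by
        have := congrArg X.inv q
        rw [X.inv_inv] at this
        exact this.symm
      rw [q', X.inv_inv] at h
      exact h
  have m1 : c d1 ≠ c d2 := mixed_ne X _ _ c hc (X.src d1) (Or.inl h3) d1 d2 rfl h12.symm hne12
  have m2 : c d1 ≠ c g := mixed_ne X _ _ c hc (X.src d1) (Or.inl h3) d1 g rfl hg hg1.symm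
  have m3 : c d2 ≠ c g := mixed_ne X _ _ c hc (X.src d1) (Or.inl h3) d2 g h12.symm hg hg2.symm
  obtain ⟨p, q, hp, hq, hpq, hpx, hqx⟩ : ∃ p q : Fin 3, p ≠ c d1 ∧ q ≠ c d2 ∧ p ≠ q ∧
      p ≠ c (X.inv g) ∧ q ≠ c (X.inv g) := by
    have : ∀ a b r x : Fin 3, a ≠ b → a ≠ r → b ≠ r → x ≠ r → ∃ p q : Fin 3, p ≠ a ∧ q ≠ b ∧ p ≠ q ∧
      p ≠ x ∧ q ≠ x := by decide
    exact this _ _ _ _ m1 m2 m3 hgx
  let f : E → Fin 3 := fun e => if e = X.ed d1 then p else if e = X.ed d2 then q else
    if e = X.ed g then c (X.inv g) else c (X.pe e)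
  have f1 : f (X.ed d1) = p := by show (if _ then _ else _) = p; rw [if_pos rfl]
  have f2 : f (X.ed d2) = q := by
    show (if _ then _ else (if _ then _ else _)) = q
    rw [if_neg e12.symm, if_pos rfl]
  have f3 : f (X.ed g) = c (X.inv g) := by
    show (if _ then _ else (if _ then _ else (if _ then _ else _))) = _
    rw [if_neg e1g.symm, if_neg e2g.symm, if_pos rfl]
  have f4 : ∀ d, X.ed d ≠ X.ed d1 → X.ed d ≠ X.ed d2 → X.ed d ≠ X.ed g → f (X.ed d) = c d := by
    intro d a1 a2 a3
    show (if _ then _ else (if _ then _ else (if _ then _ else _))) = _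
    rw [if_neg a1, if_neg a2, if_neg a3, hed d a3]
  refine ⟨fun d => f (X.ed d), ?_⟩
  apply good_of_proper X f
  -- values at w
  have hw : ∀ d, X.src d = X.src d1 → d = d1 ∨ d = d2 ∨ d = g := by
    intro d hd
    have hcard : (univ.filter (fun d => X.src d = X.src d1)) = {d1, d2, g} := by
      symm
      apply eq_of_subset_of_card_le
      · intro z hz
        simp only [mem_insert, mem_singleton] at hz
        simp only [mem_filter, mem_univ, true_and]
        rcases hz with rfl | rfl | rfl
        · rfl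
        · exact h12.symm
        · exact hg
      · have : (univ.filter (fun d => X.src d = X.src d1)).card = 3 := h3
        rw [this, card_eq_three.2 ⟨_, _, _, hne12, hg1.symm, hg2.symm, rfl⟩]
    have : d ∈ (univ.filter (fun d => X.src d = X.src d1)) := by simp [hd]
    rw [hcard] at this
    simpa using this
  have atU : ∀ d, X.src d = X.src (X.inv d1) → d ≠ X.inv d1 → f (X.ed d) = c d1 := by
    intro d hd hne
    have a1 : X.ed d ≠ X.ed d1 := by
      intro h
      rcases (X.ed_eq d1 d).1 h.symm with h' | h'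
      · rw [h'] at hd; exact hloop d1 hd.symm
      · exact hne h'
    have a2 : X.ed d ≠ X.ed d2 := by
      intro h
      rcases (X.ed_eq d2 d).1 h.symm with h' | h'
      · rw [h', ← h12] at hd; exact hloop d1 hd.symm
      · rw [h'] at hd; exact huv hd.symm
    have a3 : X.ed d ≠ X.ed g := by
      intro h
      rcases (X.ed_eq g d).1 h.symm with h' | h'
      · rw [h', hg] at hd; exact hloop d1 hd.symm
      · rw [h'] at hd
        exact hg1 (hsim g d1 hg hd)
    rw [f4 d a1 a2 a3, ← hinv d1 e1g]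
    exact mixed_eq X _ _ c hc (X.src (X.inv d1)) hu (by simp) d (X.inv d1) hd rfl
  have atV : ∀ d, X.src d = X.src (X.inv d2) → d ≠ X.inv d2 → f (X.ed d) = c d2 := by
    intro d hd hne
    have a1 : X.ed d ≠ X.ed d1 := by
      intro h
      rcases (X.ed_eq d1 d).1 h.symm with h' | h'
      · rw [h', h12] at hd; exact hloop d2 hd.symm
      · rw [h'] at hd; exact huv hd
    have a2 : X.ed d ≠ X.ed d2 := by
      intro h
      rcases (X.ed_eq d2 d).1 h.symm with h' | h'
      · rw [h'] at hd; exact hloop d2 hd.symm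
      · exact hne h'
    have a3 : X.ed d ≠ X.ed g := by
      intro h
      rcases (X.ed_eq g d).1 h.symm with h' | h'
      · rw [h', hg, h12] at hd; exact hloop d2 hd.symm
      · rw [h'] at hd
        exact hg2 (hsim g d2 (hg.trans h12) hd)
    rw [f4 d a1 a2 a3, ← hinv d2 e2g]
    exact mixed_eq X _ _ c hc (X.src (X.inv d2)) hv (by simp) d (X.inv d2) hd rfl
  have other : ∀ d, X.src d ≠ X.src d1 → X.src d ≠ X.src (X.inv d1) → X.src d ≠ X.src (X.inv d2) →
      f (X.ed d) = c d := by
    intro d b1 b2 b3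
    by_cases a3 : X.ed d = X.ed g
    · rcases (X.ed_eq g d).1 a3.symm with h' | h'
      · exact absurd (by rw [h', hg]) b1
      · rw [a3, f3, h']
    · apply f4 d _ _ a3
      · intro h
        rcases (X.ed_eq d1 d).1 h.symm with h' | h'
        · exact b1 (by rw [h'])
        · exact b2 (by rw [h'])
      · intro h
        rcases (X.ed_eq d2 d).1 h.symm with h' | h'
        · exact b1 (by rw [h', h12])
        · exact b3 (by rw [h'])
  intro d d' hs hne
  by_cases w1 : X.src d = X.src d1
  · have w1' : X.src d' = X.src d1 := hs ▸ w1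
    rcases hw d w1 with rfl | rfl | rfl <;> rcases hw d' w1' with rfl | rfl | rfl
    · exact absurd rfl hne
    · rw [f1, f2]; exact hpq
    · rw [f1, f3]; exact hpx
    · rw [f1, f2]; exact hpq.symm
    · exact absurd rfl hne
    · rw [f2, f3]; exact hqx
    · rw [f1, f3]; exact hpx.symm
    · rw [f2, f3]; exact hqx.symm
    · exact absurd rfl hne
  · by_cases w2 : X.src d = X.src (X.inv d1)
    · have w2' : X.src d' = X.src (X.inv d1) := hs ▸ w2
      by_cases b : d = X.inv d1
      · have b' : d' ≠ X.inv d1 := fun h => hne (b.trans h.symm)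
        rw [atU d' w2' b', b, ed_inv, f1]; exact hp
      · have b' : d' = X.inv d1 := by
          rcases mem2 X _ hu d w2 with q1 | q1 <;> rcases mem2 X _ hu d' w2' with r1 | r1 <;>
            rcases mem2 X _ hu (X.inv d1) rfl with p1 | p1
          all_goals first
            | exact r1.trans p1.symm
            | exact absurd (q1.trans r1.symm) hne
            | exact absurd (q1.trans p1.symm) b
        rw [atU d w2 b, b', ed_inv, f1]; exact hp.symm
    · by_cases w3 : X.src d = X.src (X.inv d2)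
      · have w3' : X.src d' = X.src (X.inv d2) := hs ▸ w3
        by_cases b : d = X.inv d2
        · have b' : d' ≠ X.inv d2 := fun h => hne (b.trans h.symm)
          rw [atV d' w3' b', b, ed_inv, f2]; exact hq
        · have b' : d' = X.inv d2 := by
            rcases mem2 X _ hv d w3 with q1 | q1 <;> rcases mem2 X _ hv d' w3' with r1 | r1 <;>
              rcases mem2 X _ hv (X.inv d2) rfl with p1 | p1
            all_goals first
              | exact r1.trans p1.symm
              | exact absurd (q1.trans r1.symm) hne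
              | exact absurd (q1.trans p1.symm) b
          rw [atV d w3 b, b', ed_inv, f2]; exact hq.symm
      · rw [other d w1 w2 w3, other d' (hs ▸ w1) (hs ▸ w2) (hs ▸ w3)]
        apply mixed_ne X _ _ c hc (X.src d) _ d d' rfl hs.symm hne
        rcases hX (X.src d) with h | h
        · right; exact ⟨h, w2, w3⟩
        · left; exact h

end Pool.Agent.GRZ
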