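import Pool.Agent.GRZ.Loc

set_option autoImplicit false

namespace Pool.Agent.GRZ

open Finset

variable {V D E : Type} [Fintype V] [DecidableEq V] [Fintype D] [DecidableEq D] [Fintype E] [DecidableEq E]
variable {R : Type} [CommRing R]

/-- a product of sums over the fibres is a sum over global functions -/
theorem prod_sum_fiber (s : D → V) {K : Type} [Fintype K] [DecidableEq K]
    (F : (v : V) → ({d // s d = v} → K) → R) :
    ∏ v, ∑ y, F v y = ∑ c : D → K, ∏ v, F v (fun d => c d) := by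
  rw [Finset.prod_univ_sum]
  rw [Fintype.piFinset_univ]
  let e : ((v : V) → ({d // s d = v} → K)) ≃ (D → K) :=
    (Equiv.piCurry (fun (v : V) (_ : {d // s d = v}) => K)).symm.trans
      ((Equiv.sigmaFiberEquiv s).arrowCongr (Equiv.refl K))
  apply Fintype.sum_equiv e
  intro p
  apply prod_congr rfl
  intro v _
  congr 1
  funext d
  obtain ⟨d, rfl⟩ := d
  rfl

/-- functions on the three darts at `v` -/
def tri (X : DG V D E) (v : V) (h : X.deg v = 3) (K : Type) :
    ({d // X.src d = v} → K) ≃ K × K × K where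
  toFun y := (y ⟨X.base v, X.src_base v⟩, y ⟨X.b1 v, src_b1 X v⟩, y ⟨X.b2 v, src_b2 X v⟩)
  invFun p := fun d => if d.1 = X.base v then p.1 else if d.1 = X.b1 v then p.2.1 else p.2.2
  left_inv y := by
    obtain ⟨h1, h2, h3⟩ := deg3_ne X v h
    funext d
    obtain ⟨d, hd⟩ := d
    rcases mem3 X v h d hd with rfl | rfl | rfl
    · simp
    · simp [h1.symm]
    · simp [h2.symm, h3.symm]
  right_inv p := by
    obtain ⟨h1, h2, h3⟩ := deg3_ne X v h
    simp [h1.symm, h2.symm, h3.symm]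

def duo (X : DG V D E) (v : V) (h : X.deg v = 2) (K : Type) :
    ({d // X.src d = v} → K) ≃ K × K where
  toFun y := (y ⟨X.base v, X.src_base v⟩, y ⟨X.b1 v, src_b1 X v⟩)
  invFun p := fun d => if d.1 = X.base v then p.1 else p.2
  left_inv y := by
    have h1 := deg2_ne X v h
    funext d
    obtain ⟨d, hd⟩ := d
    rcases mem2 X v h d hd with rfl | rfl
    · simp
    · simp [h1.symm]
  right_inv p := by
    have h1 := deg2_ne X v h
    simp [h1.symm]

theorem prod3 (X : DG V D E) (v : V) (h : X.deg v = 3) (G : D → R) :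
    ∏ d : {d // X.src d = v}, G d.1 = G (X.base v) * G (X.b1 v) * G (X.b2 v) := by
  obtain ⟨h1, h2, h3⟩ := deg3_ne X v h
  have : ∏ d : {d // X.src d = v}, G d.1 = ∏ d ∈ univ.filter (fun d => X.src d = v), G d := by
    rw [← Finset.prod_subtype]
    intro x; simp
  rw [this, fiber3 X v h, prod_insert (by simp [h1, h2]), prod_pair h3, mul_assoc]

theorem prod2 (X : DG V D E) (v : V) (h : X.deg v = 2) (G : D → R) :
    ∏ d : {d // X.src d = v}, G d.1 = G (X.base v) * G (X.b1 v) := by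
  have h1 := deg2_ne X v h
  have : ∏ d : {d // X.src d = v}, G d.1 = ∏ d ∈ univ.filter (fun d => X.src d = v), G d := by
    rw [← Finset.prod_subtype]
    intro x; simp
  rw [this, fiber2 X v h, prod_pair h1]

/-- the vertex factor of a colouring of the darts -/
def DG.tau (X : DG V D E) (τ3 : V → Fin 3 → Fin 3 → Fin 3 → R) (τ2 : V → Fin 3 → Fin 3 → R)
    (c : D → Fin 3) (v : V) : R :=
  if X.deg v = 3 then τ3 v (c (X.base v)) (c (X.b1 v)) (c (X.b2 v))
  else τ2 v (c (X.base v)) (c (X.b1 v))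

theorem local_sum (X : DG V D E) (hX : X.Sub) (τ3 : V → Fin 3 → Fin 3 → Fin 3 → R)
    (τ2 : V → Fin 3 → Fin 3 → R) (G : D → Fin 3 → R) :
    ∏ v, (if X.deg v = 3 then ∑ a, ∑ b, ∑ c, τ3 v a b c *
        (G (X.base v) a * G (X.b1 v) b * G (X.b2 v) c)
      else ∑ a, ∑ b, τ2 v a b * (G (X.base v) a * G (X.b1 v) b))
    = ∑ c : D → Fin 3, (∏ v, X.tau τ3 τ2 c v) * ∏ d, G d (c d) := by
  have key : ∀ v, (if X.deg v = 3 then ∑ a, ∑ b, ∑ c, τ3 v a b c *
        (G (X.base v) a * G (X.b1 v) b * G (X.b2 v) c)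
      else ∑ a, ∑ b, τ2 v a b * (G (X.base v) a * G (X.b1 v) b))
      = ∑ y : ({d // X.src d = v} → Fin 3),
        (if X.deg v = 3 then τ3 v (y ⟨X.base v, X.src_base v⟩) (y ⟨X.b1 v, src_b1 X v⟩)
          (y ⟨X.b2 v, src_b2 X v⟩)
        else τ2 v (y ⟨X.base v, X.src_base v⟩) (y ⟨X.b1 v, src_b1 X v⟩)) *
        ∏ d : {d // X.src d = v}, G d.1 (y d) := by
    intro v
    rcases hX v with h | h
    · have h3 : X.deg v ≠ 3 := by omega
      simp only [h3, if_false]
      rw [← (duo X v h (Fin 3)).symm.sum_comp, Fintype.sum_prod_type]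
      apply sum_congr rfl
      intro a _
      apply sum_congr rfl
      intro b _
      have e := (duo X v h (Fin 3)).apply_symm_apply (a, b)
      have e1 : (duo X v h (Fin 3)).symm (a, b) ⟨X.base v, X.src_base v⟩ = a := congrArg Prod.fst e
      have e2 : (duo X v h (Fin 3)).symm (a, b) ⟨X.b1 v, src_b1 X v⟩ = b := congrArg Prod.snd e
      rw [e1, e2]
      congr 1
      have := prod2 X v h (fun d => if hd : X.src d = v then
        G d ((duo X v h (Fin 3)).symm (a, b) ⟨d, hd⟩) else 1)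
      simp only [src_b1, X.src_base, dite_true, e1, e2] at this
      rw [← this]
      apply prod_congr rfl
      intro d _
      rw [dif_pos d.2]
    · simp only [h, if_true]
      rw [← (tri X v h (Fin 3)).symm.sum_comp, Fintype.sum_prod_type]
      apply sum_congr rfl
      intro a _
      rw [Fintype.sum_prod_type]
      apply sum_congr rfl
      intro b _
      apply sum_congr rfl
      intro c _
      have e := (tri X v h (Fin 3)).apply_symm_apply (a, b, c)
      have e1 : (tri X v h (Fin 3)).symm (a, b, c) ⟨X.base v, X.src_base v⟩ = a := congrArg Prod.fst e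
      have e2 : (tri X v h (Fin 3)).symm (a, b, c) ⟨X.b1 v, src_b1 X v⟩ = b :=
        congrArg (fun p => p.2.1) e
      have e3 : (tri X v h (Fin 3)).symm (a, b, c) ⟨X.b2 v, src_b2 X v⟩ = c :=
        congrArg (fun p => p.2.2) e
      rw [e1, e2, e3]
      congr 1
      have := prod3 X v h (fun d => if hd : X.src d = v then
        G d ((tri X v h (Fin 3)).symm (a, b, c) ⟨d, hd⟩) else 1)
      simp only [src_b1, src_b2, X.src_base, dite_true, e1, e2, e3] at this
      rw [← this]
      apply prod_congr rfl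
      intro d _
      rw [dif_pos d.2]
  simp only [key]
  rw [prod_sum_fiber X.src (fun v y => (if X.deg v = 3 then
      τ3 v (y ⟨X.base v, X.src_base v⟩) (y ⟨X.b1 v, src_b1 X v⟩) (y ⟨X.b2 v, src_b2 X v⟩)
        else τ2 v (y ⟨X.base v, X.src_base v⟩) (y ⟨X.b1 v, src_b1 X v⟩)) *
        ∏ d : {d // X.src d = v}, G d.1 (y d))]
  apply sum_congr rfl
  intro c _
  rw [prod_mul_distrib]
  congr 1
  rw [← Equiv.prod_comp (Equiv.sigmaFiberEquiv X.src) (fun d => G d (c d)), Fintype.prod_sigma]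
  rfl

/-- a product over the darts is a product over the edges -/
theorem prod_darts (X : DG V D E) (G : D → R) :
    ∏ d, G d = ∏ e, (G (X.pe e) * G (X.inv (X.pe e))) := by
  have h : ∀ e, ∏ d : {d // X.ed d = e}, G d.1 = G (X.pe e) * G (X.inv (X.pe e)) := by
    intro e
    have h1 : ∏ d : {d // X.ed d = e}, G d.1 = ∏ d ∈ univ.filter (fun d => X.ed d = e), G d := by
      rw [← Finset.prod_subtype]
      intro x; simp
    have h2 : univ.filter (fun d => X.ed d = e) = {X.pe e, X.inv (X.pe e)} := by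
      ext d
      simp only [mem_filter, mem_univ, true_and, mem_insert, mem_singleton]
      rw [← X.ed_eq, X.ed_pe, eq_comm]
    rw [h1, h2, prod_pair (X.inv_ne _).symm]
  rw [← Equiv.prod_comp (Equiv.sigmaFiberEquiv X.ed) G, Fintype.prod_sigma]
  apply prod_congr rfl
  intro e _
  rw [← h e]
  rfl

/-- **Change of basis on a network.** -/
theorem net (X : DG V D E) (hX : X.Sub) (τ3 : V → Fin 3 → Fin 3 → Fin 3 → R)
    (τ2 : V → Fin 3 → Fin 3 → R) (g : D → Fin 3 → Fin 3 → R) (w : E → Fin 3 → R) :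
    ∑ x : E → Fin 3, (∏ e, w e (x e)) * ∏ v, (if X.deg v = 3 then
      ∑ a, ∑ b, ∑ c, τ3 v a b c * (g (X.base v) (x (X.ed (X.base v))) a *
        g (X.b1 v) (x (X.ed (X.b1 v))) b * g (X.b2 v) (x (X.ed (X.b2 v))) c)
      else ∑ a, ∑ b, τ2 v a b * (g (X.base v) (x (X.ed (X.base v))) a *
        g (X.b1 v) (x (X.ed (X.b1 v))) b))
    = ∑ c : D → Fin 3, (∏ v, X.tau τ3 τ2 c v) *
        ∏ e, ∑ x, w e x * (g (X.pe e) x (c (X.pe e)) * g (X.inv (X.pe e)) x (c (X.inv (X.pe e)))) := by
  have h1 : ∀ x : E → Fin 3, (∏ v, (if X.deg v = 3 then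
      ∑ a, ∑ b, ∑ c, τ3 v a b c * (g (X.base v) (x (X.ed (X.base v))) a *
        g (X.b1 v) (x (X.ed (X.b1 v))) b * g (X.b2 v) (x (X.ed (X.b2 v))) c)
      else ∑ a, ∑ b, τ2 v a b * (g (X.base v) (x (X.ed (X.base v))) a *
        g (X.b1 v) (x (X.ed (X.b1 v))) b)))
      = ∑ c : D → Fin 3, (∏ v, X.tau τ3 τ2 c v) *
          ∏ e, (g (X.pe e) (x e) (c (X.pe e)) * g (X.inv (X.pe e)) (x e) (c (X.inv (X.pe e)))) := by
    intro x
    rw [local_sum X hX τ3 τ2 (fun d => g d (x (X.ed d)))]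
    apply sum_congr rfl
    intro c _
    congr 1
    rw [prod_darts X (fun d => g d (x (X.ed d)) (c d))]
    apply prod_congr rfl
    intro e _
    have : X.ed (X.inv (X.pe e)) = e := by
      rw [← (X.ed_eq (X.pe e) (X.inv (X.pe e))).2 (Or.inr rfl), X.ed_pe]
    rw [this, X.ed_pe]
  simp only [h1, mul_sum]
  rw [sum_comm]
  apply sum_congr rfl
  intro c _
  rw [Finset.prod_univ_sum, Fintype.piFinset_univ, mul_sum]
  apply sum_congr rfl
  intro x _
  have h2 : (∏ i, w i (x i) * (g (X.pe i) (x i) (c (X.pe i)) *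
      g (X.inv (X.pe i)) (x i) (c (X.inv (X.pe i)))))
      = (∏ i, w i (x i)) * ∏ i, (g (X.pe i) (x i) (c (X.pe i)) *
      g (X.inv (X.pe i)) (x i) (c (X.inv (X.pe i)))) := prod_mul_distrib
  rw [h2]
  ring

end Pool.Agent.GRZ
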