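import Pool.Agent.GRZ.Core

set_option autoImplicit false

namespace Pool.Agent.GRZ

open Finset

theorem exists_O (x y : ℝ) (hx : 0 < x) (hy : y < 0) : ∃ O : Fin 3 → Fin 3 → ℝ,
    (∀ a b, ∑ i, O i a * O i b = if a = b then 1 else 0) ∧
    (∀ i j, ∑ a, O i a * O j a = if i = j then 1 else 0) ∧
    det3 O ≠ 0 ∧ ∀ a, ∑ i, (![x, y, -x - y] : Fin 3 → ℝ) i * (O i a * O i a) = 0 := by
  have hd : 0 < x - y := by linarith
  obtain ⟨c, hc⟩ : ∃ c : ℝ, c * c = -y / (x - y) :=
    ⟨Real.sqrt (-y / (x - y)), Real.mul_self_sqrt (div_nonneg (by linarith) hd.le)⟩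
  obtain ⟨s, hs⟩ : ∃ s : ℝ, s * s = x / (x - y) :=
    ⟨Real.sqrt (x / (x - y)), Real.mul_self_sqrt (div_nonneg hx.le hd.le)⟩
  obtain ⟨q, hq⟩ : ∃ q : ℝ, q * q = 1 / 2 :=
    ⟨Real.sqrt (1 / 2), Real.mul_self_sqrt (by norm_num)⟩
  have hcs : c * c + s * s = 1 := by
    rw [hc, hs]; field_simp; ring
  have h1 : x * (c * c) + y * (s * s) = 0 := by
    rw [hc, hs]; field_simp; ring
  have h2 : x * (s * s) + y * (c * c) = x + y := by
    have : x * (s * s) + y * (c * c) = (x + y) * (c * c + s * s) - (x * (c * c) + y * (s * s)) := by ring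
    rw [this, hcs, h1]; ring
  refine ⟨![![c, s * q, s * q], ![-s, c * q, c * q], ![0, q, -q]], ?_, ?_, ?_, ?_⟩
  · intro a b
    fin_cases a <;> fin_cases b <;> simp [Fin.sum_univ_three]
    · linarith
    · ring
    · ring
    · ring
    · have : s * q * (s * q) + c * q * (c * q) + q * q = (c * c + s * s) * (q * q) + q * q := by ring
      rw [this, hcs, hq]; norm_num
    · have : s * q * (s * q) + c * q * (c * q) + -(q * q) = (c * c + s * s) * (q * q) - q * q := by ring
      rw [this, hcs, hq]; norm_num
    · ring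
    · have : s * q * (s * q) + c * q * (c * q) + -(q * q) = (c * c + s * s) * (q * q) - q * q := by ring
      rw [this, hcs, hq]; norm_num
    · have : s * q * (s * q) + c * q * (c * q) + q * q = (c * c + s * s) * (q * q) + q * q := by ring
      rw [this, hcs, hq]; norm_num
  · intro a b
    fin_cases a <;> fin_cases b <;> simp [Fin.sum_univ_three]
    · have : c * c + s * q * (s * q) + s * q * (s * q) = c * c + s * s * (2 * (q * q)) := by ring
      rw [this, hq]; linarith
    · have : -(c * s) + s * q * (c * q) + s * q * (c * q) = -(c * s) + s * c * (2 * (q * q)) := by ring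
      rw [this, hq]; ring
    · have : -(s * c) + c * q * (s * q) + c * q * (s * q) = -(c * s) + s * c * (2 * (q * q)) := by ring
      rw [this, hq]; ring
    · have : s * s + c * q * (c * q) + c * q * (c * q) = s * s + c * c * (2 * (q * q)) := by ring
      rw [this, hq]; linarith
    · rw [hq]; norm_num
  · have : det3 ![![c, s * q, s * q], ![-s, c * q, c * q], ![0, q, -q]] = -1 := by
      unfold det3
      simp
      have : c * (-(c * q * q) - c * q * q) - s * q * (s * q) + -(s * q * (s * q))
        = -(c * c + s * s) * (2 * (q * q)) := by ring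
      rw [this, hcs, hq]; norm_num
    rw [this]; norm_num
  · intro a
    fin_cases a <;> simp [Fin.sum_univ_three]
    · linarith
    · have : x * (s * q * (s * q)) + y * (c * q * (c * q)) + (-x - y) * (q * q)
        = (x * (s * s) + y * (c * c)) * (q * q) + (-x - y) * (q * q) := by ring
      rw [this, h2]; ring
    · have : x * (s * q * (s * q)) + y * (c * q * (c * q)) + (-x - y) * (q * q)
        = (x * (s * s) + y * (c * c)) * (q * q) + (-x - y) * (q * q) := by ring
      rw [this, h2]; ring

end Pool.Agent.GRZ
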