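import Mathlib

set_option autoImplicit false

namespace Pool.Agent.GRZ

open Finset

variable {V : Type} [Fintype V] [DecidableEq V]

/-- 3-edge-colourability, as in the frozen statement of the problem. -/
def Col3 (G : SimpleGraph V) : Prop :=
  ∃ c : Sym2 V → Fin 3, ∀ e ∈ G.edgeSet, ∀ e' ∈ G.edgeSet, e ≠ e' →
    (∃ v : V, v ∈ e ∧ v ∈ e') → c e ≠ c e'

/-- `d` maps to the dart that follows `d` on its face. -/
def faceNext (G : SimpleGraph V) (rot : Equiv.Perm G.Dart) : Equiv.Perm G.Dart :=
  (Function.Involutive.toPerm SimpleGraph.Dart.symm SimpleGraph.Dart.symm_involutive).trans rot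

/-- A plane embedding, given combinatorially by a rotation system: `rot` permutes cyclically the darts
(oriented edges) leaving any given vertex, and Euler's formula `|V| + #faces = |E| + 2` holds, where the
faces are the cycles of `d ↦ rot (reverse of d)`. -/
structure IsPlane (G : SimpleGraph V) [DecidableRel G.Adj] (rot : Equiv.Perm G.Dart) : Prop where
  fst_rot : ∀ d : G.Dart, (rot d).fst = d.fst
  cyclic : ∀ d d' : G.Dart, d.fst = d'.fst → rot.SameCycle d d'
  euler : Fintype.card V + Nat.card (Quotient (Equiv.Perm.SameCycle.setoid (faceNext G rot)))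
    = G.edgeFinset.card + 2

/-- A straight colouring: the two edges at a vertex of degree 2 have the same colour, the three edges at a
vertex of degree 3 have different colours. (Equivalently: a 3-edge-colouring of the cubic graph obtained
from `G` by suppressing the vertices of degree 2.) -/
def Straight (G : SimpleGraph V) [DecidableRel G.Adj] (h : G.edgeSet → Fin 3) : Prop :=
  ∀ v : V, ∀ e f : G.edgeSet, v ∈ (e : Sym2 V) → v ∈ (f : Sym2 V) →
    (G.degree v = 2 → h e = h f) ∧ (G.degree v = 3 → e ≠ f → h e ≠ h f)

open scoped Classical in
/-- The straight colourings of `G` that agree with `φ` on the edges in `M`. -/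
noncomputable def straightOn (G : SimpleGraph V) [DecidableRel G.Adj] (M : Set (Sym2 V))
    (φ : G.edgeSet → Fin 3) : Finset (G.edgeSet → Fin 3) :=
  univ.filter (fun h => Straight G h ∧ ∀ e : G.edgeSet, (e : Sym2 V) ∈ M → h e = φ e)

open scoped Classical in
/-- All straight colourings of `G`. -/
noncomputable def straight (G : SimpleGraph V) [DecidableRel G.Adj] : Finset (G.edgeSet → Fin 3) :=
  univ.filter (fun h => Straight G h)

open scoped Classical in
/-- The number of vertices of degree 2 whose edges have colour `i`. -/
noncomputable def colCount (G : SimpleGraph V) [DecidableRel G.Adj] (h : G.edgeSet → Fin 3) (i : Fin 3) : ℕ :=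
  (univ.filter (fun v : V => G.degree v = 2 ∧ ∀ e : G.edgeSet, v ∈ (e : Sym2 V) → h e = i)).card

/-- The number of vertices of degree 2. -/
def numTwo (G : SimpleGraph V) [DecidableRel G.Adj] : ℕ :=
  (univ.filter (fun v : V => G.degree v = 2)).card

/-- `G` can be oriented so that every vertex of degree 3 is a source or a sink and every vertex of
degree 2 has one edge in and one edge out (`o d = true` means that the dart `d` is directed away from its
first vertex). Equivalently: the cubic graph obtained from `G` by suppressing the vertices of degree 2 is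
bipartite. -/
def BipartiteSkeleton (G : SimpleGraph V) [DecidableRel G.Adj] : Prop :=
  ∃ o : G.Dart → Bool, (∀ d : G.Dart, o d.symm = !(o d)) ∧
    ∀ d d' : G.Dart, d.fst = d'.fst → d ≠ d' →
      (G.degree d.fst = 3 → o d = o d') ∧ (G.degree d.fst = 2 → o d ≠ o d')

end Pool.Agent.GRZ
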