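import Pool.Agent.GRZ.Sign
import Pool.Agent.GRZ.Orth

set_option autoImplicit false

namespace Pool.Agent.GRZ

open Finset

variable {V D E : Type} [Fintype V] [DecidableEq V] [Fintype D] [DecidableEq D] [Fintype E] [DecidableEq E]

theorem wt_map {R S : Type} [CommRing R] [CommRing S] (X : DG V D E) (f : R →+* S) (t : Fin 3 → R)
    (t' : Fin 3 → S) (h : ∀ i, f (t i) = t' i) (x : E → Fin 3) :
    f (X.wt (fun _ => t) x) = X.wt (fun _ => t') x := by
  unfold DG.wt
  rw [map_prod]
  apply prod_congr rfl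
  intro v _
  by_cases h2 : X.deg v = 2
  · rw [if_pos h2, if_pos h2, h]
  · rw [if_neg h2, if_neg h2, map_one]

/-- **The criterion in the plane, over an arbitrary commutative ring.** -/
theorem planar_ring (X : DG V D E) (hX : X.Sub) (hE : X.Euler) (hC : X.Conn)
    (M : E → Prop) [DecidablePred M] (φ : E → Fin 3) [DecidablePred X.Tait]
    {R : Type} [CommRing R] (t : Fin 3 → R) (ht : t 0 + t 1 + t 2 = 0)
    (hne : ∑ x ∈ univ.filter (fun x : E → Fin 3 => X.Tait x ∧ ∀ e, M e → x e = φ e),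
      X.wt (fun _ => t) x ≠ 0) :
    ∃ c, X.Good M c := by
  classical
  let tp : Fin 3 → MvPolynomial (Fin 2) ℤ :=
    ![MvPolynomial.X 0, MvPolynomial.X 1, - MvPolynomial.X 0 - MvPolynomial.X 1]
  let S := univ.filter (fun x : E → Fin 3 => X.Tait x ∧ ∀ e, M e → x e = φ e)
  let P : MvPolynomial (Fin 2) ℤ := ∑ x ∈ S, X.wt (fun _ => tp) x
  have hP : P ≠ 0 := by
    intro h0
    apply hne
    have h1 : (MvPolynomial.aeval (R := ℤ) ![t 0, t 1]).toRingHom P
        = ∑ x ∈ S, X.wt (fun _ => t) x := by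
      show (MvPolynomial.aeval (R := ℤ) ![t 0, t 1]).toRingHom (∑ x ∈ S, X.wt (fun _ => tp) x) = _
      rw [map_sum]
      apply sum_congr rfl
      intro x _
      apply wt_map
      intro i
      fin_cases i
      · simp [tp]
      · simp [tp]
      · simp [tp]
        linear_combination (-1 : R) * ht
    rw [← h1, h0, map_zero]
  have hPR : MvPolynomial.map (Int.castRingHom ℝ) P ≠ 0 := by
    intro h0
    apply hP
    apply MvPolynomial.map_injective (Int.castRingHom ℝ) (RingHom.injective_int _)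
    rw [h0, map_zero]
  obtain ⟨x, y, hx, hy, hxy⟩ : ∃ x y : ℝ, 0 < x ∧ y < 0 ∧
      MvPolynomial.eval ![x, y] (MvPolynomial.map (Int.castRingHom ℝ) P) ≠ 0 := by
    by_contra hno
    push Not at hno
    apply hPR
    apply MvPolynomial.funext_set (fun i : Fin 2 => (if i = 0 then Set.Ioi (0 : ℝ) else Set.Iio (0 : ℝ)))
    · intro i
      fin_cases i
      · simp only [Fin.zero_eta, if_true]
        exact Set.Ioi_infinite 0
      · simp only [Fin.mk_one, Fin.isValue, one_ne_zero, if_false]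
        exact Set.Iio_infinite 0
    · intro z hz
      rw [Set.mem_pi] at hz
      have h0 := hz 0 (Set.mem_univ _)
      have h1 := hz 1 (Set.mem_univ _)
      simp only [if_true, Fin.isValue, one_ne_zero, if_false, Set.mem_Ioi, Set.mem_Iio] at h0 h1
      have := hno (z 0) (z 1) h0 h1
      have hz' : (![z 0, z 1] : Fin 2 → ℝ) = z := by
        funext i; fin_cases i <;> rfl
      rw [hz'] at this
      rw [this, map_zero]
  have hsum : ∑ z ∈ S, X.wt (fun _ => (![x, y, -x - y] : Fin 3 → ℝ)) z ≠ 0 := by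
    have h1 : ((MvPolynomial.eval ![x, y]).comp (MvPolynomial.map (Int.castRingHom ℝ))) P
        = ∑ z ∈ S, X.wt (fun _ => (![x, y, -x - y] : Fin 3 → ℝ)) z := by
      show ((MvPolynomial.eval ![x, y]).comp (MvPolynomial.map (Int.castRingHom ℝ)))
        (∑ x ∈ S, X.wt (fun _ => tp) x) = _
      rw [map_sum]
      apply sum_congr rfl
      intro z _
      apply wt_map
      intro i
      fin_cases i
      · simp [tp]
      · simp [tp]
      · simp [tp]
    rw [← h1]
    exact hxy
  obtain ⟨O, hcol, hrow, hdet, hT⟩ := exists_O x y hx hy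
  apply core_real X hX O hcol hrow hdet ![x, y, -x - y] hT M φ
  have hSne : S.Nonempty := by
    by_contra h
    rw [not_nonempty_iff_eq_empty] at h
    apply hsum
    rw [h, sum_empty]
  obtain ⟨z0, hz0⟩ := hSne
  have hz0' : X.Tait z0 := by
    have := (mem_filter.1 hz0).2
    exact this.1
  have hs : ∑ z ∈ S, ((X.sgn z : ℤ) : ℝ) * X.wt (fun _ => (![x, y, -x - y] : Fin 3 → ℝ)) z
      = ((X.sgn z0 : ℤ) : ℝ) * ∑ z ∈ S, X.wt (fun _ => (![x, y, -x - y] : Fin 3 → ℝ)) z := by
    rw [mul_sum]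
    apply sum_congr rfl
    intro z hz
    rw [sgn_const X hX hE hC z z0 (mem_filter.1 hz).2.1 hz0']
  show ∑ z ∈ S, ((X.sgn z : ℤ) : ℝ) * X.wt (fun _ => (![x, y, -x - y] : Fin 3 → ℝ)) z ≠ 0
  rw [hs]
  apply mul_ne_zero _ hsum
  have := prod_pm univ _ (fun v _ => sgn_pm X z0 hz0' v)
  have h2 : X.sgn z0 = 1 ∨ X.sgn z0 = -1 := this
  rcases h2 with h2 | h2 <;> rw [h2] <;> norm_num

end Pool.Agent.GRZ
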