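import Pool.Agent.GRZ.Loc

set_option autoImplicit false

namespace Pool.Agent.GRZ

open Finset

variable {V D E : Type} [Fintype V] [DecidableEq V] [Fintype D] [DecidableEq D] [Fintype E] [DecidableEq E]

/-- a sum over the darts is a sum over the edges -/
theorem sum_darts {R : Type} [AddCommMonoid R] (X : DG V D E) (G : D → R) :
    ∑ d, G d = ∑ e, (G (X.pe e) + G (X.inv (X.pe e))) := by
  have h : ∀ e, ∑ d : {d // X.ed d = e}, G d.1 = G (X.pe e) + G (X.inv (X.pe e)) := by
    intro e
    have h1 : ∑ d : {d // X.ed d = e}, G d.1 = ∑ d ∈ univ.filter (fun d => X.ed d = e), G d := by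
      rw [← Finset.sum_subtype]
      intro x; simp
    have h2 : univ.filter (fun d => X.ed d = e) = {X.pe e, X.inv (X.pe e)} := by
      ext d
      simp only [mem_filter, mem_univ, true_and, mem_insert, mem_singleton]
      rw [← X.ed_eq, X.ed_pe, eq_comm]
    rw [h1, h2, sum_pair (X.inv_ne _).symm]
  rw [← Equiv.sum_comp (Equiv.sigmaFiberEquiv X.ed) G, Fintype.sum_sigma]
  apply sum_congr rfl
  intro e _
  rw [← h e]
  rfl

theorem dart_cases (X : DG V D E) (d : D) : d = X.pe (X.ed d) ∨ d = X.inv (X.pe (X.ed d)) := by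
  rw [← X.ed_eq, X.ed_pe]

theorem face_inv (X : DG V D E) (d : D) : X.face (X.inv d) = X.rot d := by
  unfold DG.face
  simp [X.inv_inv]

/-- the incidence matrix over the field with two elements -/
def inc (X : DG V D E) : Matrix V E (ZMod 2) := fun v e =>
  (if X.src (X.pe e) = v then 1 else 0) + (if X.src (X.inv (X.pe e)) = v then 1 else 0)

theorem inc_mulVec (X : DG V D E) (x : E → ZMod 2) (v : V) :
    (inc X).mulVec x v = ∑ d ∈ univ.filter (fun d => X.src d = v), x (X.ed d) := by
  rw [sum_filter, sum_darts X (fun d => if X.src d = v then x (X.ed d) else 0)]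
  unfold Matrix.mulVec dotProduct inc
  apply sum_congr rfl
  intro e _
  have : X.ed (X.inv (X.pe e)) = e := by
    rw [← (X.ed_eq (X.pe e) (X.inv (X.pe e))).2 (Or.inr rfl), X.ed_pe]
  rw [this, X.ed_pe, add_mul]
  congr 1
  · split_ifs <;> simp
  · split_ifs <;> simp

theorem inc_transpose_mulVec (X : DG V D E) (y : V → ZMod 2) (e : E) :
    (inc X).transpose.mulVec y e = y (X.src (X.pe e)) + y (X.src (X.inv (X.pe e))) := by
  unfold Matrix.mulVec dotProduct inc
  simp only [Matrix.transpose_apply, add_mul, sum_add_distrib, ite_mul, one_mul, zero_mul]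
  simp

theorem const_of_inv (X : DG V D E) (hC : X.Conn) (f : D → ZMod 2) (hr : ∀ d, f (X.rot d) = f d)
    (he : ∀ e, f (X.pe e) + f (X.inv (X.pe e)) = 0) (d d' : D) : f d = f d' := by
  apply hC f hr
  intro d
  have h2 : ∀ a b : ZMod 2, a + b = 0 → b = a := by decide
  rcases dart_cases X d with h | h
  · have := he (X.ed d)
    rw [← h] at this
    exact h2 _ _ this
  · have := he (X.ed d)
    rw [← h] at this
    have h3 : X.pe (X.ed d) = X.inv d := by
      have := congrArg X.inv h
      rw [X.inv_inv] at this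
      exact this.symm
    rw [h3] at this
    exact (h2 _ _ this).symm

theorem finrank_le_one_of_const {ι : Type} [Fintype ι] (W : Submodule (ZMod 2) (ι → ZMod 2))
    (h : ∀ f ∈ W, ∀ i j, f i = f j) : Module.finrank (ZMod 2) W ≤ 1 := by
  have hle : W ≤ Submodule.span (ZMod 2) {(fun _ => 1 : ι → ZMod 2)} := by
    intro f hf
    rw [Submodule.mem_span_singleton]
    by_cases hι : Nonempty ι
    · obtain ⟨i⟩ := hι
      refine ⟨f i, ?_⟩
      funext j
      simp [h f hf i j]
    · refine ⟨0, ?_⟩
      funext j
      exact absurd ⟨j⟩ hι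
  calc Module.finrank (ZMod 2) W ≤ Module.finrank (ZMod 2) (Submodule.span (ZMod 2) {(fun _ => 1 : ι → ZMod 2)}) :=
        Submodule.finrank_mono hle
    _ ≤ 1 := by
        have := finrank_span_le_card (R := ZMod 2) ({(fun _ => 1 : ι → ZMod 2)} : Set (ι → ZMod 2))
        simpa using this

/-- functions on the faces -/
abbrev FaceQ (X : DG V D E) := Quotient (Equiv.Perm.SameCycle.setoid X.face)

noncomputable def dl (X : DG V D E) : (FaceQ X → ZMod 2) →ₗ[ZMod 2] (E → ZMod 2) where
  toFun κ e := κ (Quotient.mk _ (X.pe e)) + κ (Quotient.mk _ (X.inv (X.pe e)))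
  map_add' a b := by funext e; simp only [Pi.add_apply]; ring
  map_smul' a b := by funext e; simp only [Pi.smul_apply, smul_eq_mul, RingHom.id_apply]; ring

theorem mk_face (X : DG V D E) (d : D) :
    (Quotient.mk (Equiv.Perm.SameCycle.setoid X.face) (X.face d)) =
      Quotient.mk (Equiv.Perm.SameCycle.setoid X.face) d := by
  apply Quotient.sound
  show X.face.SameCycle (X.face d) d
  exact (Equiv.Perm.sameCycle_apply_left).2 (Equiv.Perm.SameCycle.refl _ _)

theorem mk_rot (X : DG V D E) (d : D) :
    (Quotient.mk (Equiv.Perm.SameCycle.setoid X.face) (X.rot d)) =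
      Quotient.mk (Equiv.Perm.SameCycle.setoid X.face) (X.inv d) := by
  rw [← face_inv, mk_face]

theorem ker_dl (X : DG V D E) (hC : X.Conn) : Module.finrank (ZMod 2) (LinearMap.ker (dl X)) ≤ 1 := by
  classical
  have : Fintype (FaceQ X) := Fintype.ofFinite _
  apply finrank_le_one_of_const
  intro κ hκ i j
  rw [LinearMap.mem_ker] at hκ
  have hk : ∀ e, κ (Quotient.mk _ (X.pe e)) + κ (Quotient.mk _ (X.inv (X.pe e))) = 0 := fun e =>
    congrFun hκ e
  have h2 : ∀ a b : ZMod 2, a + b = 0 → b = a := by decide
  have hinv : ∀ d, κ (Quotient.mk _ (X.inv d)) = κ (Quotient.mk _ d) := by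
    intro d
    have := hk (X.ed d)
    rcases dart_cases X d with h | h
    · rw [← h] at this
      exact h2 _ _ this
    · rw [← h] at this
      have h3 : X.pe (X.ed d) = X.inv d := by
        have := congrArg X.inv h
        rw [X.inv_inv] at this
        exact this.symm
      rw [h3] at this
      exact (h2 _ _ this).symm
  have hc := const_of_inv X hC (fun d => κ (Quotient.mk _ d))
    (fun d => by
      show κ _ = κ _
      rw [mk_rot, hinv]) hk
  induction i using Quotient.inductionOn with
  | _ d =>
    induction j using Quotient.inductionOn with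
    | _ d' => exact hc d d'

theorem ker_inc (X : DG V D E) (hC : X.Conn) :
    Module.finrank (ZMod 2) (LinearMap.ker (inc X).transpose.mulVecLin) ≤ 1 := by
  apply finrank_le_one_of_const
  intro y hy i j
  rw [LinearMap.mem_ker] at hy
  have hk : ∀ e, y (X.src (X.pe e)) + y (X.src (X.inv (X.pe e))) = 0 := by
    intro e
    rw [← inc_transpose_mulVec]
    exact congrFun hy e
  have := const_of_inv X hC (fun d => y (X.src d)) (fun d => by
    show y _ = y _
    rw [X.src_rot]) hk (X.base i) (X.base j)
  simpa [X.src_base] using this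

/-- **Potentials.** On the sphere every even edge function is the coboundary of a face function. -/
theorem exists_pot (X : DG V D E) (hE : X.Euler) (hC : X.Conn) (x : E → ZMod 2)
    (hx : ∀ v, ∑ d ∈ univ.filter (fun d => X.src d = v), x (X.ed d) = 0) :
    ∃ κ : D → ZMod 2, (∀ d, κ (X.rot d) = κ (X.inv d)) ∧ ∀ d, x (X.ed d) = κ d + κ (X.inv d) := by
  classical
  have : Fintype (FaceQ X) := Fintype.ofFinite _
  have h1 := ker_dl X hC
  have h2 := ker_inc X hC
  have h3 := LinearMap.finrank_range_add_finrank_ker (dl X)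
  have h4 := LinearMap.finrank_range_add_finrank_ker (inc X).transpose.mulVecLin
  have h5 := LinearMap.finrank_range_add_finrank_ker (inc X).mulVecLin
  have h6 : Module.finrank (ZMod 2) (LinearMap.range (inc X).transpose.mulVecLin)
      = Module.finrank (ZMod 2) (LinearMap.range (inc X).mulVecLin) := (inc X).rank_transpose
  rw [Module.finrank_fintype_fun_eq_card] at h3 h4 h5
  have hQ : Nat.card (FaceQ X) = Fintype.card (FaceQ X) := Nat.card_eq_fintype_card
  unfold DG.Euler at hE
  have hle : LinearMap.range (dl X) ≤ LinearMap.ker (inc X).mulVecLin := by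
    rintro _ ⟨κ, rfl⟩
    rw [LinearMap.mem_ker]
    funext v
    rw [Matrix.mulVecLin_apply, inc_mulVec]
    have hd : ∀ d, dl X κ (X.ed d) = κ (Quotient.mk _ d) + κ (Quotient.mk _ (X.inv d)) := by
      intro d
      show κ (Quotient.mk _ (X.pe (X.ed d))) + κ (Quotient.mk _ (X.inv (X.pe (X.ed d)))) = _
      rcases dart_cases X d with h | h
      · rw [← h]
      · rw [← h]
        have h3 : X.pe (X.ed d) = X.inv d := by
          have := congrArg X.inv h
          rw [X.inv_inv] at this
          exact this.symm
        rw [h3, add_comm]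
    simp only [hd, ← mk_rot, sum_add_distrib]
    have hs : ∑ d ∈ univ.filter (fun d => X.src d = v), κ (Quotient.mk _ (X.rot d))
        = ∑ d ∈ univ.filter (fun d => X.src d = v), κ (Quotient.mk _ d) := by
      apply sum_equiv X.rot
      · intro d
        simp [X.src_rot]
      · intro d _
        rfl
    rw [hs]
    have : ∀ a : ZMod 2, a + a = 0 := by decide
    exact this _
  have heq : LinearMap.range (dl X) = LinearMap.ker (inc X).mulVecLin := by
    apply Submodule.eq_of_le_of_finrank_le hle
    have hQ' : Nat.card (Quotient (Equiv.Perm.SameCycle.setoid X.face)) = Fintype.card (FaceQ X) := hQ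
    omega
  have hmem : x ∈ LinearMap.ker (inc X).mulVecLin := by
    rw [LinearMap.mem_ker]
    funext v
    rw [Matrix.mulVecLin_apply, inc_mulVec]
    exact hx v
  rw [← heq] at hmem
  obtain ⟨κ, hκ⟩ := hmem
  refine ⟨fun d => κ (Quotient.mk _ d), ?_, ?_⟩
  · intro d
    show κ _ = κ _
    rw [mk_rot]
  · intro d
    rw [← hκ]
    show κ (Quotient.mk _ (X.pe (X.ed d))) + κ (Quotient.mk _ (X.inv (X.pe (X.ed d)))) = _
    rcases dart_cases X d with h | h
    · rw [← h]
    · rw [← h]
      have h3 : X.pe (X.ed d) = X.inv d := by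
        have := congrArg X.inv h
        rw [X.inv_inv] at this
        exact this.symm
      rw [h3, add_comm]

end Pool.Agent.GRZ
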