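import Pool.Agent.GRZ.Pot
import Pool.Agent.GRZ.Eps

set_option autoImplicit false

namespace Pool.Agent.GRZ

open Finset

variable {V D E : Type} [Fintype V] [DecidableEq V] [Fintype D] [DecidableEq D] [Fintype E] [DecidableEq E]

/-- the colours as the nonzero elements of the Klein group -/
def colr (i : Fin 3) : ZMod 2 × ZMod 2 := if i = 0 then (1, 0) else if i = 1 then (0, 1) else (1, 1)

/-- the antisymmetric table -/
def wv (a b : ZMod 2 × ZMod 2) : ZMod 4 :=
  if a = (0, 0) then (if b = (1, 0) then 0 else if b = (0, 1) then 2 else if b = (1, 1) then 3 else 0)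
  else if a = (1, 0) then (if b = (0, 0) then 0 else if b = (0, 1) then 1 else if b = (1, 1) then 0 else 0)
  else if a = (0, 1) then (if b = (0, 0) then 2 else if b = (1, 0) then 3 else if b = (1, 1) then 0 else 0)
  else (if b = (0, 0) then 1 else if b = (1, 0) then 0 else if b = (0, 1) then 0 else 0)

theorem wv_anti : ∀ a b : ZMod 2 × ZMod 2, wv a b + wv b a = 0 := by decide

theorem wv_eps : ∀ a b c : ZMod 2 × ZMod 2, ∀ i j k : Fin 3, colr i = a + b → colr j = b + c →
    colr k = c + a → ((eps i j k : ℤ) : ZMod 4) = wv a b + wv b c + wv c a := by decide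

theorem colr_sum : ∀ i j k : Fin 3, eps i j k ≠ 0 → colr i + colr j + colr k = 0 := by decide

theorem sum3 {R : Type} [AddCommMonoid R] (X : DG V D E) (v : V) (h : X.deg v = 3) (G : D → R) :
    ∑ d ∈ univ.filter (fun d => X.src d = v), G d = G (X.base v) + G (X.b1 v) + G (X.b2 v) := by
  obtain ⟨h1, h2, h3⟩ := deg3_ne X v h
  rw [fiber3 X v h, sum_insert (by simp [h1, h2]), sum_pair h3, add_assoc]

theorem sum2 {R : Type} [AddCommMonoid R] (X : DG V D E) (v : V) (h : X.deg v = 2) (G : D → R) :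
    ∑ d ∈ univ.filter (fun d => X.src d = v), G d = G (X.base v) + G (X.b1 v) := by
  have h1 := deg2_ne X v h
  rw [fiber2 X v h, sum_pair h1]

theorem sum_src {R : Type} [AddCommMonoid R] (X : DG V D E) (G : D → R) :
    ∑ d, G d = ∑ v, ∑ d ∈ univ.filter (fun d => X.src d = v), G d :=
  (Finset.sum_fiberwise _ _ _).symm

theorem sum_eps (X : DG V D E) (hX : X.Sub) (hE : X.Euler) (hC : X.Conn) (h : E → Fin 3)
    (hh : X.Tait h) :
    ∑ v, (if X.deg v = 3 then ((eps (h (X.ed (X.base v))) (h (X.ed (X.b1 v))) (h (X.ed (X.b2 v))) : ℤ) :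
      ZMod 4) else 0) = 0 := by
  have hflow : ∀ v, ∑ d ∈ univ.filter (fun d => X.src d = v), colr (h (X.ed d)) = 0 := by
    intro v
    rcases hX v with h2 | h3
    · rw [sum2 X v h2, hh.2 v h2]
      have : ∀ a : ZMod 2 × ZMod 2, a + a = 0 := by decide
      exact this _
    · rw [sum3 X v h3]
      exact colr_sum _ _ _ (hh.1 v h3)
  obtain ⟨κ1, hr1, he1⟩ := exists_pot X hE hC (fun e => (colr (h e)).1) (by
    intro v
    have := congrArg Prod.fst (hflow v)
    rw [Prod.fst_sum] at this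
    exact this)
  obtain ⟨κ2, hr2, he2⟩ := exists_pot X hE hC (fun e => (colr (h e)).2) (by
    intro v
    have := congrArg Prod.snd (hflow v)
    rw [Prod.snd_sum] at this
    exact this)
  let κ : D → ZMod 2 × ZMod 2 := fun d => (κ1 d, κ2 d)
  have hr : ∀ d, κ (X.rot d) = κ (X.inv d) := by
    intro d
    show (κ1 _, κ2 _) = (κ1 _, κ2 _)
    rw [hr1, hr2]
  have he : ∀ d, colr (h (X.ed d)) = κ d + κ (X.rot d) := by
    intro d
    rw [hr]
    exact Prod.ext (he1 d) (he2 d)
  have hS : ∑ d, wv (κ d) (κ (X.rot d)) = 0 := by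
    simp only [hr]
    rw [sum_darts X]
    apply sum_eq_zero
    intro e _
    rw [X.inv_inv]
    exact wv_anti _ _
  refine Eq.trans ?_ hS
  rw [sum_src X]
  apply sum_congr rfl
  intro v _
  rcases hX v with h2 | h3
  · rw [if_neg (by omega), sum2 X v h2, rot_b1 X v h2]
    exact (wv_anti _ _).symm
  · rw [if_pos h3, sum3 X v h3, rot_b2 X v h3]
    apply wv_eps
    · exact he _
    · exact he _
    · have := he (X.b2 v)
      rw [rot_b2 X v h3] at this
      exact this

theorem prod_mod4 {ι : Type} (s : Finset ι) (a : ι → ℤ) (ha : ∀ i ∈ s, a i = 1 ∨ a i = -1) :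
    ((∏ i ∈ s, a i : ℤ) : ZMod 4) = 1 + ∑ i ∈ s, ((a i : ZMod 4) - 1) ∧
    ∃ m : ZMod 4, ∑ i ∈ s, ((a i : ZMod 4) - 1) = 2 * m := by
  classical
  induction s using Finset.induction_on with
  | empty => exact ⟨by simp, 0, by simp⟩
  | insert i s hi ih =>
    obtain ⟨h1, m, hm⟩ := ih (fun j hj => ha j (mem_insert_of_mem hj))
    rw [prod_insert hi, sum_insert hi]
    push_cast at h1 ⊢
    rw [h1, hm]
    have h4 : ∀ m : ZMod 4, (-1 : ZMod 4) * (1 + 2 * m) = 1 + ((-1 - 1) + 2 * m) := by decide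
    rcases ha i (mem_insert_self i s) with h | h
    · rw [h]
      refine ⟨by push_cast; ring, m, by push_cast; ring⟩
    · rw [h]
      refine ⟨?_, m - 1, ?_⟩
      · push_cast
        exact h4 m
      · push_cast; ring

theorem sgn_pm (X : DG V D E) (h : E → Fin 3) (hh : X.Tait h) (v : V) :
    (if X.deg v = 3 then eps (h (X.ed (X.base v))) (h (X.ed (X.b1 v))) (h (X.ed (X.b2 v))) else 1) = 1 ∨
    (if X.deg v = 3 then eps (h (X.ed (X.base v))) (h (X.ed (X.b1 v))) (h (X.ed (X.b2 v))) else 1) = -1 := by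
  by_cases h3 : X.deg v = 3
  · rw [if_pos h3]
    exact eps_pm _ _ _ (hh.1 v h3)
  · rw [if_neg h3]; left; rfl

theorem prod_pm {ι : Type} (s : Finset ι) (a : ι → ℤ) (ha : ∀ i ∈ s, a i = 1 ∨ a i = -1) :
    ∏ i ∈ s, a i = 1 ∨ ∏ i ∈ s, a i = -1 := by
  classical
  induction s using Finset.induction_on with
  | empty => simp
  | insert i s hi ih =>
    rw [prod_insert hi]
    rcases ha i (mem_insert_self i s) with h | h <;>
      rcases ih (fun j hj => ha j (mem_insert_of_mem hj)) with h' | h' <;> rw [h, h'] <;> simp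

/-- **The sign of a straight colouring does not depend on the colouring.** -/
theorem sgn_const (X : DG V D E) (hX : X.Sub) (hE : X.Euler) (hC : X.Conn) (h h' : E → Fin 3)
    (hh : X.Tait h) (hh' : X.Tait h') : X.sgn h = X.sgn h' := by
  have key : ∀ g : E → Fin 3, X.Tait g →
      ((X.sgn g : ℤ) : ZMod 4) = 1 - ((univ.filter (fun v => X.deg v = 3)).card : ZMod 4) := by
    intro g hg
    unfold DG.sgn
    rw [(prod_mod4 univ _ (fun v _ => sgn_pm X g hg v)).1, sub_eq_add_neg]
    congr 1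
    have h1 := sum_eps X hX hE hC g hg
    have h2 : ∑ v, (((if X.deg v = 3 then eps (g (X.ed (X.base v))) (g (X.ed (X.b1 v)))
        (g (X.ed (X.b2 v))) else 1 : ℤ) : ZMod 4) - 1)
        = ∑ v, (if X.deg v = 3 then ((eps (g (X.ed (X.base v))) (g (X.ed (X.b1 v)))
        (g (X.ed (X.b2 v))) : ℤ) : ZMod 4) else 0) - ∑ v, (if X.deg v = 3 then (1 : ZMod 4) else 0) := by
      rw [← sum_sub_distrib]
      apply sum_congr rfl
      intro v _
      by_cases h3 : X.deg v = 3
      · simp only [h3, if_true]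
      · simp only [h3, if_false]
        simp
    rw [h2, h1, zero_sub]
    simp
  have e : ((X.sgn h : ℤ) : ZMod 4) = ((X.sgn h' : ℤ) : ZMod 4) := by rw [key h hh, key h' hh']
  have p1 : X.sgn h = 1 ∨ X.sgn h = -1 := prod_pm univ _ (fun v _ => sgn_pm X h hh v)
  have p2 : X.sgn h' = 1 ∨ X.sgn h' = -1 := prod_pm univ _ (fun v _ => sgn_pm X h' hh' v)
  have ne : ((1 : ℤ) : ZMod 4) ≠ ((-1 : ℤ) : ZMod 4) := by decide
  rcases p1 with h1 | h1 <;> rcases p2 with h2 | h2 <;> rw [h1, h2] at e ⊢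
  · exact absurd e ne
  · exact absurd e.symm ne

end Pool.Agent.GRZ
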